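import Pool.Agent.J4.H26.Pair

/-!
The theorem on the proportion of algebraic classes on Fermat varieties, for all degrees.
-/

set_option autoImplicit false

namespace Pool.Agent.J4.H26

open Finset Function Pool.Agent.H916R2 Pool.Agent.Y2.Cv

set_option linter.unusedSectionVars false

/-- The degree `m` itself if it is even, and `2 m` otherwise. -/
def ev (m : ℕ) : ℕ := if 2 ∣ m then m else 2 * m

/-- The embedding of the residues modulo `m` into those modulo `ev m`, multiplication by one or two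
(pull back of characters from the degree `m` to the degree `ev m`). -/
def up (m : ℕ) : ZMod m → ZMod (ev m) := iota (ev m / m)

/-- The number of the even nonempty subsets of `relPrimes m` which are not among the known pairs. -/
def gap (m : ℕ) : ℕ := 2 ^ ((relPrimes m).card - 1) - 1 - (KnownPairs.filter fun T => T ⊆ relPrimes m).card

lemma ev_eq {m : ℕ} (hm : 0 < m) : (ev m / m) * m = ev m := by
  unfold ev
  split_ifs with h
  · rw [Nat.div_self hm, one_mul]
  · rw [Nat.mul_div_cancel _ hm]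

lemma ev_pos {m : ℕ} (hm : 0 < m) : 0 < ev m := by
  unfold ev; split_ifs <;> omega

lemma two_dvd_ev (m : ℕ) : 2 ∣ ev m := by
  unfold ev
  split_ifs with h
  · exact h
  · exact dvd_mul_right _ _

lemma known_even : ∀ T ∈ KnownPairs, Even T.card ∧ T.Nonempty := by decide

/-- the sets of indices which correspond to a family of sets of primes -/
lemma card_lift (m : ℕ) (𝓦 : Finset (Finset ℕ)) (h : ∀ T ∈ 𝓦, T ⊆ relPrimes m ∧ Even T.card ∧ T.Nonempty) :
    ((evens (relPrimes m)).filter fun S => S.map ⟨Subtype.val, Subtype.val_injective⟩ ∈ 𝓦).card = 𝓦.card := by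
  classical
  apply Finset.card_bij (fun S _ => S.map ⟨Subtype.val, Subtype.val_injective⟩)
  · intro S hS
    exact (mem_filter.mp hS).2
  · intro S _ T _ hST
    exact Finset.map_injective _ hST
  · intro T hT
    obtain ⟨h1, h2, h3⟩ := h T hT
    have hmap : (T.subtype (fun p => p ∈ relPrimes m)).map ⟨Subtype.val, Subtype.val_injective⟩ = T :=
      Finset.subtype_map_of_mem (fun x hx => h1 hx)
    refine ⟨T.subtype (fun p => p ∈ relPrimes m), ?_, hmap⟩
    rw [mem_filter, hmap]
    refine ⟨?_, hT⟩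
    unfold evens
    rw [mem_filter]
    refine ⟨mem_univ _, ?_, ?_⟩
    · rw [← hmap, card_map] at h2
      exact h2
    · rw [← hmap, map_nonempty] at h3
      exact h3

/-- the union of the known characters and of further ones -/
def With (m : ℕ) (X : Multiset (ZMod (ev m)) → Prop) (u : Multiset (ZMod (ev m))) : Prop :=
  SurfaceOrCurveProduct (ev m) u ∨ X u

theorem main_one (m : ℕ) (hm : 0 < m) (X : Multiset (ZMod (ev m)) → Prop)
    (hX : ∀ u, X u → IsHodge (ev m) u ∧ X (u.map Neg.neg)) (𝓣 : Finset (Finset ℕ))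
    (h𝓣 : ∀ T ∈ 𝓣, T ⊆ relPrimes m ∧ Even T.card ∧ T.Nonempty ∧ T ∉ KnownPairs ∧
      ∃ e : Multiset (ZMod (lev T)), IsHodge (lev T) e ∧ Odd (parity T e) ∧
        X (e.map (iota (ev m / lev T)))) :
    (∀ N, 0 < N → Nat.card {a : Fin (2 * N) → ZMod m // IsHodge m (entries a)} ≤
      2 ^ (gap m - 𝓣.card) * Nat.card {a : Fin (2 * N) → ZMod m //
        IsHodge m (entries a) ∧ Generated (ev m) (With m X) ((entries a).map (up m))}) ∧
    (gap m = 𝓣.card → ∀ s, IsHodge m s → s ≠ 0 →
      Generated (ev m) (With m X) (s.map (up m))) := by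
  classical
  have hm0 : NeZero m := ⟨hm.ne'⟩
  have hM0 : NeZero (ev m) := ⟨(ev_pos hm).ne'⟩
  obtain ⟨k, hk, hred⟩ := red_PP m
  have hb : ∀ s, With m X s → (0 : ZMod (ev m)) ∉ s ∧ Even (Multiset.card s) := by
    rintro s (h | h)
    · exact base_good s h
    · exact ⟨(hX s h).1.1, (hX s h).1.2.1⟩
  have hbn : ∀ s, With m X s → With m X (s.map Neg.neg) := by
    rintro s (h | h)
    · exact Or.inl (base_neg s h)
    · exact Or.inr (hX s h).2
  have hbase : ∀ s, SurfaceOrCurveProduct (ev m) s → With m X s := fun s h => Or.inl h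
  have hmM : m ∣ ev m := Dvd.intro_left _ (ev_eq hm)
  set 𝓦 : Finset (Finset ℕ) := (KnownPairs.filter fun T => T ⊆ relPrimes m) ∪ 𝓣 with h𝓦
  have h𝓦p : ∀ T ∈ 𝓦, T ⊆ relPrimes m ∧ Even T.card ∧ T.Nonempty := by
    intro T hT
    rcases mem_union.mp hT with h | h
    · have := mem_filter.mp h
      exact ⟨this.2, known_even T this.1⟩
    · exact ⟨(h𝓣 T h).1, (h𝓣 T h).2.1, (h𝓣 T h).2.2.1⟩
  have hdisj : Disjoint (KnownPairs.filter fun T => T ⊆ relPrimes m) 𝓣 := by
    rw [Finset.disjoint_left]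
    intro T h1 h2
    exact (h𝓣 T h2).2.2.2.1 (mem_filter.mp h1).1
  have hcard𝓦 : 𝓦.card = (KnownPairs.filter fun T => T ⊆ relPrimes m).card + 𝓣.card := by
    rw [h𝓦, card_union_of_disjoint hdisj]
  set 𝓢 : Finset (Finset (relPrimes m)) := (evens (relPrimes m)).filter fun S =>
    S.map ⟨Subtype.val, Subtype.val_injective⟩ ∈ 𝓦 with h𝓢
  have h𝓢c : 𝓢.card = 𝓦.card := card_lift m 𝓦 h𝓦p
  have h𝓢e : 𝓢 ⊆ evens (relPrimes m) := filter_subset _ _
  have hav : ∀ S ∈ 𝓢, Avail (fun p : relPrimes m => nn p.1) (ev m) (With m X) S := by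
    intro S hS
    rcases mem_union.mp (mem_filter.mp hS).2 with h | h
    · exact known_avail (two_dvd_ev m) hmM hbase S (mem_filter.mp h).1
    · obtain ⟨hTm, _, _, _, e, he, hodd, hXe⟩ := h𝓣 _ h
      exact avail_bridge S rfl rfl e he hodd (cQ_sum_eq_zero (Generated.ofBase _ (Or.inr hXe)))
  have hcard : (evens (relPrimes m) \ 𝓢).card = gap m - 𝓣.card := by
    rw [card_sdiff_of_subset h𝓢e, h𝓢c, hcard𝓦, card_evens, Fintype.card_coe]
    unfold gap
    omega
  constructor
  · intro N hN
    have h1 := count_le (moduli m) hk hred (ev_eq hm) (With m X) hb hbn 𝓢 hav N hN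
    rw [hcard] at h1
    exact h1
  · intro hg s hs hne
    refine all_generated (moduli m) hk hred (ev_eq hm) (With m X) hb hbn ?_ s hs hne
    intro S hS1 hS2
    apply hav
    by_contra hS3
    have h1 : S ∈ evens (relPrimes m) \ 𝓢 :=
      mem_sdiff.mpr ⟨mem_filter.mpr ⟨mem_univ _, hS1, hS2⟩, hS3⟩
    have h2 : (evens (relPrimes m) \ 𝓢).card = 0 := by rw [hcard]; omega
    rw [card_eq_zero] at h2
    rw [h2] at h1
    simp at h1

lemma lev_pair {p q : ℕ} (hpq : p ≠ q) : lev {p, q} = nn p * nn q := by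
  unfold lev
  rw [prod_pair hpq]

/-- the class of a pair -/
theorem pair_class (p q : ℕ) (hp : p.Prime) (hq : q.Prime) (hpq : p ≠ q) :
    ∃ e : Multiset (ZMod (lev {p, q})), IsHodge (lev {p, q}) e ∧ Odd (parity {p, q} e) := by
  classical
  let T : Finset ℕ := {p, q}
  have hT : ∀ x ∈ T, x.Prime := by
    intro x hx
    rcases mem_insert.mp hx with rfl | h
    · exact hp
    · rw [mem_singleton] at h; rw [h]; exact hq
  have hne : ∀ x : T, NeZero (nn x.1) := fun x => ⟨by
    unfold nn
    split_ifs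
    · norm_num
    · exact (hT x.1 x.2).ne_zero⟩
  have hn : Moduli (fun x : T => nn x.1) := by
    constructor
    · intro x
      unfold nn
      split_ifs with h
      · exact Or.inl rfl
      · exact Or.inr ⟨hT x.1 x.2, h⟩
    · intro x y hxy
      have h3 : x.1 ≠ y.1 := fun h => hxy (Subtype.ext h)
      have h4 := (Nat.coprime_primes (hT x.1 x.2) (hT y.1 y.2)).mpr h3
      unfold nn
      split_ifs with h5 h6 h6
      · exact absurd (h5.trans h6.symm) h3
      · rw [h5] at h4
        exact Nat.Coprime.pow_left 2 h4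
      · rw [h6] at h4
        exact (Nat.Coprime.pow_right 2 h4)
      · exact h4
  have hpT : p ∈ T := mem_insert_self _ _
  have hqT : q ∈ T := mem_insert_of_mem (mem_singleton_self _)
  obtain ⟨s0, hs0, hodd⟩ := pair_exists hn (i := ⟨p, hpT⟩) (j := ⟨q, hqT⟩)
    (fun h => hpq (congrArg Subtype.val h)) (by
      rintro ⟨x, hx⟩
      rcases mem_insert.mp hx with rfl | h
      · exact Or.inl rfl
      · rw [mem_singleton] at h; subst h; exact Or.inr rfl)
  have hL : lev {p, q} = ∏ x : T, nn x.1 := (Finset.prod_coe_sort T nn).symm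
  rw [hL]
  refine ⟨s0, hs0, ?_⟩
  unfold parity
  convert hodd using 3
  constructor
  · intro h x
    exact h x.1 x.2
  · intro h x hx
    exact h ⟨x, hx⟩

/-- **One class decides.** -/
theorem main_two (p q : ℕ) (hp : p.Prime) (hq : q.Prime) (hpq : p ≠ q) :
    ∃ e : Multiset (ZMod (lev {p, q})), IsHodge (lev {p, q}) e ∧
      ∀ m, 0 < m → relPrimes m = {p, q} → ∀ s, IsHodge m s → s ≠ 0 →
        Generated (ev m) (With m fun u => u = e.map (iota (ev m / lev {p, q})) ∨
          u = (e.map (iota (ev m / lev {p, q}))).map Neg.neg) (s.map (up m)) := by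
  obtain ⟨e, he, hodd⟩ := pair_class p q hp hq hpq
  refine ⟨e, he, ?_⟩
  intro m hm hPP s hs hne
  have hM0 : NeZero (ev m) := ⟨(ev_pos hm).ne'⟩
  have hT : ∀ x ∈ ({p, q} : Finset ℕ), x.Prime := by
    intro x hx
    rcases mem_insert.mp hx with rfl | h
    · exact hp
    · rw [mem_singleton] at h; rw [h]; exact hq
  have hL0 : NeZero (lev {p, q}) := ⟨(lev_pos hT).ne'⟩
  have hLm : lev {p, q} ∣ ev m :=
    (lev_dvd m (by rw [hPP])).trans (Dvd.intro_left _ (ev_eq hm))
  have heH : IsHodge (ev m) (e.map (iota (ev m / lev {p, q}))) :=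
    he.iota (Nat.div_mul_cancel hLm)
  have hX : ∀ u : Multiset (ZMod (ev m)), (u = e.map (iota (ev m / lev {p, q})) ∨
      u = (e.map (iota (ev m / lev {p, q}))).map Neg.neg) → IsHodge (ev m) u ∧
      (u.map Neg.neg = e.map (iota (ev m / lev {p, q})) ∨
      u.map Neg.neg = (e.map (iota (ev m / lev {p, q}))).map Neg.neg) := by
    rintro u (rfl | rfl)
    · exact ⟨heH, Or.inr rfl⟩
    · refine ⟨heH.neg, Or.inl ?_⟩
      rw [Multiset.map_map]
      conv_rhs => rw [← Multiset.map_id (e.map (iota (ev m / lev {p, q})))]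
      apply Multiset.map_congr rfl
      intro b _
      simp
  have hcard : (relPrimes m).card = 2 := by rw [hPP, card_pair hpq]
  by_cases hknown : ({p, q} : Finset ℕ) ∈ KnownPairs
  · refine (main_one m hm _ hX ∅ (by simp)).2 ?_ s hs hne
    unfold gap
    have : 1 ≤ (KnownPairs.filter fun T => T ⊆ relPrimes m).card := by
      rw [Nat.one_le_iff_ne_zero, Ne, card_eq_zero, ← Ne, ← nonempty_iff_ne_empty]
      exact ⟨{p, q}, mem_filter.mpr ⟨hknown, by rw [hPP]⟩⟩
    rw [hcard, card_empty]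
    omega
  · have hle : gap m ≤ 1 := by
      unfold gap
      rw [hcard]
      have : 2 ^ (2 - 1) = 2 := by norm_num
      omega
    have h𝓣 : ∀ T ∈ ({{p, q}} : Finset (Finset ℕ)), T ⊆ relPrimes m ∧ Even T.card ∧ T.Nonempty ∧
        T ∉ KnownPairs ∧ ∃ e' : Multiset (ZMod (lev T)), IsHodge (lev T) e' ∧ Odd (parity T e') ∧
        ((e'.map (iota (ev m / lev T)) : Multiset (ZMod (ev m))) =
            e.map (iota (ev m / lev {p, q})) ∨
          (e'.map (iota (ev m / lev T)) : Multiset (ZMod (ev m))) =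
            (e.map (iota (ev m / lev {p, q}))).map Neg.neg) := by
      intro T hT'
      rw [mem_singleton] at hT'
      subst hT'
      exact ⟨by rw [hPP], by rw [card_pair hpq]; exact even_two, insert_nonempty _ _, hknown, e, he,
        hodd, Or.inl rfl⟩
    have hmain := main_one m hm _ hX {{p, q}} h𝓣
    rcases Nat.eq_zero_or_pos (gap m) with h0 | h0
    · exfalso
      unfold gap at h0
      rw [hcard] at h0
      have h1 : 1 ≤ (KnownPairs.filter fun T => T ⊆ relPrimes m).card := by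
        have : 2 ^ (2 - 1) = 2 := by norm_num
        omega
      obtain ⟨T, hT1⟩ := card_pos.mp h1
      have hT2 := mem_filter.mp hT1
      have hT3 : ∀ T ∈ KnownPairs, T.card = 2 := by decide
      have hT4 : T = {p, q} := by
        rw [hPP] at hT2
        exact eq_of_subset_of_card_le hT2.2 (by rw [card_pair hpq, hT3 T hT2.1])
      exact hknown (hT4 ▸ hT2.1)
    · exact hmain.2 (by rw [card_singleton]; omega) s hs hne

/-- the conjugates by the sign of the images in degree `ev m` of the classes `f T` -/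
def Images (m : ℕ) (f : ∀ T : Finset ℕ, Multiset (ZMod (lev T))) (u : Multiset (ZMod (ev m))) :
    Prop :=
  ∃ T ⊆ relPrimes m, Even T.card ∧ T.Nonempty ∧ T ∉ KnownPairs ∧
    (u = (f T).map (iota (ev m / lev T)) ∨ u = ((f T).map (iota (ev m / lev T))).map Neg.neg)

/-- **One class for each even set decides.** -/
theorem main_three (f : ∀ T : Finset ℕ, Multiset (ZMod (lev T))) (m : ℕ) (hm : 0 < m)
    (hf : ∀ T ⊆ relPrimes m, Even T.card → T.Nonempty → T ∉ KnownPairs →
      IsHodge (lev T) (f T) ∧ Odd (parity T (f T)))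
    (s : Multiset (ZMod m)) (hs : IsHodge m s) (hne : s ≠ 0) :
    Generated (ev m) (With m (Images m f)) (s.map (up m)) := by
  classical
  have hM0 : NeZero (ev m) := ⟨(ev_pos hm).ne'⟩
  have hX : ∀ u : Multiset (ZMod (ev m)), Images m f u → IsHodge (ev m) u ∧
      Images m f (u.map Neg.neg) := by
    rintro u ⟨T, hT, h1, h2, h3, hu⟩
    have hL0 : NeZero (lev T) := ⟨(lev_pos fun p hp => PP_prime (hT hp)).ne'⟩
    have heH : IsHodge (ev m) ((f T).map (iota (ev m / lev T))) :=
      (hf T hT h1 h2 h3).1.iota (Nat.div_mul_cancel ((lev_dvd m hT).trans (Dvd.intro_left _ (ev_eq hm))))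
    rcases hu with rfl | rfl
    · exact ⟨heH, T, hT, h1, h2, h3, Or.inr rfl⟩
    · refine ⟨heH.neg, T, hT, h1, h2, h3, Or.inl ?_⟩
      rw [Multiset.map_map]
      conv_rhs => rw [← Multiset.map_id ((f T).map (iota (ev m / lev T)))]
      apply Multiset.map_congr rfl
      intro b _
      simp
  set 𝓣 : Finset (Finset ℕ) := (relPrimes m).powerset.filter fun T =>
    Even T.card ∧ T.Nonempty ∧ T ∉ KnownPairs with h𝓣
  have h𝓣p : ∀ T ∈ 𝓣, T ⊆ relPrimes m ∧ Even T.card ∧ T.Nonempty ∧ T ∉ KnownPairs := by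
    intro T hT
    have h := mem_filter.mp hT
    exact ⟨mem_powerset.mp h.1, h.2⟩
  refine (main_one m hm (Images m f) hX 𝓣 ?_).2 ?_ s hs hne
  · intro T hT
    obtain ⟨h1, h2, h3, h4⟩ := h𝓣p T hT
    have h5 := hf T h1 h2 h3 h4
    exact ⟨h1, h2, h3, h4, f T, h5.1, h5.2, T, h1, h2, h3, h4, Or.inl rfl⟩
  · -- the number of the even sets
    set 𝓦 : Finset (Finset ℕ) := (KnownPairs.filter fun T => T ⊆ relPrimes m) ∪ 𝓣 with h𝓦
    have h𝓦p : ∀ T ∈ 𝓦, T ⊆ relPrimes m ∧ Even T.card ∧ T.Nonempty := by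
      intro T hT
      rcases mem_union.mp hT with h | h
      · have := mem_filter.mp h
        exact ⟨this.2, known_even T this.1⟩
      · exact ⟨(h𝓣p T h).1, (h𝓣p T h).2.1, (h𝓣p T h).2.2.1⟩
    have h1 := card_lift m 𝓦 h𝓦p
    have h2 : ((evens (relPrimes m)).filter fun S => S.map ⟨Subtype.val, Subtype.val_injective⟩ ∈ 𝓦) =
        evens (relPrimes m) := by
      apply filter_true_of_mem
      intro S hS
      have hS' := mem_filter.mp hS
      have hsub : S.map ⟨Subtype.val, Subtype.val_injective⟩ ⊆ relPrimes m := by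
        intro x hx
        rw [mem_map] at hx
        obtain ⟨y, _, rfl⟩ := hx
        exact y.2
      rw [h𝓦, mem_union]
      by_cases hk : S.map ⟨Subtype.val, Subtype.val_injective⟩ ∈ KnownPairs
      · exact Or.inl (mem_filter.mpr ⟨hk, hsub⟩)
      · right
        rw [h𝓣, mem_filter, mem_powerset]
        refine ⟨hsub, ?_, ?_, hk⟩
        · rw [card_map]; exact hS'.2.1
        · rw [map_nonempty]; exact hS'.2.2
    have hdisj : Disjoint (KnownPairs.filter fun T => T ⊆ relPrimes m) 𝓣 := by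
      rw [Finset.disjoint_left]
      intro T h1 h2
      exact (h𝓣p T h2).2.2.2 (mem_filter.mp h1).1
    rw [h2, card_evens, Fintype.card_coe, h𝓦, card_union_of_disjoint hdisj] at h1
    unfold gap
    omega

/-- existence of the classes for the pairs -/
theorem main_four : ∃ f : ∀ T : Finset ℕ, Multiset (ZMod (lev T)), ∀ T : Finset ℕ, T.card = 2 →
    (∀ p ∈ T, p.Prime) → IsHodge (lev T) (f T) ∧ Odd (parity T (f T)) := by
  classical
  have h : ∀ T : Finset ℕ, ∃ e : Multiset (ZMod (lev T)), T.card = 2 → (∀ p ∈ T, p.Prime) →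
      IsHodge (lev T) e ∧ Odd (parity T e) := by
    intro T
    by_cases hT : T.card = 2 ∧ ∀ p ∈ T, p.Prime
    · obtain ⟨p, q, hpq, rfl⟩ := card_eq_two.mp hT.1
      obtain ⟨e, he, hodd⟩ := pair_class p q (hT.2 p (mem_insert_self _ _))
        (hT.2 q (mem_insert_of_mem (mem_singleton_self _))) hpq
      exact ⟨e, fun _ _ => ⟨he, hodd⟩⟩
    · exact ⟨0, fun h1 h2 => absurd ⟨h1, h2⟩ hT⟩
  choose f hf using h
  exact ⟨f, hf⟩

end Pool.Agent.J4.H26
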