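import Pool.Agent.J4.H26.CountB
import Pool.Agent.Y2.Cv.Full

/-!
Odd distributions on `ZMod (∏ n i)` in product coordinates.
-/

set_option autoImplicit false

namespace Pool.Agent.J4.H26

open Finset Function Pool.Agent.H916R2

set_option linter.unusedSectionVars false

variable {ι : Type} [Fintype ι] [DecidableEq ι] {n : ι → ℕ} [∀ i, NeZero (n i)]

/-- the Chinese remainder isomorphism -/
noncomputable def crt (hn : Moduli n) : ZMod (∏ i, n i) ≃+* ∀ i, ZMod (n i) :=
  ZMod.prodEquivPi n (fun i j hij => hn.cop i j hij)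

lemma crt_natCast (hn : Moduli n) (k : ℕ) (i : ι) : crt hn (k : ZMod (∏ i, n i)) i = (k : ZMod (n i)) := by
  rw [map_natCast, Pi.natCast_apply]

instance : NeZero (∏ i, n i) := ⟨prod_ne_zero_iff.mpr fun i _ => NeZero.ne (n i)⟩

/-- the distribution in coordinates -/
noncomputable def tc (hn : Moduli n) {Q : Type*} (c : ZMod (∏ i, n i) → Q) (a : ∀ i, ZMod (n i)) : Q :=
  c ((crt hn).symm a)

lemma sum_affine {p : ℕ} [NeZero p] {Q : Type*} [AddCommMonoid Q] (f : ZMod p → Q) (a u : ZMod p)
    (hu : IsUnit u) : ∑ j ∈ range p, f (a + (j : ZMod p) * u) = ∑ z : ZMod p, f z := by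
  apply Finset.sum_bij (fun (j : ℕ) _ => a + (j : ZMod p) * u)
  · intro j _; exact mem_univ _
  · intro j hj k hk h
    have h1 : (j : ZMod p) * u = (k : ZMod p) * u := add_left_cancel h
    have h2 : (j : ZMod p) = (k : ZMod p) := hu.mul_left_injective h1
    rw [ZMod.natCast_eq_natCast_iff'] at h2
    rwa [Nat.mod_eq_of_lt (mem_range.mp hj), Nat.mod_eq_of_lt (mem_range.mp hk)] at h2
  · intro z _
    obtain ⟨v, hv⟩ := hu
    refine ⟨((z - a) * (v⁻¹ : (ZMod p)ˣ)).val, mem_range.mpr (ZMod.val_lt _), ?_⟩
    rw [ZMod.natCast_zmod_val, ← hv, mul_assoc, Units.inv_mul, mul_one]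
    ring
  · intro j _; rfl

lemma tc_cdist (hn : Moduli n) {Q : Type*} [AddCommGroup Q] {c : ZMod (∏ i, n i) → Q}
    (hc : OddDist c) : CDist (tc hn c) where
  neg := fun a => by unfold tc; rw [map_neg, hc.neg]
  zero := by unfold tc; rw [map_zero]; exact hc.half 0 (by simp)
  odd := fun i hp a => by
    set d := ∏ j ∈ univ.erase i, n j with hd
    have hpd : n i * d = ∏ i, n i := mul_prod_erase univ n (mem_univ i)
    have h1 := hc.dist (n i) d hp hpd ((crt hn).symm a)
    have hdu : IsUnit (d : ZMod (n i)) := by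
      rw [ZMod.isUnit_iff_coprime]
      apply Nat.Coprime.prod_left
      intro j hj
      exact hn.cop j i (mem_erase.mp hj).1
    have h2 : ∀ j : ℕ, (crt hn).symm a + (j : ZMod (∏ i, n i)) * (d : ZMod (∏ i, n i)) =
        (crt hn).symm (update a i (a i + (j : ZMod (n i)) * (d : ZMod (n i)))) := by
      intro j
      rw [RingEquiv.eq_symm_apply, map_add, RingEquiv.apply_symm_apply, map_mul]
      funext k
      rw [Pi.add_apply, Pi.mul_apply, crt_natCast, crt_natCast]
      by_cases h : k = i
      · subst h; rw [update_self]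
      · rw [update_of_ne h]
        have : (d : ZMod (n k)) = 0 := by
          rw [ZMod.natCast_eq_zero_iff]
          exact dvd_prod_of_mem n (mem_erase.mpr ⟨h, mem_univ k⟩)
        rw [this, mul_zero, add_zero]
    have h3 : (n i : ZMod (∏ i, n i)) * (crt hn).symm a =
        (crt hn).symm (((n i : ℕ) : ∀ i, ZMod (n i)) * a) := by
      rw [map_mul, map_natCast]
    rw [h3, sum_congr rfl fun j _ => by rw [h2 j]] at h1
    unfold tc
    rw [← h1]
    exact (sum_affine (fun z => c ((crt hn).symm (update a i z))) (a i) (d : ZMod (n i)) hdu).symm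
  four := fun i h4 a => by
    set d := ∏ j ∈ univ.erase i, n j with hd
    have hpd : n i * d = ∏ i, n i := mul_prod_erase univ n (mem_univ i)
    have hpd2 : 2 * (2 * d) = ∏ i, n i := by rw [← hpd, h4]; ring
    have h1 := hc.dist 2 (2 * d) Nat.prime_two hpd2 ((crt hn).symm a)
    have hdo : (((2 * d : ℕ) : ZMod (∏ i, n i)) : ZMod (∏ i, n i)) + (crt hn).symm a =
        (crt hn).symm (update a i (a i + 2)) := by
      rw [RingEquiv.eq_symm_apply, map_add, RingEquiv.apply_symm_apply]
      funext k
      rw [Pi.add_apply, crt_natCast]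
      by_cases h : k = i
      · subst h
        rw [update_self, add_comm]
        congr 1
        have hcop : Nat.Coprime d 4 := by
          rw [← h4]
          apply Nat.Coprime.prod_left
          intro j hj
          exact hn.cop j k (mem_erase.mp hj).1
        have hdu : IsUnit (d : ZMod (n k)) := by
          rw [ZMod.isUnit_iff_coprime, h4]; exact hcop
        push_cast
        exact four_two_mul h4 hdu
      · rw [update_of_ne h]
        have : ((2 * d : ℕ) : ZMod (n k)) = 0 := by
          rw [ZMod.natCast_eq_zero_iff]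
          exact (dvd_prod_of_mem n (mem_erase.mpr ⟨h, mem_univ k⟩)).mul_left 2
        rw [this, zero_add]
    rw [sum_range_succ, sum_range_one] at h1
    rw [Nat.cast_zero, zero_mul, add_zero, Nat.cast_one, one_mul, add_comm ((crt hn).symm a), hdo] at h1
    have h3 : ((2 : ℕ) : ZMod (∏ i, n i)) * (crt hn).symm a = (crt hn).symm (2 * a) := by
      rw [map_mul]
      congr 1
      rw [map_ofNat]; rfl
    rw [h3] at h1
    exact h1

end Pool.Agent.J4.H26
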