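import Pool.Agent.J4.H26.Flip

/-!
The number of the basis elements.
-/

set_option autoImplicit false

namespace Pool.Agent.J4.H26

open Finset Function

set_option linter.unusedSectionVars false

variable {ι : Type} [Fintype ι] [DecidableEq ι] {n : ι → ℕ} [∀ i, NeZero (n i)]

lemma nontriv (hn : Moduli n) (i : ι) : Nontrivial (ZMod (n i)) := by
  have : 1 < n i := by
    rcases hn.mod i with h | ⟨h, -⟩
    · omega
    · exact h.one_lt
  have : Fact (1 < n i) := ⟨this⟩
  infer_instance

lemma supp_unique (hn : Moduli n) {S T : Finset ι} {a : ∀ i, ZMod (n i)} (hS : a ∈ E n S)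
    (hT : a ∈ E n T) : S = T := by
  ext i
  have := nontriv hn i
  constructor
  · intro hi
    by_contra h
    have h1 := hS.1 i hi
    rw [hT.2 i h] at h1
    exact not_isUnit_zero h1
  · intro hi
    by_contra h
    have h1 := hT.1 i hi
    rw [hS.2 i h] at h1
    exact not_isUnit_zero h1

open scoped Classical in
/-- the basis elements -/
noncomputable def Base.BF (β : Base n) : Finset (∀ i, ZMod (n i)) :=
  univ.filter fun a => ∃ S, a ∈ β.B S

open scoped Classical in
/-- the elements of all `C S` -/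
noncomputable def Base.CF (β : Base n) : Finset (∀ i, ZMod (n i)) :=
  univ.filter fun a => ∃ S, a ∈ β.C S

lemma card_Uf (N : ℕ) [NeZero N] : (Uf N).card = Nat.totient N := by
  classical
  rw [← ZMod.card_units_eq_totient, ← Finset.card_univ]
  symm
  apply Finset.card_bij (fun (u : (ZMod N)ˣ) _ => (u : ZMod N))
  · intro u _
    simp [Uf]
  · intro u _ v _ h
    exact Units.ext h
  · intro z hz
    simp only [Uf, mem_filter, mem_univ, true_and] at hz
    exact ⟨hz.unit, mem_univ _, hz.unit_spec⟩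

lemma totient_prod (hn : Moduli n) (s : Finset ι) :
    Nat.totient (∏ i ∈ s, n i) = ∏ i ∈ s, Nat.totient (n i) := by
  induction s using Finset.induction_on with
  | empty => simp
  | insert i s hi ih =>
    rw [prod_insert hi, prod_insert hi, Nat.totient_mul, ih]
    apply Nat.Coprime.prod_right
    intro j hj
    exact hn.cop i j (by rintro rfl; exact hi hj)

/-- the map to the units -/
noncomputable def Base.toU (β : Base n) (a : ∀ i, ZMod (n i)) : ∀ i, ZMod (n i) := fun i =>
  if a i = 0 then -1 else a i * (β.zb (univ.filter fun j => a j ≠ 0) i)⁻¹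

lemma supp_eq (hn : Moduli n) {S : Finset ι} {a : ∀ i, ZMod (n i)} (hS : a ∈ E n S) :
    (univ.filter fun j => a j ≠ 0) = S := by
  ext i
  have := nontriv hn i
  rw [mem_filter]
  constructor
  · rintro ⟨-, h⟩
    by_contra h'
    exact h (hS.2 i h')
  · intro h
    exact ⟨mem_univ _, (hS.1 i h).ne_zero⟩

lemma card_CF (hn : Moduli n) (β : Base n) : β.CF.card ≤ Nat.totient (∏ i, n i) := by
  classical
  rw [totient_prod hn]
  have h1 : ∏ i, Nat.totient (n i) = (Fintype.piFinset fun i => Uf (n i)).card := by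
    rw [Fintype.card_piFinset]
    exact prod_congr rfl fun i _ => (card_Uf (n i)).symm
  rw [h1]
  have hval : ∀ (S : Finset ι) (a : ∀ i, ZMod (n i)), a ∈ β.C S → ∀ i,
      (i ∈ S → β.toU a i = a i * (β.zb S i)⁻¹ ∧ IsUnit (β.toU a i) ∧ β.toU a i ≠ -1) ∧
      (i ∉ S → β.toU a i = -1) := by
    intro S a ha i
    have := nontriv hn i
    constructor
    · intro hi
      have hu := ha.1.1 i hi
      have hz := (β.hz S).1 i hi
      have h2 : β.toU a i = a i * (β.zb S i)⁻¹ := by
        unfold Base.toU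
        rw [if_neg hu.ne_zero, supp_eq hn ha.1]
      have hzi : β.zb S i * (β.zb S i)⁻¹ = 1 := ZMod.mul_inv_of_unit _ hz
      have hziu : IsUnit (β.zb S i)⁻¹ := IsUnit.of_mul_eq_one _ (by rw [mul_comm]; exact hzi)
      refine ⟨h2, by rw [h2]; exact hu.mul hziu, ?_⟩
      rw [h2]
      intro h3
      apply ha.2 i hi
      calc a i = a i * (β.zb S i)⁻¹ * β.zb S i := by
            rw [mul_assoc, mul_comm (β.zb S i)⁻¹, hzi, mul_one]
        _ = _ := by rw [h3, neg_one_mul]
    · intro hi
      unfold Base.toU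
      rw [if_pos (ha.1.2 i hi)]
  apply Finset.card_le_card_of_injOn β.toU
  · intro a ha
    simp only [Base.CF, coe_filter, mem_univ, true_and, Set.mem_ofPred_eq] at ha
    obtain ⟨S, hS⟩ := ha
    rw [mem_coe, Fintype.mem_piFinset]
    intro i
    simp only [Uf, mem_filter, mem_univ, true_and]
    by_cases hi : i ∈ S
    · exact ((hval S a hS i).1 hi).2.1
    · rw [(hval S a hS i).2 hi]; exact isUnit_one.neg
  · intro a ha b hb hab
    simp only [Base.CF, coe_filter, mem_univ, true_and, Set.mem_ofPred_eq] at ha hb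
    obtain ⟨S, hS⟩ := ha
    obtain ⟨T, hT⟩ := hb
    have hST : S = T := by
      ext i
      have e := congrFun hab i
      constructor
      · intro hi
        by_contra h
        rw [(hval T b hT i).2 h] at e
        exact ((hval S a hS i).1 hi).2.2 e
      · intro hi
        by_contra h
        rw [(hval S a hS i).2 h] at e
        exact ((hval T b hT i).1 hi).2.2 e.symm
    subst hST
    funext i
    by_cases hi : i ∈ S
    · have e := congrFun hab i
      rw [((hval S a hS i).1 hi).1, ((hval S b hT i).1 hi).1] at e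
      have hz := (β.hz S).1 i hi
      have hzi : β.zb S i * (β.zb S i)⁻¹ = 1 := ZMod.mul_inv_of_unit _ hz
      calc a i = a i * (β.zb S i)⁻¹ * β.zb S i := by
            rw [mul_assoc, mul_comm (β.zb S i)⁻¹, hzi, mul_one]
        _ = b i * (β.zb S i)⁻¹ * β.zb S i := by rw [e]
        _ = b i := by rw [mul_assoc, mul_comm (β.zb S i)⁻¹, hzi, mul_one]
    · rw [hS.1.2 i hi, hT.1.2 i hi]

open scoped symmDiff

lemma zb_mem_C (hn : Moduli n) (β : Base n) (S : Finset ι) : β.zb S ∈ β.C S :=
  ⟨β.hz S, fun i hi => ne_neg_of_unit (hn.mod i) ((β.hz S).1 i hi)⟩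

open scoped Classical in
/-- the involution -/
noncomputable def Base.inv (β : Base n) (i0 : ι) (a : ∀ i, ZMod (n i)) : ∀ i, ZMod (n i) :=
  let S := univ.filter fun j => a j ≠ 0
  if a = β.zb S then β.zb (S ∆ {i0}) else tau (β.zb S) a

lemma odd_symmDiff (S : Finset ι) (i0 : ι) (h : Odd S.card) : ¬ Odd (S ∆ {i0}).card := by
  rw [Nat.not_odd_iff_even]
  by_cases hi : i0 ∈ S
  · have : S ∆ {i0} = S.erase i0 := by
      ext j
      simp only [Finset.mem_symmDiff, mem_singleton, mem_erase]
      constructor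
      · rintro (⟨h1, h2⟩ | ⟨rfl, h2⟩)
        · exact ⟨h2, h1⟩
        · exact absurd hi h2
      · rintro ⟨h1, h2⟩
        exact Or.inl ⟨h2, h1⟩
    rw [this, card_erase_of_mem hi]
    obtain ⟨k, hk⟩ := h
    exact ⟨k, by omega⟩
  · have : S ∆ {i0} = insert i0 S := by
      ext j
      simp only [Finset.mem_symmDiff, mem_singleton, mem_insert]
      constructor
      · rintro (⟨h1, h2⟩ | ⟨rfl, h2⟩)
        · exact Or.inr h1
        · exact Or.inl rfl
      · rintro (rfl | h1)
        · exact Or.inr ⟨rfl, hi⟩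
        · exact Or.inl ⟨h1, by rintro rfl; exact hi h1⟩
    rw [this, card_insert_of_notMem hi]
    exact h.add_one

theorem card_BF (hn : Moduli n) (β : Base n) (i0 : ι) :
    2 * β.BF.card ≤ Nat.totient (∏ i, n i) := by
  classical
  refine le_trans ?_ (card_CF hn β)
  have hBC : ∀ S, β.B S ⊆ β.C S := fun S a ha => ha.1
  have hinv1 : ∀ S, Odd S.card → β.inv i0 (β.zb S) = β.zb (S ∆ {i0}) := by
    intro S _
    unfold Base.inv
    rw [supp_eq hn (β.hz S), if_pos rfl]
  have hinv2 : ∀ S a, a ∈ β.C S → a ≠ β.zb S → β.inv i0 a = tau (β.zb S) a := by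
    intro S a ha hne
    unfold Base.inv
    rw [supp_eq hn ha.1, if_neg hne]
  have hmem : ∀ a ∈ β.BF, β.inv i0 a ∈ β.CF \ β.BF := by
    intro a ha
    simp only [Base.BF, mem_filter, mem_univ, true_and] at ha
    obtain ⟨S, hS⟩ := ha
    rw [mem_sdiff]
    rcases hS.2 with ⟨h1, h2⟩ | ⟨h1, h2⟩
    · rw [h1, hinv1 S h2]
      refine ⟨by simp only [Base.CF, mem_filter, mem_univ, true_and]; exact ⟨_, zb_mem_C hn β _⟩, ?_⟩
      simp only [Base.BF, mem_filter, mem_univ, true_and, not_exists]
      intro T hT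
      have hTS : T = S ∆ {i0} := supp_unique hn hT.1.1 (β.hz _)
      subst hTS
      rcases hT.2 with ⟨_, h4⟩ | ⟨h3, _⟩
      · exact odd_symmDiff S i0 h2 h4
      · exact h3 rfl
    · rw [hinv2 S a hS.1 h1]
      have hC := tau_mem_C hn hS.1
      refine ⟨by simp only [Base.CF, mem_filter, mem_univ, true_and]; exact ⟨_, hC⟩, ?_⟩
      simp only [Base.BF, mem_filter, mem_univ, true_and, not_exists]
      intro T hT
      have hTS : T = S := supp_unique hn hT.1.1 hC.1
      subst hTS
      rcases hT.2 with ⟨h3, _⟩ | ⟨_, h4⟩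
      · exact (tau_ne hn hS.1 h1).2 h3
      · rw [tau_tau hS.1] at h4
        omega
  have hinj : Set.InjOn (β.inv i0) β.BF := by
    intro a ha b hb hab
    simp only [Base.BF, coe_filter, mem_univ, true_and, Set.mem_ofPred_eq] at ha hb
    obtain ⟨S, hS⟩ := ha
    obtain ⟨T, hT⟩ := hb
    rcases hS.2 with ⟨h1, h2⟩ | ⟨h1, h2⟩ <;> rcases hT.2 with ⟨h3, h4⟩ | ⟨h3, h4⟩
    · rw [h1, h3, hinv1 S h2, hinv1 T h4] at hab
      have h5 : S ∆ {i0} = T ∆ {i0} := supp_unique hn (β.hz _) (by rw [hab]; exact β.hz _)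
      have h6 : S = T := symmDiff_left_injective _ h5
      rw [h1, h3, h6]
    · exfalso
      rw [h1, hinv1 S h2, hinv2 T b hT.1 h3] at hab
      have hC := tau_mem_C hn hT.1
      have h5 : S ∆ {i0} = T := supp_unique hn (β.hz _) (by rw [hab]; exact hC.1)
      rw [h5] at hab
      exact (tau_ne hn hT.1 h3).2 hab.symm
    · exfalso
      rw [h3, hinv1 T h4, hinv2 S a hS.1 h1] at hab
      have hC := tau_mem_C hn hS.1
      have h5 : T ∆ {i0} = S := supp_unique hn (β.hz _) (by rw [← hab]; exact hC.1)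
      rw [h5] at hab
      exact (tau_ne hn hS.1 h1).2 hab
    · rw [hinv2 S a hS.1 h1, hinv2 T b hT.1 h3] at hab
      have h5 : S = T := supp_unique hn (tau_mem_C hn hS.1).1 (by rw [hab]; exact (tau_mem_C hn hT.1).1)
      subst h5
      rw [← tau_tau hS.1, hab, tau_tau hT.1]
  have hBFCF : β.BF ⊆ β.CF := by
    intro a ha
    simp only [Base.BF, Base.CF, mem_filter, mem_univ, true_and] at ha ⊢
    obtain ⟨S, hS⟩ := ha
    exact ⟨S, hS.1⟩
  have h1 : β.BF.card ≤ (β.CF \ β.BF).card :=
    Finset.card_le_card_of_injOn _ (fun a ha => hmem a ha) hinj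
  rw [card_sdiff_of_subset hBFCF] at h1
  have := card_le_card hBFCF
  omega

end Pool.Agent.J4.H26
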