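import Pool.Agent.J4.H26.Main
import Pool.Agent.Y2.Cv.Families

/-!
The levels defined by a degree.
-/

set_option autoImplicit false

namespace Pool.Agent.J4.H26

open Finset Function Pool.Agent.H916R2

set_option linter.unusedSectionVars false

/-- The relevant primes of the degree `m`: the odd primes which divide `m`, and `2` if `4 ∣ m`. -/
def relPrimes (m : ℕ) : Finset ℕ := m.primeFactors.filter fun p => p ≠ 2 ∨ 4 ∣ m

/-- `4` for the prime two and `p` for the odd prime `p`. -/
def nn (p : ℕ) : ℕ := if p = 2 then 4 else p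

/-- The level of a set `S` of primes: the product of its odd members, times four if `2 ∈ S`. -/
def lev (S : Finset ℕ) : ℕ := ∏ p ∈ S, nn p

lemma PP_prime {m p : ℕ} (h : p ∈ relPrimes m) : p.Prime := Nat.prime_of_mem_primeFactors (mem_filter.mp h).1

instance (m : ℕ) (p : relPrimes m) : NeZero (nn p.1) := ⟨by
  unfold nn
  split_ifs
  · norm_num
  · exact (PP_prime p.2).ne_zero⟩

lemma moduli (m : ℕ) : Moduli (fun p : relPrimes m => nn p.1) where
  mod := fun p => by
    unfold nn
    split_ifs with h
    · exact Or.inl rfl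
    · exact Or.inr ⟨PP_prime p.2, h⟩
  cop := fun p q hpq => by
    have h1 := PP_prime p.2
    have h2 := PP_prime q.2
    have h3 : p.1 ≠ q.1 := fun h => hpq (Subtype.ext h)
    have h4 := (Nat.coprime_primes h1 h2).mpr h3
    unfold nn
    split_ifs with h5 h6 h6
    · exact absurd (h5.trans h6.symm) h3
    · rw [h5] at h4
      exact Nat.Coprime.pow_left 2 h4
    · rw [h6] at h4
      exact (Nat.Coprime.pow_right 2 h4)
    · exact h4

lemma lev_pos {S : Finset ℕ} (h : ∀ p ∈ S, p.Prime) : 0 < lev S := by
  apply prod_pos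
  intro p hp
  unfold nn
  split_ifs
  · norm_num
  · exact (h p hp).pos

lemma prod_PP (m : ℕ) : ∏ p : relPrimes m, nn p.1 = lev (relPrimes m) := Finset.prod_coe_sort (relPrimes m) nn

lemma nn_dvd {m p : ℕ} (h : p ∈ relPrimes m) : nn p ∣ m := by
  unfold nn
  have := mem_filter.mp h
  split_ifs with h2
  · exact this.2.resolve_left (by simp [h2])
  · exact Nat.dvd_of_mem_primeFactors this.1

lemma lev_dvd (m : ℕ) {S : Finset ℕ} (hS : S ⊆ relPrimes m) : lev S ∣ m := by
  unfold lev
  apply Finset.prod_dvd_of_isRelPrime
  · intro p hp q hq hpq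
    rw [Function.onFun, ← Nat.coprime_iff_isRelPrime]
    exact (moduli m).cop ⟨p, hS hp⟩ ⟨q, hS hq⟩ (fun h => hpq (congrArg Subtype.val h))
  · intro p hp
    exact nn_dvd (hS hp)

/-- the reduction of the degree -/
theorem red_PP (m : ℕ) [NeZero m] :
    ∃ k, k * ∏ p : relPrimes m, nn p.1 = m ∧ Red m (∏ p : relPrimes m, nn p.1) k := by
  have hm : m ≠ 0 := NeZero.ne m
  have hd : ∏ p : relPrimes m, nn p.1 ∣ m := by
    rw [prod_PP]; exact lev_dvd m (Subset.refl _)
  by_cases h2 : 2 ∣ m ∧ ¬ 4 ∣ m
  · -- the degree is twice an odd number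
    have hodd : Odd (∏ p : relPrimes m, nn p.1) := by
      rw [prod_PP]
      unfold lev
      apply Finset.prod_induction _ (fun x => Odd x)
      · intro a b ha hb; exact ha.mul hb
      · exact odd_one
      · intro p hp
        have h3 : p ≠ 2 := (mem_filter.mp hp).2.resolve_right h2.2
        unfold nn
        rw [if_neg h3]
        exact (PP_prime hp).odd_of_ne_two h3
    have h2m : 2 * ∏ p : relPrimes m, nn p.1 ∣ m := by
      apply Nat.Coprime.mul_dvd_of_dvd_of_dvd _ h2.1 hd
      rw [Nat.coprime_two_left]
      exact hodd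
    obtain ⟨k, hk⟩ := h2m
    have hne : NeZero (2 * ∏ p : relPrimes m, nn p.1) := ⟨by
      have := NeZero.ne (∏ p : relPrimes m, nn p.1)
      positivity⟩
    have hk' : k * (2 * ∏ p : relPrimes m, nn p.1) = m := by rw [mul_comm]; exact hk.symm
    have hr1 : Red m (2 * ∏ p : relPrimes m, nn p.1) k := by
      apply red_exists _ _ _ _ rfl hk'
      · intro p hp hpm
        by_cases hp2 : p = 2
        · rw [hp2]; exact dvd_mul_right _ _
        · have hpP : p ∈ relPrimes m := mem_filter.mpr ⟨Nat.mem_primeFactors.mpr ⟨hp, hpm, hm⟩, Or.inl hp2⟩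
          have h5 : nn p ∣ ∏ p : relPrimes m, nn p.1 :=
            dvd_prod_of_mem (fun p : relPrimes m => nn p.1) (mem_univ (⟨p, hpP⟩ : relPrimes m))
          unfold nn at h5
          rw [if_neg hp2] at h5
          exact h5.mul_left 2
      · intro h4; exact absurd h4 h2.2
    have hr2 := red_two hodd
    have := Red.trans hk' hr1 hr2
    exact ⟨k * 2, by rw [mul_assoc]; exact hk', this⟩
  · obtain ⟨k, hk⟩ := hd
    have hk' : k * ∏ p : relPrimes m, nn p.1 = m := by rw [mul_comm]; exact hk.symm
    refine ⟨k, hk', ?_⟩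
    apply red_exists _ _ _ _ rfl hk'
    · intro p hp hpm
      have hpP : p ∈ relPrimes m := by
        refine mem_filter.mpr ⟨Nat.mem_primeFactors.mpr ⟨hp, hpm, hm⟩, ?_⟩
        by_cases hp2 : p = 2
        · right
          by_contra h4
          exact h2 ⟨hp2 ▸ hpm, h4⟩
        · exact Or.inl hp2
      have h5 : nn p ∣ ∏ p : relPrimes m, nn p.1 :=
        dvd_prod_of_mem (fun p : relPrimes m => nn p.1) (mem_univ (⟨p, hpP⟩ : relPrimes m))
      refine dvd_trans ?_ h5
      unfold nn
      split_ifs with hp2
      · rw [hp2]; norm_num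
      · exact dvd_rfl
    · intro h4
      have hpP : 2 ∈ relPrimes m := by
        refine mem_filter.mpr ⟨Nat.mem_primeFactors.mpr ⟨Nat.prime_two, dvd_trans (by norm_num) h4,
          hm⟩, Or.inr h4⟩
      have h5 : nn 2 ∣ ∏ p : relPrimes m, nn p.1 :=
        dvd_prod_of_mem (fun p : relPrimes m => nn p.1) (mem_univ (⟨2, hpP⟩ : relPrimes m))
      exact h5

/-- the number of even nonempty subsets -/
lemma card_evens (ι : Type) [Fintype ι] [DecidableEq ι] :
    (evens ι).card = 2 ^ (Fintype.card ι - 1) - 1 := by
  rcases isEmpty_or_nonempty ι with hι | hι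
  · have h1 : evens ι = ∅ := by
      unfold evens
      rw [filter_eq_empty_iff]
      rintro S - ⟨_, ⟨i, _⟩⟩
      exact hι.elim i
    rw [h1]; simp
  · have hE : (univ.filter fun S : Finset ι => Even S.card).card = (evens ι).card + 1 := by
      have : (univ.filter fun S : Finset ι => Even S.card) = insert ∅ (evens ι) := by
        ext S
        simp only [evens, mem_filter, mem_univ, true_and, mem_insert]
        constructor
        · intro h
          rcases S.eq_empty_or_nonempty with h1 | h1
          · exact Or.inl h1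
          · exact Or.inr ⟨h, h1⟩
        · rintro (rfl | h)
          · simp
          · exact h.1
      rw [this, card_insert_of_notMem]
      simp [evens]
    have h1 : (univ.filter fun S : Finset ι => Even S.card).card +
        (univ.filter fun S : Finset ι => ¬ Even S.card).card = 2 ^ Fintype.card ι := by
      rw [card_filter_add_card_filter_not]
      simp
    have h2 : ((univ.filter fun S : Finset ι => Even S.card).card : ℤ) -
        ((univ.filter fun S : Finset ι => ¬ Even S.card).card : ℤ) = 0 := by
      have h3 : ∑ S : Finset ι, (-1 : ℤ) ^ S.card = 0 := by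
        have := Finset.sum_powerset_neg_one_pow_card (x := (univ : Finset ι))
        rw [if_neg univ_nonempty.ne_empty, powerset_univ] at this
        exact this
      rw [← h3, ← sum_filter_add_sum_filter_not univ (fun S : Finset ι => Even S.card)]
      have h4 : ∑ S ∈ univ.filter (fun S : Finset ι => Even S.card), (-1 : ℤ) ^ S.card =
          ((univ.filter fun S : Finset ι => Even S.card).card : ℤ) := by
        rw [sum_congr rfl fun S hS => (mem_filter.mp hS).2.neg_one_pow]; simp
      have h5 : ∑ S ∈ univ.filter (fun S : Finset ι => ¬ Even S.card), (-1 : ℤ) ^ S.card =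
          -((univ.filter fun S : Finset ι => ¬ Even S.card).card : ℤ) := by
        rw [sum_congr rfl fun S hS =>
          (Nat.not_even_iff_odd.mp (mem_filter.mp hS).2).neg_one_pow]; simp
      rw [h4, h5]; ring
    have h6 : 2 ^ Fintype.card ι = 2 * 2 ^ (Fintype.card ι - 1) := by
      rw [← pow_succ']
      congr 1
      have := Fintype.card_pos (α := ι)
      omega
    omega

end Pool.Agent.J4.H26
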