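import Mathlib

/-!
Odd distributions in product coordinates: generation by half systems (one level `S`).
-/

set_option autoImplicit false

namespace Pool.Agent.J4.H26

open Finset Function

set_option linter.unusedSectionVars false

open scoped Classical in
/-- the units of `ZMod N` -/
noncomputable def Uf (N : ℕ) [NeZero N] : Finset (ZMod N) := univ.filter IsUnit

lemma four_two_mul {N : ℕ} (hN : N = 4) {u : ZMod N} (hu : IsUnit u) : 2 * u = 2 := by
  subst hN
  revert hu u
  decide

lemma four_cases {N : ℕ} [NeZero N] (hN : N = 4) : Uf N = {1, 3} := by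
  subst hN
  ext z
  simp only [Uf, mem_filter, mem_univ, true_and, mem_insert, mem_singleton]
  revert z
  decide

lemma four_nonunit {N : ℕ} (hN : N = 4) {u : ZMod N} (hu : ¬ IsUnit u) : u = 0 ∨ u = 2 := by
  subst hN
  revert hu u
  decide

lemma four_one_ne_three {N : ℕ} (hN : N = 4) : (1 : ZMod N) ≠ 3 := by
  subst hN; decide

lemma ne_neg_of_unit {N : ℕ} (hN : N = 4 ∨ (N.Prime ∧ N ≠ 2)) {u : ZMod N} (hu : IsUnit u) :
    u ≠ -u := by
  intro h
  have h2 : (2 : ZMod N) * u = 0 := by linear_combination h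
  rcases hN with h4 | ⟨hp, h2'⟩
  · rw [four_two_mul h4 hu] at h2
    subst h4
    revert h2; decide
  · rw [hu.mul_left_eq_zero] at h2
    have h3 : ((2 : ℕ) : ZMod N) = 0 := by exact_mod_cast h2
    rw [ZMod.natCast_eq_zero_iff] at h3
    exact h2' ((Nat.prime_dvd_prime_iff_eq hp Nat.prime_two).mp h3)

variable {ι : Type} [Fintype ι] [DecidableEq ι] {n : ι → ℕ} [∀ i, NeZero (n i)]

/-- the moduli: four and different odd primes -/
structure Moduli (n : ι → ℕ) : Prop where
  mod : ∀ i, n i = 4 ∨ ((n i).Prime ∧ n i ≠ 2)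
  cop : ∀ i j, i ≠ j → Nat.Coprime (n i) (n j)

/-- odd distributions in coordinates -/
structure CDist {Q : Type*} [AddCommGroup Q] (c : (∀ i, ZMod (n i)) → Q) : Prop where
  neg : ∀ a, c (-a) = - c a
  zero : c 0 = 0
  odd : ∀ i, (n i).Prime → ∀ a,
    ∑ z : ZMod (n i), c (update a i z) = c (((n i : ℕ) : ∀ i, ZMod (n i)) * a)
  four : ∀ i, n i = 4 → ∀ a, c a + c (update a i (a i + 2)) = c (2 * a)

/-- the pure elements with support `S` -/
def E (n : ι → ℕ) (S : Finset ι) : Set (∀ i, ZMod (n i)) :=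
  {a | (∀ i ∈ S, IsUnit (a i)) ∧ ∀ i, i ∉ S → a i = 0}

variable {Q : Type*} [AddCommGroup Q] {c : (∀ i, ZMod (n i)) → Q}

lemma update_mem_E {S : Finset ι} {a : ∀ i, ZMod (n i)} (ha : a ∈ E n S) {i : ι} (hi : i ∈ S)
    {z : ZMod (n i)} (hz : IsUnit z) : update a i z ∈ E n S := by
  refine ⟨?_, ?_⟩
  · intro j hj
    by_cases h : j = i
    · subst h; rw [update_self]; exact hz
    · rw [update_of_ne h]; exact ha.1 j hj
  · intro j hj
    have h : j ≠ i := by rintro rfl; exact hj hi
    rw [update_of_ne h]; exact ha.2 j hj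

lemma update_zero_mem_E {S : Finset ι} {a : ∀ i, ZMod (n i)} (ha : a ∈ E n S) {i : ι} :
    update a i 0 ∈ E n (S.erase i) := by
  refine ⟨?_, ?_⟩
  · intro j hj
    have h : j ≠ i := (mem_erase.mp hj).1
    rw [update_of_ne h]; exact ha.1 j (mem_erase.mp hj).2
  · intro j hj
    by_cases h : j = i
    · subst h; rw [update_self]
    · rw [update_of_ne h]
      exact ha.2 j (fun h' => hj (mem_erase.mpr ⟨h, h'⟩))

lemma mul_mem_E {S : Finset ι} {a : ∀ i, ZMod (n i)} (ha : a ∈ E n S) {u : ∀ i, ZMod (n i)}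
    (hu : ∀ i ∈ S, IsUnit (u i)) : u * a ∈ E n S := by
  refine ⟨?_, ?_⟩
  · intro j hj
    rw [Pi.mul_apply]
    exact (hu j hj).mul (ha.1 j hj)
  · intro j hj
    rw [Pi.mul_apply, ha.2 j hj, mul_zero]

lemma neg_mem_E {S : Finset ι} {a : ∀ i, ZMod (n i)} (ha : a ∈ E n S) : -a ∈ E n S := by
  refine ⟨?_, ?_⟩
  · intro j hj
    rw [Pi.neg_apply]; exact (ha.1 j hj).neg
  · intro j hj
    rw [Pi.neg_apply, ha.2 j hj, neg_zero]

lemma two_unit (hn : Moduli n) {i j : ι} (hi : n i = 4) (hij : j ≠ i) : IsUnit (2 : ZMod (n j)) := by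
  have h1 : Nat.Coprime 2 (n j) := by
    have := hn.cop j i hij
    rw [hi] at this
    exact (Nat.Coprime.coprime_dvd_right (by norm_num) this).symm
  have := (ZMod.isUnit_iff_coprime 2 (n j)).mpr h1
  exact_mod_cast this

lemma prime_unit (hn : Moduli n) {i j : ι} (hij : j ≠ i) : IsUnit ((n i : ℕ) : ZMod (n j)) :=
  (ZMod.isUnit_iff_coprime _ _).mpr (hn.cop i j (Ne.symm hij))

/-- the sum over the units in one coordinate is of lower level -/
lemma sum_units (hn : Moduli n) (hc : CDist c) {S : Finset ι} {a : ∀ i, ZMod (n i)}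
    (ha : a ∈ E n S) {i : ι} (hi : i ∈ S) (W : AddSubgroup Q)
    (hW : ∀ b ∈ E n (S.erase i), c b ∈ W) : ∑ z ∈ Uf (n i), c (update a i z) ∈ W := by
  rcases hn.mod i with h4 | ⟨hp, h2⟩
  · have hx : update a i 0 ∈ E n (S.erase i) := update_zero_mem_E ha
    have h2x : (2 : ∀ i, ZMod (n i)) * update a i 0 ∈ E n (S.erase i) := by
      refine ⟨?_, ?_⟩
      · intro j hj
        have hj' := mem_erase.mp hj
        rw [Pi.mul_apply]
        exact (two_unit hn h4 hj'.1).mul (hx.1 j hj)
      · intro j hj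
        rw [Pi.mul_apply, hx.2 j hj, mul_zero]
    have h4x : (2 : ∀ i, ZMod (n i)) * (2 * update a i 0) ∈ E n (S.erase i) := by
      refine ⟨?_, ?_⟩
      · intro j hj
        have hj' := mem_erase.mp hj
        rw [Pi.mul_apply]
        exact (two_unit hn h4 hj'.1).mul (h2x.1 j hj)
      · intro j hj
        rw [Pi.mul_apply, h2x.2 j hj, mul_zero]
    have e1 := hc.four i h4 (update a i 1)
    have e2 := hc.four i h4 (2 * update a i 0)
    have e3 : update (update a i 1) i ((update a i 1) i + 2) = update a i 3 := by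
      rw [update_idem, update_self]
      congr 1
      norm_num
    have e4 : update ((2 : ∀ i, ZMod (n i)) * update a i 0) i
        (((2 : ∀ i, ZMod (n i)) * update a i 0) i + 2) = 2 * update a i 1 := by
      funext j
      by_cases h : j = i
      · subst h
        rw [update_self, Pi.mul_apply, Pi.mul_apply, update_self, update_self]
        simp
      · rw [update_of_ne h, Pi.mul_apply, Pi.mul_apply, update_of_ne h, update_of_ne h]
    rw [e3] at e1
    rw [e4] at e2
    have hsum : ∑ z ∈ Uf (n i), c (update a i z) = c (update a i 1) + c (update a i 3) := by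
      rw [four_cases h4, sum_pair (four_one_ne_three h4)]
    rw [hsum, e1, eq_sub_of_add_eq' e2]
    exact W.sub_mem (hW _ h4x) (hW _ h2x)
  · have hsplit : ∑ z : ZMod (n i), c (update a i z) =
        c (update a i 0) + ∑ z ∈ Uf (n i), c (update a i z) := by
      have : Fact (n i).Prime := ⟨hp⟩
      have hU : Uf (n i) = univ.erase (0 : ZMod (n i)) := by
        ext z
        simp only [Uf, mem_filter, mem_univ, true_and, mem_erase, and_true]
        exact isUnit_iff_ne_zero
      rw [hU, add_sum_erase univ (fun z => c (update a i z)) (mem_univ _)]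
    have h1 := hc.odd i hp a
    rw [hsplit] at h1
    rw [eq_sub_of_add_eq' h1]
    apply W.sub_mem
    · apply hW
      refine ⟨?_, ?_⟩
      · intro j hj
        have hj' := mem_erase.mp hj
        rw [Pi.mul_apply, Pi.natCast_apply]
        exact (prime_unit hn hj'.1).mul (ha.1 j hj'.2)
      · intro j hj
        rw [Pi.mul_apply, Pi.natCast_apply]
        by_cases h : j = i
        · subst h; simp
        · rw [ha.2 j (fun h' => hj (mem_erase.mpr ⟨h, h'⟩)), mul_zero]
    · exact hW _ (update_zero_mem_E ha)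

/-- every value is a combination of values at pure elements with the same support -/
lemma mem_pure (hn : Moduli n) (hc : CDist c) (S : Finset ι) (a : ∀ i, ZMod (n i))
    (hS : ∀ i, i ∈ S ↔ IsUnit (a i)) (W : AddSubgroup Q) (hW : ∀ b ∈ E n S, c b ∈ W) :
    c a ∈ W := by
  by_cases hp : ∀ i, i ∉ S → a i = 0
  · exact hW a ⟨fun i hi => (hS i).mp hi, hp⟩
  · push Not at hp
    obtain ⟨i, hi, hai⟩ := hp
    have hnu : ¬ IsUnit (a i) := fun h => hi ((hS i).mpr h)
    have h4 : n i = 4 := by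
      rcases hn.mod i with h4 | ⟨hpr, -⟩
      · exact h4
      · have : Fact (n i).Prime := ⟨hpr⟩
        exact absurd (isUnit_iff_ne_zero.mpr hai) hnu
    have ha2 : a i = 2 := (four_nonunit h4 hnu).resolve_left hai
    have hx : update a i 0 ∈ E n S := by
      refine ⟨?_, ?_⟩
      · intro j hj
        have h : j ≠ i := by rintro rfl; exact hi hj
        rw [update_of_ne h]; exact (hS j).mp hj
      · intro j hj
        by_cases h : j = i
        · subst h; rw [update_self]
        · rw [update_of_ne h]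
          by_contra h0
          have hnu' : ¬ IsUnit (a j) := fun h => hj ((hS j).mpr h)
          rcases hn.mod j with h4' | ⟨hpr, -⟩
          · have := hn.cop i j (Ne.symm h)
            rw [h4, h4'] at this
            norm_num at this
          · have : Fact (n j).Prime := ⟨hpr⟩
            exact hnu' (isUnit_iff_ne_zero.mpr h0)
    have h2x : (2 : ∀ i, ZMod (n i)) * update a i 0 ∈ E n S := by
      refine ⟨?_, ?_⟩
      · intro j hj
        have h : j ≠ i := by rintro rfl; exact hi hj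
        rw [Pi.mul_apply]
        exact (two_unit hn h4 h).mul (hx.1 j hj)
      · intro j hj
        rw [Pi.mul_apply, hx.2 j hj, mul_zero]
    have e1 := hc.four i h4 (update a i 0)
    have e3 : update (update a i 0) i ((update a i 0) i + 2) = a := by
      rw [update_idem, update_self, zero_add, ← ha2, update_eq_self]
    rw [e3] at e1
    rw [eq_sub_of_add_eq' e1]
    exact W.sub_mem (hW _ h2x) (hW _ hx)

/-- flipping the sign in one coordinate -/
def flip (i : ι) (a : ∀ i, ZMod (n i)) : ∀ i, ZMod (n i) := update a i (-(a i))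

/-- the coordinates in `S` in which `a` is `± z` -/
def TT (S : Finset ι) (z a : ∀ i, ZMod (n i)) : Finset ι :=
  S.filter fun i => a i = z i ∨ a i = -(z i)

lemma mem_TT {S : Finset ι} {z a : ∀ i, ZMod (n i)} {i : ι} :
    i ∈ TT S z a ↔ i ∈ S ∧ (a i = z i ∨ a i = -(z i)) := by
  unfold TT; rw [mem_filter]

lemma TT_flip {S : Finset ι} {z a : ∀ i, ZMod (n i)} {i : ι} :
    TT S z (flip i a) = TT S z a := by
  ext j
  rw [mem_TT, mem_TT]
  by_cases h : j = i
  · subst h
    unfold flip
    rw [update_self]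
    constructor
    · rintro ⟨h1, h2 | h2⟩
      · exact ⟨h1, Or.inr (by rw [← h2, neg_neg])⟩
      · exact ⟨h1, Or.inl (neg_inj.mp h2)⟩
    · rintro ⟨h1, h2 | h2⟩
      · exact ⟨h1, Or.inr (by rw [h2])⟩
      · exact ⟨h1, Or.inl (by rw [h2, neg_neg])⟩
  · unfold flip
    rw [update_of_ne h]

lemma flip_mem_E {S : Finset ι} {a : ∀ i, ZMod (n i)} (ha : a ∈ E n S) {i : ι} (hi : i ∈ S) :
    flip i a ∈ E n S := update_mem_E ha hi (ha.1 i hi).neg

/-- if the values at the elements with fewer coordinates `± z` are in `W`, flipping a coordinate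
`± z` changes the sign modulo `W` -/
lemma flip_one (hn : Moduli n) (hc : CDist c) {S : Finset ι} {z : ∀ i, ZMod (n i)} (W : AddSubgroup Q) (hW : ∀ i ∈ S, ∀ b ∈ E n (S.erase i), c b ∈ W) (k : ℕ)
    (hk : ∀ b ∈ E n S, (TT S z b).card < k → c b ∈ W) {a : ∀ i, ZMod (n i)} (ha : a ∈ E n S)
    (hak : (TT S z a).card ≤ k) {i : ι} (hi : i ∈ TT S z a) : c (flip i a) + c a ∈ W := by
  have hiS : i ∈ S := (mem_TT.mp hi).1
  have h1 := sum_units hn hc ha hiS W (hW i hiS)
  have hau : IsUnit (a i) := ha.1 i hiS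
  have hmem1 : a i ∈ Uf (n i) := by simp [Uf, hau]
  have hmem2 : -(a i) ∈ (Uf (n i)).erase (a i) := by
    rw [mem_erase]
    exact ⟨(ne_neg_of_unit (hn.mod i) hau).symm, by simp [Uf, hau.neg]⟩
  rw [← add_sum_erase _ _ hmem1, ← add_sum_erase _ _ hmem2, update_eq_self] at h1
  have h2 : ∑ x ∈ ((Uf (n i)).erase (a i)).erase (-(a i)), c (update a i x) ∈ W := by
    apply W.sum_mem
    intro x hx
    have hx1 := mem_erase.mp hx
    have hx2 := mem_erase.mp hx1.2
    have hxu : IsUnit x := by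
      have := hx2.2
      simp only [Uf, mem_filter, mem_univ, true_and] at this
      exact this
    apply hk _ (update_mem_E ha hiS hxu)
    have hsub : TT S z (update a i x) ⊂ TT S z a := by
      rw [ssubset_iff_of_subset]
      · refine ⟨i, hi, ?_⟩
        rw [mem_TT, update_self]
        rintro ⟨-, h⟩
        rcases (mem_TT.mp hi).2 with h' | h'
        · rcases h with h | h
          · exact hx2.1 (by rw [h, h'])
          · exact hx1.1 (by rw [h, h'])
        · rcases h with h | h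
          · exact hx1.1 (by rw [h, h', neg_neg])
          · exact hx2.1 (by rw [h, h'])
      · intro j hj
        have hj' := mem_TT.mp hj
        by_cases h : j = i
        · subst h; exact hi
        · rw [update_of_ne h] at hj'
          exact mem_TT.mpr hj'
    exact lt_of_lt_of_le (card_lt_card hsub) hak
  have h3 := W.sub_mem h1 h2
  have h4 : c (flip i a) + c a = c a + (c (update a i (-(a i))) +
      ∑ x ∈ ((Uf (n i)).erase (a i)).erase (-(a i)), c (update a i x)) -
      ∑ x ∈ ((Uf (n i)).erase (a i)).erase (-(a i)), c (update a i x) := by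
    unfold flip; abel
  rw [h4]; exact h3

/-- make all coordinates in `F` equal to `z` -/
def put (F : Finset ι) (z a : ∀ i, ZMod (n i)) : ∀ i, ZMod (n i) := fun i => if i ∈ F then z i else a i

lemma put_sign (hn : Moduli n) (hc : CDist c) {S : Finset ι} {z : ∀ i, ZMod (n i)} (W : AddSubgroup Q) (hW : ∀ i ∈ S, ∀ b ∈ E n (S.erase i), c b ∈ W) (k : ℕ)
    (hk : ∀ b ∈ E n S, (TT S z b).card < k → c b ∈ W) {a : ∀ i, ZMod (n i)} (ha : a ∈ E n S)
    (hak : (TT S z a).card ≤ k) : ∀ F ⊆ TT S z a, put F z a ∈ E n S ∧ TT S z (put F z a) = TT S z a ∧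
      (c (put F z a) - (-1 : ℤ) ^ (F.filter fun i => a i ≠ z i).card • c a ∈ W) := by
  intro F
  induction F using Finset.induction_on with
  | empty =>
    intro _
    have : put ∅ z a = a := by funext i; simp [put]
    rw [this]
    refine ⟨ha, rfl, ?_⟩
    simp
  | insert i F hiF ih =>
    intro hF
    obtain ⟨h1, h2, h3⟩ := ih (fun j hj => hF (mem_insert_of_mem hj))
    have hiT : i ∈ TT S z a := hF (mem_insert_self i F)
    have hiS : i ∈ S := (mem_TT.mp hiT).1
    have hputi : put F z a i = a i := by simp [put, hiF]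
    by_cases hai : a i = z i
    · have he : put (insert i F) z a = put F z a := by
        funext j
        unfold put
        by_cases hj : j = i
        · subst hj; simp [hiF, hai]
        · simp [hj]
      rw [he, filter_insert, if_neg (by simpa using hai)]
      exact ⟨h1, h2, h3⟩
    · have haz : a i = -(z i) := ((mem_TT.mp hiT).2).resolve_left hai
      have he : put (insert i F) z a = flip i (put F z a) := by
        funext j
        unfold flip
        by_cases hj : j = i
        · subst hj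
          rw [update_self, hputi, haz, neg_neg]
          simp [put]
        · rw [update_of_ne hj]
          simp [put, hj]
      rw [he, filter_insert, if_pos (by simpa using hai), card_insert_of_notMem (by simp [hiF])]
      refine ⟨flip_mem_E h1 hiS, by rw [TT_flip, h2], ?_⟩
      have h4 := flip_one hn hc W hW k hk h1 (by rw [h2]; exact hak) (i := i) (by rw [h2]; exact hiT)
      have h5 := W.sub_mem h4 h3
      have h6 : c (flip i (put F z a)) -
          (-1 : ℤ) ^ ((F.filter fun i => a i ≠ z i).card + 1) • c a =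
          c (flip i (put F z a)) + c (put F z a) - (c (put F z a) -
            (-1 : ℤ) ^ (F.filter fun i => a i ≠ z i).card • c a) := by
        rw [pow_succ, mul_neg_one, neg_smul]; abel
      rw [h6]; exact h5

/-- partial negation -/
def tau (z a : ∀ i, ZMod (n i)) : ∀ i, ZMod (n i) := fun i => if a i = z i then z i else -(a i)

lemma level_one (hn : Moduli n) (hc : CDist c) {S : Finset ι} {z : ∀ i, ZMod (n i)}
    (hz : z ∈ E n S) (W : AddSubgroup Q) (hW : ∀ i ∈ S, ∀ b ∈ E n (S.erase i), c b ∈ W)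
    (hB : ∀ a ∈ E n S, (∀ i ∈ S, a i ≠ -(z i)) → (∃ i ∈ S, a i ≠ z i) → c a ∈ W ∨ c (tau z a) ∈ W) :
    ∀ (k : ℕ), ∀ a ∈ E n S, (TT S z a).card = k → TT S z a ≠ S → c a ∈ W := by
  intro k
  induction k using Nat.strong_induction_on with
  | _ k ih =>
  intro a ha hak hne
  have hk : ∀ b ∈ E n S, (TT S z b).card < k → c b ∈ W := by
    intro b hb hbk
    refine ih _ hbk b hb rfl ?_
    intro h
    have h1 : (TT S z a).card ≤ S.card := card_le_card (filter_subset _ _)
    rw [h] at hbk
    omega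
  obtain ⟨j, hjS, hj⟩ : ∃ j ∈ S, j ∉ TT S z a := by
    by_contra hcon
    push Not at hcon
    exact hne (Subset.antisymm (filter_subset _ _) hcon)
  have hP := put_sign hn hc W hW k hk ha hak.le (TT S z a) (Subset.refl _)
  set a' := put (TT S z a) z a with ha'
  obtain ⟨h1, h2, h3⟩ := hP
  have hval1 : ∀ i ∈ TT S z a, a' i = z i := fun i hi => by simp [ha', put, hi]
  have hval2 : ∀ i, i ∉ TT S z a → a' i = a i := fun i hi => by simp [ha', put, hi]
  have hno : ∀ i ∈ S, a' i ≠ -(z i) := by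
    intro i hi
    by_cases hiT : i ∈ TT S z a
    · rw [hval1 i hiT]; exact ne_neg_of_unit (hn.mod i) (hz.1 i hi)
    · rw [hval2 i hiT]
      exact fun h => hiT (mem_TT.mpr ⟨hi, Or.inr h⟩)
  have hex : ∃ i ∈ S, a' i ≠ z i := by
    refine ⟨j, hjS, ?_⟩
    rw [hval2 j hj]
    exact fun h => hj (mem_TT.mpr ⟨hjS, Or.inl h⟩)
  have key : c a' ∈ W := by
    rcases hB a' h1 hno hex with h | h
    · exact h
    · -- the negative of the partial negation
      have hdE : -(tau z a') ∈ E n S := by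
        refine ⟨?_, ?_⟩
        · intro i hi
          rw [Pi.neg_apply]
          unfold tau
          split_ifs with h'
          · exact (hz.1 i hi).neg
          · rw [neg_neg]; exact h1.1 i hi
        · intro i hi
          rw [Pi.neg_apply]
          unfold tau
          rw [h1.2 i hi, hz.2 i hi]
          simp
      have hd1 : ∀ i ∈ TT S z a, (-(tau z a')) i = -(z i) := by
        intro i hi
        rw [Pi.neg_apply]
        unfold tau
        rw [if_pos (hval1 i hi)]
      have hd2 : ∀ i, i ∉ TT S z a → (-(tau z a')) i = a i := by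
        intro i hi
        rw [Pi.neg_apply]
        unfold tau
        rw [hval2 i hi]
        split_ifs with h'
        · by_cases hiS : i ∈ S
          · exact absurd (mem_TT.mpr ⟨hiS, Or.inl h'⟩) hi
          · rw [hz.2 i hiS, ha.2 i hiS, neg_zero]
        · rw [neg_neg]
      have hTd : TT S z (-(tau z a')) = TT S z a := by
        ext i
        constructor
        · intro hi
          by_contra hi'
          have := mem_TT.mp hi
          rw [hd2 i hi'] at this
          exact hi' (mem_TT.mpr this)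
        · intro hi
          rw [mem_TT, hd1 i hi]
          exact ⟨(mem_TT.mp hi).1, Or.inr rfl⟩
      have hPd := put_sign hn hc W hW k hk hdE (by rw [hTd]; exact hak.le) (TT S z a)
        (by rw [hTd])
      have he : put (TT S z a) z (-(tau z a')) = a' := by
        funext i
        by_cases hi : i ∈ TT S z a
        · rw [hval1 i hi]; simp [put, hi]
        · rw [hval2 i hi]; simp only [put, if_neg hi]; exact hd2 i hi
      rw [he] at hPd
      have h4 := hPd.2.2
      rw [hc.neg, smul_neg, sub_neg_eq_add] at h4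
      have h5 := W.sub_mem h4 (W.zsmul_mem h
        ((-1 : ℤ) ^ ((TT S z a).filter fun i => (-(tau z a')) i ≠ z i).card))
      rwa [add_sub_cancel_right] at h5
  have h6 := W.sub_mem key h3
  rw [sub_sub_cancel] at h6
  rcases neg_one_pow_eq_or ℤ ((TT S z a).filter fun i => a i ≠ z i).card with h7 | h7
  · rw [h7, one_smul] at h6; exact h6
  · rw [h7, neg_smul, one_smul] at h6; exact neg_mem_iff.mp h6

lemma level_two (hn : Moduli n) (hc : CDist c) {S : Finset ι} {z : ∀ i, ZMod (n i)}
    (hz : z ∈ E n S) (W : AddSubgroup Q) (hW : ∀ i ∈ S, ∀ b ∈ E n (S.erase i), c b ∈ W)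
    (hB : ∀ a ∈ E n S, (∀ i ∈ S, a i ≠ -(z i)) → (∃ i ∈ S, a i ≠ z i) → c a ∈ W ∨ c (tau z a) ∈ W)
    (a : ∀ i, ZMod (n i)) (ha : a ∈ E n S) (hT : TT S z a = S) :
    ∃ e : ℤ, (e = 1 ∨ e = -1) ∧ c a - e • c z ∈ W := by
  have h := put_sign hn hc W hW S.card (fun b hb hbk => level_one hn hc hz W hW hB _ b hb rfl
    (fun h => by rw [h] at hbk; omega)) ha (card_le_card (filter_subset _ _)) S (by rw [hT])
  have he : put S z a = z := by
    funext i
    by_cases hi : i ∈ S
    · simp [put, hi]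
    · simp [put, hi, ha.2 i hi, hz.2 i hi]
  rw [he] at h
  have h3 := h.2.2
  rcases neg_one_pow_eq_or ℤ (S.filter fun i => a i ≠ z i).card with h7 | h7
  · rw [h7] at h3
    refine ⟨1, Or.inl rfl, ?_⟩
    rw [one_smul] at h3 ⊢
    have := W.neg_mem h3
    rwa [neg_sub] at this
  · rw [h7] at h3
    refine ⟨-1, Or.inr rfl, ?_⟩
    rw [neg_smul, one_smul, sub_neg_eq_add] at h3 ⊢
    rwa [add_comm] at h3

lemma level_even (hn : Moduli n) (hc : CDist c) {S : Finset ι} {z : ∀ i, ZMod (n i)}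
    (hz : z ∈ E n S) (W : AddSubgroup Q) (hW : ∀ i ∈ S, ∀ b ∈ E n (S.erase i), c b ∈ W)
    (hB : ∀ a ∈ E n S, (∀ i ∈ S, a i ≠ -(z i)) → (∃ i ∈ S, a i ≠ z i) → c a ∈ W ∨ c (tau z a) ∈ W)
    (hS : Even S.card) : c z + c z ∈ W := by
  have hT : TT S z (-z) = S := by
    ext i
    rw [mem_TT]
    exact ⟨fun h => h.1, fun h => ⟨h, Or.inr rfl⟩⟩
  have h := put_sign hn hc W hW S.card (fun b hb hbk => level_one hn hc hz W hW hB _ b hb rfl
    (fun h => by rw [h] at hbk; omega)) (neg_mem_E hz) (card_le_card (filter_subset _ _)) S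
    (by rw [hT])
  have he : put S z (-z) = z := by
    funext i
    by_cases hi : i ∈ S
    · simp [put, hi]
    · simp [put, hi, hz.2 i hi]
  rw [he] at h
  have h3 := h.2.2
  have hf : (S.filter fun i => (-z) i ≠ z i) = S := by
    apply filter_true_of_mem
    intro i hi
    rw [Pi.neg_apply]
    exact (ne_neg_of_unit (hn.mod i) (hz.1 i hi)).symm
  rw [hf, hS.neg_one_pow, one_smul, hc.neg, sub_neg_eq_add] at h3
  exact h3

lemma erase_of_ssub {S : Finset ι} {W : AddSubgroup Q}
    (hW : ∀ T, T ⊂ S → ∀ b ∈ E n T, c b ∈ W) : ∀ i ∈ S, ∀ b ∈ E n (S.erase i), c b ∈ W :=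
  fun _ hi b hb => hW _ (erase_ssubset hi) b hb

/-- an odd number of `± z` in a relation puts `c z` into the group -/
lemma level_parity (hn : Moduli n) (hc : CDist c) {S : Finset ι} {z : ∀ i, ZMod (n i)}
    (hz : z ∈ E n S) (W : AddSubgroup Q) (hW : ∀ T, T ⊂ S → ∀ b ∈ E n T, c b ∈ W)
    (hB : ∀ a ∈ E n S, (∀ i ∈ S, a i ≠ -(z i)) → (∃ i ∈ S, a i ≠ z i) → c a ∈ W ∨ c (tau z a) ∈ W)
    (hS : Even S.card) (x : (∀ i, ZMod (n i)) → ℤ) (hx : ∀ a, x a ≠ 0 → ∀ i, i ∉ S → a i = 0)
    (hsum : ∑ a, x a • c a ∈ W)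
    (hodd : Odd (∑ a ∈ univ.filter (fun a : ∀ i, ZMod (n i) => (∀ i ∈ S, a i = z i ∨ a i = -(z i)) ∧
      ∀ i, i ∉ S → a i = 0), x a)) : c z ∈ W := by
  classical
  have hWe := erase_of_ssub hW
  set D : Finset (∀ i, ZMod (n i)) := univ.filter (fun a : ∀ i, ZMod (n i) =>
    (∀ i ∈ S, a i = z i ∨ a i = -(z i)) ∧ ∀ i, i ∉ S → a i = 0) with hD
  have hDE : ∀ a ∈ D, a ∈ E n S ∧ TT S z a = S := by
    intro a ha
    rw [hD, mem_filter] at ha
    refine ⟨⟨fun i hi => ?_, ha.2.2⟩, ?_⟩
    · rcases ha.2.1 i hi with h | h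
      · rw [h]; exact hz.1 i hi
      · rw [h]; exact (hz.1 i hi).neg
    · ext i
      rw [mem_TT]
      exact ⟨fun h => h.1, fun h => ⟨h, ha.2.1 i h⟩⟩
  have hout : ∀ a ∈ univ \ D, x a • c a ∈ W := by
    intro a ha
    have haD : a ∉ D := (mem_sdiff.mp ha).2
    by_cases hxa : x a = 0
    · rw [hxa, zero_smul]; exact W.zero_mem
    apply W.zsmul_mem
    have h0 := hx a hxa
    by_cases hu : ∀ i ∈ S, IsUnit (a i)
    · apply level_one hn hc hz W hWe hB _ a ⟨hu, h0⟩ rfl
      intro hT
      apply haD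
      rw [hD, mem_filter]
      refine ⟨mem_univ _, fun i hi => ?_, h0⟩
      rw [← hT] at hi
      exact (mem_TT.mp hi).2
    · push Not at hu
      obtain ⟨i, hi, hiu⟩ := hu
      have hsub : (univ.filter fun j => IsUnit (a j)) ⊂ S := by
        rw [ssubset_iff_of_subset]
        · exact ⟨i, hi, by simp [hiu]⟩
        · intro j hj
          by_contra hjS
          rw [mem_filter, h0 j hjS] at hj
          have h2 : Nontrivial (ZMod (n j)) := by
            have : 1 < n j := by
              rcases hn.mod j with h | ⟨h, -⟩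
              · omega
              · exact h.one_lt
            have : Fact (1 < n j) := ⟨this⟩
            infer_instance
          exact not_isUnit_zero hj.2
      exact mem_pure hn hc _ a (fun i => by simp) W (hW _ hsub)
  have h1 : ∑ a ∈ D, x a • c a ∈ W := by
    have h2 : ∑ a ∈ univ \ D, x a • c a + ∑ a ∈ D, x a • c a = ∑ a, x a • c a :=
      sum_sdiff (subset_univ D)
    have h3 := W.sum_mem hout
    have h4 := W.sub_mem hsum h3
    rw [← h2, add_sub_cancel_left] at h4
    exact h4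
  choose! e he hec using fun (a : ∀ i, ZMod (n i)) (ha : a ∈ D) =>
    level_two hn hc hz W hWe hB a (hDE a ha).1 (hDE a ha).2
  have h2 : ∑ a ∈ D, x a • (c a - e a • c z) ∈ W :=
    W.sum_mem fun a ha => W.zsmul_mem (hec a ha) _
  have h3 : (∑ a ∈ D, x a * e a) • c z ∈ W := by
    have h4 := W.sub_mem h1 h2
    rw [← sum_sub_distrib] at h4
    have h5 : ∑ a ∈ D, (x a • c a - x a • (c a - e a • c z)) = (∑ a ∈ D, x a * e a) • c z := by
      rw [sum_smul]
      refine sum_congr rfl fun a _ => ?_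
      rw [smul_sub, sub_sub_cancel, mul_smul]
    rwa [h5] at h4
  have hodd2 : Odd (∑ a ∈ D, x a * e a) := by
    have h4 : Even (∑ a ∈ D, x a * e a - ∑ a ∈ D, x a) := by
      rw [← sum_sub_distrib]
      apply Finset.even_sum
      intro a ha
      rcases he a ha with h | h
      · rw [h]; simp
      · rw [h]
        exact ⟨-(x a), by ring⟩
    have h5 : ∑ a ∈ D, x a * e a = (∑ a ∈ D, x a * e a - ∑ a ∈ D, x a) + ∑ a ∈ D, x a := by ring
    rw [h5]
    exact h4.add_odd hodd
  obtain ⟨k, hk⟩ := hodd2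
  rw [hk, add_smul, one_smul, mul_comm, mul_smul] at h3
  have h6 := W.zsmul_mem (level_even hn hc hz W hWe hB hS) k
  have h7 : k • (2 : ℤ) • c z ∈ W := by
    rw [two_smul]; exact h6
  have h8 := W.sub_mem h3 h7
  rwa [add_sub_cancel_left] at h8

/-- base points and a rule which selects one element from each pair `a`, `tau a` -/
structure Base (n : ι → ℕ) [∀ i, NeZero (n i)] where
  zb : Finset ι → ∀ i, ZMod (n i)
  hz : ∀ S, zb S ∈ E n S
  key : (∀ i, ZMod (n i)) → ℕ
  inj : Function.Injective key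

/-- the elements of `C` -/
def Base.C (β : Base n) (S : Finset ι) : Set (∀ i, ZMod (n i)) :=
  {a | a ∈ E n S ∧ ∀ i ∈ S, a i ≠ -(β.zb S i)}

/-- the basis elements with support `S` -/
def Base.B (β : Base n) (S : Finset ι) : Set (∀ i, ZMod (n i)) :=
  {a | a ∈ β.C S ∧ ((a = β.zb S ∧ Odd S.card) ∨
    (a ≠ β.zb S ∧ β.key a < β.key (tau (β.zb S) a)))}

lemma zb_ne {β : Base n} {S : Finset ι} {a : ∀ i, ZMod (n i)} (ha : a ∈ E n S) :
    a ≠ β.zb S ↔ ∃ i ∈ S, a i ≠ β.zb S i := by
  constructor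
  · intro h
    by_contra hcon
    push Not at hcon
    apply h
    funext i
    by_cases hi : i ∈ S
    · exact hcon i hi
    · rw [ha.2 i hi, (β.hz S).2 i hi]
  · rintro ⟨i, _, hi⟩ rfl
    exact hi rfl

lemma tau_mem_C {β : Base n} (hn : Moduli n) {S : Finset ι} {a : ∀ i, ZMod (n i)}
    (ha : a ∈ β.C S) : tau (β.zb S) a ∈ β.C S := by
  have hz := β.hz S
  refine ⟨⟨?_, ?_⟩, ?_⟩
  · intro i hi
    unfold tau
    split_ifs
    · exact hz.1 i hi
    · exact (ha.1.1 i hi).neg
  · intro i hi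
    unfold tau
    rw [ha.1.2 i hi, hz.2 i hi]; simp
  · intro i hi
    unfold tau
    split_ifs with h
    · exact ne_neg_of_unit (hn.mod i) (hz.1 i hi)
    · intro h'
      exact h (neg_inj.mp h')

lemma tau_tau {β : Base n} {S : Finset ι} {a : ∀ i, ZMod (n i)}
    (ha : a ∈ β.C S) : tau (β.zb S) (tau (β.zb S) a) = a := by
  funext i
  by_cases h : a i = β.zb S i
  · have h1 : tau (β.zb S) a i = β.zb S i := by unfold tau; rw [if_pos h]
    conv_lhs => unfold tau
    rw [if_pos (by simpa [tau] using h1)]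
    exact h.symm
  · have h1 : tau (β.zb S) a i = -(a i) := by unfold tau; rw [if_neg h]
    by_cases hi : i ∈ S
    · have h2 : tau (β.zb S) a i ≠ β.zb S i := by
        rw [h1]
        intro h3
        exact ha.2 i hi (by rw [← h3, neg_neg])
      have h4 : tau (β.zb S) (tau (β.zb S) a) i = -(tau (β.zb S) a i) := by
        rw [tau, if_neg h2]
      rw [h4, h1, neg_neg]
    · exact absurd (by rw [ha.1.2 i hi, (β.hz S).2 i hi]) h

lemma tau_ne {β : Base n} (hn : Moduli n) {S : Finset ι} {a : ∀ i, ZMod (n i)}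
    (ha : a ∈ β.C S) (hne : a ≠ β.zb S) :
    tau (β.zb S) a ≠ a ∧ tau (β.zb S) a ≠ β.zb S := by
  obtain ⟨i, hi, h⟩ := (zb_ne ha.1).mp hne
  have h1 : tau (β.zb S) a i = -(a i) := by unfold tau; rw [if_neg h]
  constructor
  · intro h2
    have h3 := congrFun h2 i
    rw [h1] at h3
    exact ne_neg_of_unit (hn.mod i) (ha.1.1 i hi) h3.symm
  · intro h2
    have h3 := congrFun h2 i
    rw [h1] at h3
    exact ha.2 i hi (by rw [← h3, neg_neg])

lemma base_half {β : Base n} (hn : Moduli n) {S : Finset ι} {W : AddSubgroup Q}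
    (hB : ∀ b ∈ β.B S, c b ∈ W) : ∀ a ∈ E n S, (∀ i ∈ S, a i ≠ -(β.zb S i)) →
      (∃ i ∈ S, a i ≠ β.zb S i) → c a ∈ W ∨ c (tau (β.zb S) a) ∈ W := by
  intro a ha hno hex
  have haC : a ∈ β.C S := ⟨ha, hno⟩
  have hne : a ≠ β.zb S := (zb_ne ha).mpr hex
  obtain ⟨h1, h2⟩ := tau_ne hn haC hne
  rcases lt_trichotomy (β.key a) (β.key (tau (β.zb S) a)) with h | h | h
  · exact Or.inl (hB a ⟨haC, Or.inr ⟨hne, h⟩⟩)
  · exact absurd (β.inj h).symm h1
  · right
    apply hB
    refine ⟨tau_mem_C hn haC, Or.inr ⟨h2, ?_⟩⟩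
    rw [tau_tau haC]; exact h

lemma all_mem {β : Base n} (hn : Moduli n) (hc : CDist c) (W : AddSubgroup Q)
    (hB : ∀ S, ∀ b ∈ β.B S, c b ∈ W) (𝓤 : Set (Finset ι)) (hdown : ∀ S ∈ 𝓤, ∀ T ⊆ S, T ∈ 𝓤)
    (he : ∀ S ∈ 𝓤, Even S.card → S.Nonempty → c (β.zb S) ∈ W) :
    ∀ S ∈ 𝓤, ∀ a ∈ E n S, c a ∈ W := by
  intro S
  induction S using Finset.strongInduction with
  | _ S ih =>
  intro hS a ha
  rcases S.eq_empty_or_nonempty with rfl | hne
  · have : a = 0 := by funext i; exact ha.2 i (by simp)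
    rw [this, hc.zero]; exact W.zero_mem
  have hW : ∀ T, T ⊂ S → ∀ b ∈ E n T, c b ∈ W := fun T hT => ih T hT (hdown S hS T hT.1)
  by_cases hT : TT S (β.zb S) a = S
  · obtain ⟨e, -, h⟩ := level_two hn hc (β.hz S) W (erase_of_ssub hW) (base_half hn (hB S)) a ha hT
    have hzW : c (β.zb S) ∈ W := by
      rcases Nat.even_or_odd S.card with h1 | h1
      · exact he S hS h1 hne
      · apply hB S
        exact ⟨⟨β.hz S, fun i hi => ne_neg_of_unit (hn.mod i) ((β.hz S).1 i hi)⟩, Or.inl ⟨rfl, h1⟩⟩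
    have := W.add_mem h (W.zsmul_mem hzW e)
    rwa [sub_add_cancel] at this
  · exact level_one hn hc (β.hz S) W (erase_of_ssub hW) (base_half hn (hB S)) _ a ha rfl hT

/-- the group generated by the basis and the base points of the members of `𝓓` -/
def VV (β : Base n) (c : (∀ i, ZMod (n i)) → Q) (𝓓 : Finset (Finset ι)) : AddSubgroup Q :=
  AddSubgroup.closure ({q | ∃ S, ∃ b ∈ β.B S, q = c b} ∪ {q | ∃ S ∈ 𝓓, q = c (β.zb S)})

lemma VV_B {β : Base n} {𝓓 : Finset (Finset ι)} : ∀ S, ∀ b ∈ β.B S, c b ∈ VV β c 𝓓 :=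
  fun S b hb => AddSubgroup.subset_closure (Or.inl ⟨S, b, hb, rfl⟩)

lemma VV_zb {β : Base n} {𝓓 : Finset (Finset ι)} : ∀ S ∈ 𝓓, c (β.zb S) ∈ VV β c 𝓓 :=
  fun S hS => AddSubgroup.subset_closure (Or.inr ⟨S, hS, rfl⟩)

lemma VV_insert {β : Base n} {𝓓 : Finset (Finset ι)} {S : Finset ι} (hS : S ∈ 𝓓) {q : Q}
    (hq : q ∈ VV β c 𝓓) : ∃ v ∈ VV β c (𝓓.erase S), ∃ k : ℤ, q = v + k • c (β.zb S) := by
  unfold VV at hq
  induction hq using AddSubgroup.closure_induction with
  | mem y hy =>
    rcases hy with ⟨T, b, hb, rfl⟩ | ⟨T, hT, rfl⟩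
    · exact ⟨_, VV_B T b hb, 0, by simp⟩
    · by_cases h : T = S
      · subst h; exact ⟨0, AddSubgroup.zero_mem _, 1, by simp⟩
      · exact ⟨_, VV_zb T (mem_erase.mpr ⟨h, hT⟩), 0, by simp⟩
  | zero => exact ⟨0, AddSubgroup.zero_mem _, 0, by simp⟩
  | add x y _ _ hx hy =>
    obtain ⟨v, hv, k, rfl⟩ := hx
    obtain ⟨w, hw, l, rfl⟩ := hy
    exact ⟨v + w, AddSubgroup.add_mem _ hv hw, k + l, by rw [add_smul]; abel⟩
  | neg x _ hx =>
    obtain ⟨v, hv, k, rfl⟩ := hx
    exact ⟨-v, AddSubgroup.neg_mem _ hv, -k, by rw [neg_smul]; abel⟩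

/-- `S` is killed by the relation `x` -/
def Killed (β : Base n) (c : (∀ i, ZMod (n i)) → Q) (S : Finset ι) : Prop :=
  ∃ x : (∀ i, ZMod (n i)) → ℤ, (∀ a, x a ≠ 0 → ∀ i, i ∉ S → a i = 0) ∧ ∑ a, x a • c a = 0 ∧
    Odd (∑ a ∈ univ.filter (fun a : ∀ i, ZMod (n i) =>
      (∀ i ∈ S, a i = β.zb S i ∨ a i = -(β.zb S i)) ∧ ∀ i, i ∉ S → a i = 0), x a)

theorem cosets {β : Base n} (hn : Moduli n) (hc : CDist c) (𝓢 : Finset (Finset ι))
    (h𝓢 : ∀ S ∈ 𝓢, Killed β c S) : ∀ (N : ℕ) (𝓓 : Finset (Finset ι)), 𝓓.card = N →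
      (∀ S ∈ 𝓓, Even S.card ∧ S.Nonempty) →
      (∀ S ∈ 𝓓, ∀ T ⊆ S, Even T.card → T.Nonempty → T ∈ 𝓓) →
      ∃ R : Finset Q, R.card ≤ 2 ^ (𝓓 \ 𝓢).card ∧ ∀ q ∈ VV β c 𝓓, ∃ r ∈ R, q - r ∈ VV β c ∅ := by
  classical
  intro N
  induction N with
  | zero =>
    intro 𝓓 hN _ _
    rw [card_eq_zero] at hN
    subst hN
    exact ⟨{0}, by simp, fun q hq => ⟨0, by simp, by simpa using hq⟩⟩
  | succ N ih =>
    intro 𝓓 hN heven hdown
    have hne : 𝓓.Nonempty := by rw [← card_pos]; omega
    obtain ⟨S, hS, hmax⟩ := 𝓓.exists_max_image Finset.card hne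
    have hdown' : ∀ S' ∈ 𝓓.erase S, ∀ T ⊆ S', Even T.card → T.Nonempty → T ∈ 𝓓.erase S := by
      intro S' hS' T hT h1 h2
      have hS'' := mem_erase.mp hS'
      refine mem_erase.mpr ⟨?_, hdown S' hS''.2 T hT h1 h2⟩
      rintro rfl
      exact hS''.1 (eq_of_subset_of_card_le hT (hmax S' hS''.2)).symm
    obtain ⟨R, hR, hRc⟩ := ih (𝓓.erase S) (by rw [card_erase_of_mem hS]; omega)
      (fun S' hS' => heven S' (mem_of_mem_erase hS')) hdown'
    set W := VV β c (𝓓.erase S) with hWdef
    have hlow : ∀ T, T ⊂ S → ∀ b ∈ E n T, c b ∈ W := by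
      intro T hT
      refine all_mem hn hc W VV_B {T | T ⊂ S} (fun S' hS' T' hT' => lt_of_le_of_lt hT' hS') ?_ T hT
      intro S' hS' h1 h2
      apply VV_zb
      exact mem_erase.mpr ⟨(ne_of_lt hS'), hdown S hS S' hS'.1 h1 h2⟩
    have heS := heven S hS
    have h2z : c (β.zb S) + c (β.zb S) ∈ W :=
      level_even hn hc (β.hz S) W (erase_of_ssub hlow) (base_half hn (VV_B S)) heS.1
    by_cases hk : S ∈ 𝓢
    · obtain ⟨x, hx1, hx2, hx3⟩ := h𝓢 S hk
      have hz : c (β.zb S) ∈ W := level_parity hn hc (β.hz S) W hlow (base_half hn (VV_B S)) heS.1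
        x hx1 (by rw [hx2]; exact W.zero_mem) hx3
      refine ⟨R, ?_, ?_⟩
      · have : 𝓓.erase S \ 𝓢 = 𝓓 \ 𝓢 := by
          ext T
          simp only [mem_sdiff, mem_erase]
          constructor
          · rintro ⟨⟨_, h⟩, h'⟩; exact ⟨h, h'⟩
          · rintro ⟨h, h'⟩
            exact ⟨⟨by rintro rfl; exact h' hk, h⟩, h'⟩
        rw [this] at hR; exact hR
      · intro q hq
        obtain ⟨v, hv, k, rfl⟩ := VV_insert hS hq
        exact hRc _ (W.add_mem hv (W.zsmul_mem hz k))
    · refine ⟨R ∪ R.image (fun r => c (β.zb S) + r), ?_, ?_⟩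
      · have h1 : (𝓓 \ 𝓢).card = (𝓓.erase S \ 𝓢).card + 1 := by
          have : 𝓓 \ 𝓢 = insert S (𝓓.erase S \ 𝓢) := by
            ext T
            simp only [mem_sdiff, mem_erase, mem_insert]
            constructor
            · rintro ⟨h, h'⟩
              by_cases hTS : T = S
              · exact Or.inl hTS
              · exact Or.inr ⟨⟨hTS, h⟩, h'⟩
            · rintro (rfl | ⟨⟨_, h⟩, h'⟩)
              · exact ⟨hS, hk⟩
              · exact ⟨h, h'⟩
          rw [this, card_insert_of_notMem]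
          simp
        rw [h1, pow_succ, mul_two]
        exact (card_union_le _ _).trans (add_le_add hR (card_image_le.trans hR))
      · intro q hq
        obtain ⟨v, hv, k, rfl⟩ := VV_insert hS hq
        rcases Int.even_or_odd' k with ⟨l, hl | hl⟩
        · have h1 : v + k • c (β.zb S) ∈ W := by
            apply W.add_mem hv
            rw [hl, mul_comm, mul_smul, two_smul]
            exact W.zsmul_mem h2z l
          obtain ⟨r, hr, hqr⟩ := hRc _ h1
          exact ⟨r, mem_union_left _ hr, hqr⟩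
        · have h1 : v + (k - 1) • c (β.zb S) ∈ W := by
            apply W.add_mem hv
            rw [hl, add_sub_cancel_right, mul_comm, mul_smul, two_smul]
            exact W.zsmul_mem h2z l
          obtain ⟨r, hr, hqr⟩ := hRc _ h1
          refine ⟨c (β.zb S) + r, mem_union_right _ (mem_image_of_mem _ hr), ?_⟩
          have h2 : v + k • c (β.zb S) - (c (β.zb S) + r) = v + (k - 1) • c (β.zb S) - r := by
            rw [sub_smul, one_smul]; abel
          rw [h2]; exact hqr

end Pool.Agent.J4.H26
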