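import Pool.Agent.J4.H26.Walk

/-!
The count of the Hodge characters and of the generated ones.
-/

set_option autoImplicit false

namespace Pool.Agent.J4.H26

open Finset Function Pool.Agent.H916R2

set_option linter.unusedSectionVars false

variable {ι : Type} [Fintype ι] [DecidableEq ι] {n : ι → ℕ} [∀ i, NeZero (n i)]

/-- the complementary level -/
def co (n : ι → ℕ) (S : Finset ι) : ℕ := ∏ i ∈ Sᶜ, n i

lemma co_unit (hn : Moduli n) {S : Finset ι} {i : ι} (hi : i ∈ S) : IsUnit (co n S : ZMod (n i)) := by
  rw [ZMod.isUnit_iff_coprime]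
  apply Nat.Coprime.prod_left
  intro j hj
  apply hn.cop
  rintro rfl
  exact (mem_compl.mp hj) hi

lemma co_zero {S : Finset ι} {i : ι} (hi : i ∉ S) : (co n S : ZMod (n i)) = 0 := by
  rw [ZMod.natCast_eq_zero_iff]
  exact dvd_prod_of_mem n (mem_compl.mpr hi)

/-- the base points given by the embeddings of the levels -/
noncomputable def stdBase (hn : Moduli n) : Base n where
  zb := fun S i => (co n S : ZMod (n i))
  hz := fun _ => ⟨fun _ hi => co_unit hn hi, fun _ hi => co_zero hi⟩
  key := fun a => ((crt hn).symm a).val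
  inj := fun _ _ h => (crt hn).symm.injective (ZMod.val_injective _ h)

lemma cs_msum {m : ℕ} {Q : Type*} [AddCommGroup Q] (c : ZMod m → Q) (s : Multiset (ZMod m)) :
    (s.map (cs c)).sum =
      ((s.map c).sum, fun t : (ZMod m)ˣ => (s.map fun a => saw ((t : ZMod m) * a)).sum) := by
  induction s using Multiset.induction_on with
  | empty =>
    refine Prod.ext ?_ ?_
    · simp
    · funext t; simp
  | cons a s ih =>
    rw [Multiset.map_cons, Multiset.sum_cons, ih]
    refine Prod.ext ?_ ?_
    · simp [cs]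
    · funext t; simp [cs]

lemma sum_count_mem {Y : Type} [DecidableEq Y] (s : Multiset Y) (D : Finset Y) :
    ∑ y ∈ D, ((s.count y : ℕ) : ℤ) = (Multiset.card (s.filter fun y => y ∈ D) : ℤ) := by
  induction s using Multiset.induction_on with
  | empty => simp
  | cons a s ih =>
    rw [Multiset.filter_cons, Multiset.card_add]
    push_cast
    rw [← ih]
    have h1 : ∀ y ∈ D, (((a ::ₘ s).count y : ℕ) : ℤ) = (if y = a then 1 else 0) + (s.count y : ℤ) := by
      intro y _
      rw [Multiset.count_cons]
      push_cast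
      ring
    rw [sum_congr rfl h1, sum_add_distrib]
    congr 1
    by_cases h : a ∈ D
    · rw [if_pos h, Finset.sum_ite_eq' D a, if_pos h]; simp
    · rw [if_neg h, Finset.sum_ite_eq' D a, if_neg h]; simp

lemma crt_iota (hn : Moduli n) {k L : ℕ} [NeZero L] (b : ZMod L) (i : ι) :
    crt hn (iota k b : ZMod (∏ i, n i)) i = ((k * b.val : ℕ) : ZMod (n i)) := by
  unfold iota
  rw [crt_natCast]

lemma val_mod_iff {N : ℕ} (hN : 3 ≤ N) (b : ℕ) :
    ((b : ZMod N) = 1 ∨ (b : ZMod N) = -1) ↔ (b % N = 1 ∨ b % N = N - 1) := by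
  have h1 : (b : ZMod N) = 1 ↔ b % N = 1 := by
    have : (1 : ZMod N) = ((1 : ℕ) : ZMod N) := by simp
    rw [this, ZMod.natCast_eq_natCast_iff', Nat.mod_eq_of_lt (by omega : 1 < N)]
  have h2 : (b : ZMod N) = -1 ↔ b % N = N - 1 := by
    have : (-1 : ZMod N) = ((N - 1 : ℕ) : ZMod N) := by
      rw [Nat.cast_sub (by omega)]; simp
    rw [this, ZMod.natCast_eq_natCast_iff', Nat.mod_eq_of_lt (by omega : N - 1 < N)]
  rw [h1, h2]

lemma three_le_n (hn : Moduli n) (i : ι) : 3 ≤ n i := by
  rcases hn.mod i with h | ⟨h, h'⟩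
  · omega
  · have := h.two_le
    omega

/-- a Hodge character of level `L` with odd parity kills the set `S` -/
lemma killed_of (hn : Moduli n) {Q : Type*} [AddCommGroup Q] {c : ZMod (∏ i, n i) → Q}
    {S : Finset ι} {L : ℕ} [NeZero L] (hL : co n S * L = ∏ i, n i) (s0 : Multiset (ZMod L))
    (hs0 : IsHodge L s0)
    (hodd : Odd (Multiset.card (s0.filter fun b => ∀ i ∈ S, b.val % n i = 1 ∨ b.val % n i = n i - 1)))
    (hzero : (s0.map fun b => c (iota (co n S) b)).sum = 0) :
    Killed (stdBase hn) (tc hn (cs c)) S := by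
  classical
  set s : Multiset (ZMod (∏ i, n i)) := s0.map (iota (co n S)) with hs
  refine ⟨fun a => ((s.count ((crt hn).symm a) : ℕ) : ℤ), ?_, ?_, ?_⟩
  · intro a ha i hi
    have h1 : (crt hn).symm a ∈ s := by
      rw [← Multiset.count_pos]
      have : s.count ((crt hn).symm a) ≠ 0 := fun h => ha (by simp [h])
      omega
    rw [hs, Multiset.mem_map] at h1
    obtain ⟨b, _, hb⟩ := h1
    have h2 : a = crt hn (iota (co n S) b) := by rw [hb, RingEquiv.apply_symm_apply]
    rw [h2, crt_iota]
    push_cast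
    rw [co_zero hi, zero_mul]
  · have h1 : ∑ a, ((s.count ((crt hn).symm a) : ℕ) : ℤ) • tc hn (cs c) a =
        ∑ y, ((s.count y : ℕ) : ℤ) • cs c y :=
      Equiv.sum_comp (crt hn).symm.toEquiv (fun y => ((s.count y : ℕ) : ℤ) • cs c y)
    rw [h1, sum_count, cs_msum]
    refine Prod.ext ?_ ?_
    · rw [hs, Multiset.map_map]; exact hzero
    · funext t
      exact (hs0.iota hL).saw_sum t
  · set D := univ.filter (fun a : ∀ i, ZMod (n i) =>
      (∀ i ∈ S, a i = (stdBase hn).zb S i ∨ a i = -((stdBase hn).zb S i)) ∧ ∀ i, i ∉ S → a i = 0) with hD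
    have h1 : ∑ a ∈ D, ((s.count ((crt hn).symm a) : ℕ) : ℤ) =
        ∑ y ∈ D.map (crt hn).symm.toEquiv.toEmbedding, ((s.count y : ℕ) : ℤ) := by
      rw [sum_map]; rfl
    rw [h1, sum_count_mem]
    have h2 : Multiset.card (s.filter fun y => y ∈ D.map (crt hn).symm.toEquiv.toEmbedding) =
        Multiset.card (s0.filter fun b => ∀ i ∈ S, b.val % n i = 1 ∨ b.val % n i = n i - 1) := by
      rw [hs, Multiset.filter_map, Multiset.card_map]
      congr 1
      apply Multiset.filter_congr
      intro b _
      simp only [Function.comp_apply, mem_map_equiv, hD, mem_filter, mem_univ, true_and]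
      have h3 : (crt hn).symm.toEquiv.symm (iota (co n S) b) = crt hn (iota (co n S) b) := rfl
      rw [h3]
      have h4 : ∀ i, i ∉ S → crt hn (iota (co n S) b) i = 0 := by
        intro i hi
        rw [crt_iota]; push_cast; rw [co_zero hi, zero_mul]
      have h5 : ∀ i ∈ S, ((crt hn (iota (co n S) b) i = (stdBase hn).zb S i ∨
          crt hn (iota (co n S) b) i = -((stdBase hn).zb S i)) ↔
          (b.val % n i = 1 ∨ b.val % n i = n i - 1)) := by
        intro i hi
        have hu := co_unit hn hi
        rw [← val_mod_iff (three_le_n hn i), crt_iota]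
        have hzb : (stdBase hn).zb S i = (co n S : ZMod (n i)) := rfl
        rw [hzb]
        push_cast
        have e1 : (co n S : ZMod (n i)) * (b.val : ZMod (n i)) = co n S ↔ (b.val : ZMod (n i)) = 1 := by
          constructor
          · intro h
            apply hu.mul_right_injective
            change (co n S : ZMod (n i)) * (b.val : ZMod (n i)) = co n S * 1
            rw [h, mul_one]
          · intro h; rw [h, mul_one]
        have e2 : (co n S : ZMod (n i)) * (b.val : ZMod (n i)) = -(co n S) ↔
            (b.val : ZMod (n i)) = -1 := by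
          constructor
          · intro h
            apply hu.mul_right_injective
            change (co n S : ZMod (n i)) * (b.val : ZMod (n i)) = co n S * (-1)
            rw [h]; ring
          · intro h; rw [h]; ring
        rw [← e1, ← e2]
      constructor
      · rintro ⟨h6, _⟩ i hi
        exact (h5 i hi).mp (h6 i hi)
      · intro h6
        exact ⟨fun i hi => (h5 i hi).mpr (h6 i hi), h4⟩
    rw [h2]
    exact_mod_cast hodd

/-- the data of the main theorem: the classes which are available -/
def Avail (n : ι → ℕ) (M : ℕ) (base : Multiset (ZMod M) → Prop) (S : Finset ι) : Prop :=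
  ∃ L : ℕ, co n S * L = ∏ i, n i ∧ ∃ s0 : Multiset (ZMod L), IsHodge L s0 ∧
    Odd (Multiset.card (s0.filter fun b => ∀ i ∈ S, b.val % n i = 1 ∨ b.val % n i = n i - 1)) ∧
    ((s0.map (iota (M / L) : ZMod L → ZMod M)).map (cQ M base)).sum = 0

theorem values (hn : Moduli n) {m M k l : ℕ} [NeZero m] [NeZero M] (hk : k * ∏ i, n i = m)
    (hred : Red m (∏ i, n i) k) (hl : l * m = M) (base : Multiset (ZMod M) → Prop)
    (𝓢 : Finset (Finset ι)) (h𝓢 : ∀ S ∈ 𝓢, Avail n M base S) :
    ∃ R : Finset ((ZMod M → ℤ) ⧸ (LL M base)), R.card ≤ 2 ^ (evens ι \ 𝓢).card ∧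
      ∀ x : ZMod m → ℤ, Rel x → ∑ a, x a • cQ M base (iota l a) ∈ R := by
  have hc : OddDist (fun a : ZMod m => cQ M base (iota l a)) := cQ_oddDist.comp_iota hl
  have hc0 : OddDist (fun b : ZMod (∏ i, n i) => cQ M base (iota l (iota k b : ZMod m))) :=
    hc.comp_iota hk
  obtain ⟨R, hR, hR2⟩ := tors_bound hn (stdBase hn) hc0 𝓢 (by
    intro S hS
    obtain ⟨L, hL, s0, hs0, hodd, hzero⟩ := h𝓢 S hS
    have hL0 : NeZero L := ⟨by rintro rfl; simp at hL; exact NeZero.ne (∏ i, n i) hL.symm⟩
    refine killed_of hn hL s0 hs0 hodd ?_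
    have hML : M / L = l * (k * co n S) := by
      have : l * (k * co n S) * L = M := by
        rw [← hl, ← hk, ← hL]; ring
      exact Nat.div_eq_of_eq_mul_left (NeZero.pos L) this.symm
    rw [hML, Multiset.map_map] at hzero
    rw [← hzero]
    congr 1
    apply Multiset.map_congr rfl
    intro b _
    simp only [Function.comp_apply]
    rw [iota_comp hk, iota_comp hl])
  refine ⟨R, hR, ?_⟩
  intro x hx
  obtain ⟨x0, hx0, he⟩ := hred _ (fun a : ZMod m => cQ M base (iota l a)) hc x hx
  rw [he]
  exact hR2 x0 hx0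

/-- the multiset of the entries of a tuple -/
def entries {m N : ℕ} (a : Fin N → ZMod m) : Multiset (ZMod m) := Finset.univ.val.map a

theorem count_le (hn : Moduli n) {m M k l : ℕ} [NeZero m] [NeZero M] (hk : k * ∏ i, n i = m)
    (hred : Red m (∏ i, n i) k) (hl : l * m = M) (base : Multiset (ZMod M) → Prop)
    (hb : ∀ s, base s → (0 : ZMod M) ∉ s ∧ Even (Multiset.card s))
    (hbn : ∀ s, base s → base (s.map Neg.neg))
    (𝓢 : Finset (Finset ι)) (h𝓢 : ∀ S ∈ 𝓢, Avail n M base S) (N : ℕ) (hN : 0 < N) :
    Nat.card {a : Fin (2 * N) → ZMod m // IsHodge m (entries a)} ≤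
      2 ^ (evens ι \ 𝓢).card * Nat.card {a : Fin (2 * N) → ZMod m //
        IsHodge m (entries a) ∧ Generated M base ((entries a).map (iota l))} := by
  classical
  obtain ⟨R, hR, hR2⟩ := values hn hk hred hl base 𝓢 h𝓢
  have hc : OddDist (fun a : ZMod m => cQ M base (iota l a)) := cQ_oddDist.comp_iota hl
  let α := {a : ZMod m // a ≠ 0}
  let f : α → ((ZMod M → ℤ) ⧸ (LL M base)) × ((ZMod m)ˣ → ℤ) := fun a =>
    cs (fun a : ZMod m => cQ M base (iota l a)) a.1
  let ν : α → α := fun a => ⟨-a.1, neg_ne_zero.mpr a.2⟩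
  have hν : ∀ a, ν (ν a) = a := fun a => Subtype.ext (neg_neg a.1)
  have hf : ∀ a, f (ν a) = - f a := fun a => (cs_odd hc).neg a.1
  let Fσ : ((ZMod M → ℤ) ⧸ (LL M base)) × ((ZMod m)ˣ → ℤ) → Finset (Fin (2 * N) → α) := fun σ =>
    univ.filter fun a : Fin (2 * N) → α => ∑ j, f (a j) = σ
  have hw : ∀ σ, (Fσ σ).card ≤ (Fσ 0).card := fun σ => by
    simp only [Fσ]
    convert walk f ν hν hf N σ
  -- sums as multiset sums
  have hsum : ∀ a : Fin (2 * N) → α, ∑ j, f (a j) =
      ((entries fun j => (a j).1).map (cs (fun a : ZMod m => cQ M base (iota l a)))).sum := by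
    intro a
    unfold entries
    rw [Multiset.map_map]
    rfl
  let H : Finset (Fin (2 * N) → α) := univ.filter fun a => IsHodge m (entries fun j => (a j).1)
  have hH : H ⊆ R.biUnion fun τ => Fσ (τ, 0) := by
    intro a ha
    have ha' : IsHodge m (entries fun j => (a j).1) := (mem_filter.mp ha).2
    rw [mem_biUnion]
    have h1 := hR2 _ ha'.rel
    rw [sum_count] at h1
    refine ⟨_, h1, ?_⟩
    simp only [Fσ, mem_filter, mem_univ, true_and]
    rw [hsum, cs_msum]
    refine Prod.ext rfl ?_
    funext t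
    exact ha'.saw_sum t
  have h1 : H.card ≤ R.card * (Fσ 0).card := by
    refine (card_le_card hH).trans ?_
    refine card_biUnion_le.trans ?_
    calc ∑ τ ∈ R, (Fσ (τ, 0)).card ≤ ∑ _τ ∈ R, (Fσ 0).card := sum_le_sum fun τ _ => hw _
      _ = R.card * (Fσ 0).card := by rw [sum_const, smul_eq_mul]
  have h2 : Nat.card {a : Fin (2 * N) → ZMod m // IsHodge m (entries a)} ≤ H.card := by
    have hinj : ∀ a : {a : Fin (2 * N) → ZMod m // IsHodge m (entries a)}, ∀ j, a.1 j ≠ 0 := by
      intro a j h0
      apply a.2.1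
      rw [← h0]
      exact Multiset.mem_map_of_mem _ (mem_univ j)
    let g : {a : Fin (2 * N) → ZMod m // IsHodge m (entries a)} → H := fun a =>
      ⟨fun j => ⟨a.1 j, hinj a j⟩, mem_filter.mpr ⟨mem_univ _, a.2⟩⟩
    have hg : Function.Injective g := by
      intro a b h
      apply Subtype.ext
      funext j
      have h3 := congrArg (fun x : H => (x.1 j).1) h
      exact h3
    have := Nat.card_le_card_of_injective g hg
    rwa [Nat.card_eq_fintype_card (α := H), Fintype.card_coe] at this
  have h3 : (Fσ 0).card ≤ Nat.card {a : Fin (2 * N) → ZMod m //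
        IsHodge m (entries a) ∧ Generated M base ((entries a).map (iota l))} := by
    have hgen : ∀ a ∈ Fσ 0, IsHodge m (entries fun j => (a j).1) ∧
        Generated M base ((entries fun j => (a j).1).map (iota l)) := by
      intro a ha
      have h4 : ∑ j, f (a j) = 0 := (mem_filter.mp ha).2
      rw [hsum, cs_msum] at h4
      refine ⟨isHodge_of_saw ?_ ?_ fun t => congrFun (congrArg Prod.snd h4) t, ?_⟩
      · unfold entries
        rw [Multiset.mem_map]
        rintro ⟨j, _, hj⟩
        exact (a j).2 hj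
      · unfold entries
        rw [Multiset.card_map]
        simp
      have h5 : ((entries fun j => (a j).1).map fun a : ZMod m => cQ M base (iota l a)).sum = 0 :=
        congrArg Prod.fst h4
      have h6 : (((entries fun j => (a j).1).map (iota l : ZMod m → ZMod M)).map (cQ M base)).sum = 0 := by
        rw [Multiset.map_map]; exact h5
      rw [cQ_sum, QuotientAddGroup.eq_zero_iff] at h6
      apply generated_of_mem_LL hb hbn _ _ _ h6
      · intro h7
        rw [Multiset.mem_map] at h7
        obtain ⟨b, hb1, hb2⟩ := h7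
        have hb3 := iota_eq_zero hl hb2
        unfold entries at hb1
        rw [Multiset.mem_map] at hb1
        obtain ⟨j, _, hj⟩ := hb1
        exact (a j).2 (hj.trans hb3)
      · unfold entries
        rw [Multiset.card_map, Multiset.card_map]
        simp
      · unfold entries
        intro h7
        have h8 := congrArg Multiset.card h7
        rw [Multiset.card_map, Multiset.card_map] at h8
        simp at h8
        omega
    let g : Fσ 0 → {a : Fin (2 * N) → ZMod m //
        IsHodge m (entries a) ∧ Generated M base ((entries a).map (iota l))} :=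
      fun a => ⟨fun j => (a.1 j).1, hgen a.1 a.2⟩
    have hg : Function.Injective g := by
      intro a b h
      apply Subtype.ext
      funext j
      apply Subtype.ext
      exact congrFun (congrArg Subtype.val h) j
    have := Nat.card_le_card_of_injective g hg
    rwa [Nat.card_eq_fintype_card (α := Fσ 0), Fintype.card_coe] at this
  calc _ ≤ H.card := h2
    _ ≤ R.card * (Fσ 0).card := h1
    _ ≤ _ := Nat.mul_le_mul hR h3

/-- if all even sets are available, all Hodge characters are generated -/
theorem all_generated (hn : Moduli n) {m M k l : ℕ} [NeZero m] [NeZero M] (hk : k * ∏ i, n i = m)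
    (hred : Red m (∏ i, n i) k) (hl : l * m = M) (base : Multiset (ZMod M) → Prop)
    (hb : ∀ s, base s → (0 : ZMod M) ∉ s ∧ Even (Multiset.card s))
    (hbn : ∀ s, base s → base (s.map Neg.neg))
    (hav : ∀ S : Finset ι, Even S.card → S.Nonempty → Avail n M base S)
    (s : Multiset (ZMod m)) (hs : IsHodge m s) (hne : s ≠ 0) :
    Generated M base (s.map (iota l)) := by
  classical
  obtain ⟨R, hR, hR2⟩ := values hn hk hred hl base (evens ι)
    (fun S hS => hav S (mem_filter.mp hS).2.1 (mem_filter.mp hS).2.2)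
  rw [Finset.sdiff_self, card_empty, pow_zero] at hR
  have h0 : (0 : (ZMod M → ℤ) ⧸ (LL M base)) ∈ R := by
    have := hR2 0 (fun t => by simp)
    simpa using this
  have h1 := hR2 _ hs.rel
  rw [sum_count] at h1
  have h2 := card_le_one.mp hR _ h1 _ h0
  have h6 : ((s.map (iota l : ZMod m → ZMod M)).map (cQ M base)).sum = 0 := by
    rw [Multiset.map_map]; exact h2
  rw [cQ_sum, QuotientAddGroup.eq_zero_iff] at h6
  apply generated_of_mem_LL hb hbn _ _ _ h6
  · intro h7
    rw [Multiset.mem_map] at h7
    obtain ⟨b, hb1, hb2⟩ := h7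
    rw [iota_eq_zero hl hb2] at hb1
    exact hs.1 hb1
  · rw [Multiset.card_map]; exact hs.2.1
  · intro h7
    exact hne (Multiset.map_eq_zero.mp h7)

end Pool.Agent.J4.H26
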