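import Pool.Agent.J4.H26.Deg

/-!
The twelve pairs of primes for which an algebraic class of odd parity is known.
-/

set_option autoImplicit false

namespace Pool.Agent.J4.H26

open Finset Function Pool.Agent.H916R2 Pool.Agent.Y2.Cv

set_option linter.unusedSectionVars false

/-- The number of the entries `b` of `s` with `b ≡ ± 1` modulo `p` for all odd `p ∈ T`, and modulo
`4` if `2 ∈ T`. -/
def parity (T : Finset ℕ) {L : ℕ} (s : Multiset (ZMod L)) : ℕ :=
  Multiset.card (s.filter fun b => ∀ p ∈ T, b.val % nn p = 1 ∨ b.val % nn p = nn p - 1)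

/-- from sets of primes to sets of indices -/
lemma avail_bridge {m M : ℕ} {base : Multiset (ZMod M) → Prop} {T : Finset ℕ} (S : Finset (relPrimes m))
    (hS : S.map ⟨Subtype.val, Subtype.val_injective⟩ = T) {L : ℕ} (hL : lev T = L)
    (s0 : Multiset (ZMod L)) (hs0 : IsHodge L s0) (hodd : Odd (parity T s0))
    (hz : ((s0.map (iota (M / L) : ZMod L → ZMod M)).map (cQ M base)).sum = 0) :
    Avail (fun p : relPrimes m => nn p.1) M base S := by
  refine ⟨L, ?_, s0, hs0, ?_, hz⟩
  · have h1 : L = ∏ p ∈ S, nn p.1 := by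
      rw [← hL, ← hS]
      unfold lev
      rw [prod_map]; rfl
    rw [h1]
    unfold co
    rw [mul_comm]
    exact prod_mul_prod_compl S _
  · unfold parity at hodd
    convert hodd using 3
    rw [← hS]
    constructor
    · intro h p hp
      rw [mem_map] at hp
      obtain ⟨q, hq, rfl⟩ := hp
      exact h q hq
    · intro h q hq
      exact h q.1 (mem_map.mpr ⟨q, hq, rfl⟩)

/-- the certificates give vanishing sums in all multiples of the level -/
lemma avail_cert {M L' L k d : ℕ} [NeZero M] [NeZero L'] [NeZero L]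
    (hfull : FullP L' (SurfaceOrCurveProduct L')) (hk : k * L' = M) (hd : d * L = L')
    {base : Multiset (ZMod M) → Prop} (hbase : ∀ s, SurfaceOrCurveProduct M s → base s)
    (s0 : Multiset (ZMod L)) (hs0 : IsHodge L s0) :
    ((s0.map (iota (M / L) : ZMod L → ZMod M)).map (cQ M base)).sum = 0 := by
  have h4 : Kil (SurfaceOrCurveProduct L') (fun b : ZMod L' => cQ M base (iota k b)) := by
    intro s hs
    have h1 : SurfaceOrCurveProduct M (s.map (iota k : ZMod L' → ZMod M)) := by
      rcases hs with ⟨h1, h2⟩ | h1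
      · exact Or.inl ⟨h1.iota hk, by rw [Multiset.card_map]; exact h2⟩
      · exact Or.inr (h1.lift hk)
    have h2 := cQ_sum_eq_zero (Generated.ofBase (m := M) (base := base)
      (s.map (iota k : ZMod L' → ZMod M)) (hbase _ h1))
    rw [Multiset.map_map] at h2
    exact h2
  have h5 := hfull _ _ (cQ_oddDist.comp_iota hk) h4 _ (hs0.iota hd).rel
  rw [sum_count, Multiset.map_map] at h5
  have hML : M / L = k * d := by
    apply Nat.div_eq_of_eq_mul_left (NeZero.pos L)
    rw [← hk, ← hd]; ring
  rw [hML, Multiset.map_map, ← h5]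
  congr 1
  apply Multiset.map_congr rfl
  intro b _
  simp only [Function.comp_apply]
  rw [iota_comp hk]

/-- The pairs `{p, q}` of primes for which there is a class of odd parity among the Hodge characters
with four entries and the curve products; `2` stands for the level four. -/
def KnownPairs : Finset (Finset ℕ) :=
  {{2, 3}, {2, 5}, {3, 5}, {2, 7}, {3, 7}, {5, 7}, {2, 11}, {3, 11}, {2, 13}, {3, 13}, {3, 17},
    {3, 19}}

/-- a checked class for a set of primes -/
lemma cert_case {m M : ℕ} [NeZero M] (hM2 : 2 ∣ M) (hmM : m ∣ M) {base : Multiset (ZMod M) → Prop}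
    (hbase : ∀ s, SurfaceOrCurveProduct M s → base s) {T : Finset ℕ} (S : Finset (relPrimes m))
    (hS : S.map ⟨Subtype.val, Subtype.val_injective⟩ = T) {L L' d : ℕ} [NeZero L] [NeZero L']
    (hL : lev T = L) (hd : d * L = L') (hd2 : (d = 1) ∨ (d = 2 ∧ Odd L))
    (hfull : FullP L' (SurfaceOrCurveProduct L')) (l : List ℕ) (hl : hodgeL L l = true)
    (hodd : Odd (parity T (ms L l))) : Avail (fun p : relPrimes m => nn p.1) M base S := by
  have hT : T ⊆ relPrimes m := by
    rw [← hS]
    intro p hp
    rw [mem_map] at hp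
    obtain ⟨q, _, rfl⟩ := hp
    exact q.2
  have hLm : L ∣ m := by rw [← hL]; exact lev_dvd m hT
  have hL'M : L' ∣ M := by
    rw [← hd]
    rcases hd2 with rfl | ⟨rfl, ho⟩
    · rw [one_mul]; exact hLm.trans hmM
    · apply Nat.Coprime.mul_dvd_of_dvd_of_dvd _ hM2 (hLm.trans hmM)
      rw [Nat.coprime_two_left]; exact ho
  obtain ⟨k, hk⟩ := hL'M
  exact avail_bridge S hS hL (ms L l) (hodgeL_sound hl) hodd
    (avail_cert hfull (by rw [mul_comm]; exact hk.symm) hd hbase _ (hodgeL_sound hl))

lemma known_avail {m M : ℕ} [NeZero M] (hM2 : 2 ∣ M) (hmM : m ∣ M)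
    {base : Multiset (ZMod M) → Prop} (hbase : ∀ s, SurfaceOrCurveProduct M s → base s)
    (S : Finset (relPrimes m)) (hS : S.map ⟨Subtype.val, Subtype.val_injective⟩ ∈ KnownPairs) :
    Avail (fun p : relPrimes m => nn p.1) M base S := by
  simp only [KnownPairs, mem_insert, mem_singleton] at hS
  rcases hS with h | h | h | h | h | h | h | h | h | h | h | h
  · exact cert_case hM2 hmM hbase S h (L := 12) (L' := 12) (d := 1) (by decide) (by decide)
      (Or.inl rfl) (.of_full surf full_12) [1, 6, 8, 9] (by decide +kernel) (by decide +kernel)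
  · exact cert_case hM2 hmM hbase S h (L := 20) (L' := 20) (d := 1) (by decide) (by decide)
      (Or.inl rfl) (.of_full surf full_20) [1, 10, 12, 17] (by decide +kernel) (by decide +kernel)
  · exact cert_case hM2 hmM hbase S h (L := 15) (L' := 30) (d := 2) (by decide) (by decide)
      (Or.inr ⟨rfl, by decide⟩) (.of_full surf full_30) [1, 7, 10, 12] (by decide +kernel)
      (by decide +kernel)
  · exact cert_case hM2 hmM hbase S h (L := 28) (L' := 28) (d := 1) (by decide) (by decide)
      (Or.inl rfl) (.of_full surf full_28) [1, 9, 16, 17, 20, 21] (by decide +kernel)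
      (by decide +kernel)
  · exact cert_case hM2 hmM hbase S h (L := 21) (L' := 42) (d := 2) (by decide) (by decide)
      (Or.inr ⟨rfl, by decide⟩) (.of_full surf full_42) [1, 10, 15, 16] (by decide +kernel)
      (by decide +kernel)
  · exact cert_case hM2 hmM hbase S h (L := 35) (L' := 70) (d := 2) (by decide) (by decide)
      (Or.inr ⟨rfl, by decide⟩) full_70 [1, 2, 16, 17, 21, 22, 30, 31] (by decide +kernel)
      (by decide +kernel)
  · exact cert_case hM2 hmM hbase S h (L := 44) (L' := 44) (d := 1) (by decide) (by decide)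
      (Or.inl rfl) full_44 [1, 5, 13, 22, 24, 25, 28, 32, 33, 37] (by decide +kernel)
      (by decide +kernel)
  · exact cert_case hM2 hmM hbase S h (L := 33) (L' := 66) (d := 2) (by decide) (by decide)
      (Or.inr ⟨rfl, by decide⟩) (.of_full surf full_66) [1, 4, 13, 16, 22, 24, 25, 27]
      (by decide +kernel) (by decide +kernel)
  · exact cert_case hM2 hmM hbase S h (L := 52) (L' := 52) (d := 1) (by decide) (by decide)
      (Or.inl rfl) full_52 [1, 5, 17, 26, 28, 29, 32, 36, 41, 45] (by decide +kernel)
      (by decide +kernel)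
  · exact cert_case hM2 hmM hbase S h (L := 39) (L' := 78) (d := 2) (by decide) (by decide)
      (Or.inr ⟨rfl, by decide⟩) (.of_full surf full_78) [1, 4, 16, 19, 27, 28, 30, 31]
      (by decide +kernel) (by decide +kernel)
  · exact cert_case hM2 hmM hbase S h (L := 51) (L' := 102) (d := 2) (by decide) (by decide)
      (Or.inr ⟨rfl, by decide⟩) full_102 [1, 4, 7, 19, 22, 25, 34, 36, 37, 39, 40, 42]
      (by decide +kernel) (by decide +kernel)
  · exact cert_case hM2 hmM hbase S h (L := 57) (L' := 114) (d := 2) (by decide) (by decide)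
      (Or.inr ⟨rfl, by decide⟩) full_114 [1, 4, 7, 22, 25, 28, 39, 40, 42, 43, 45, 46]
      (by decide +kernel) (by decide +kernel)

end Pool.Agent.J4.H26
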