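import Pool.Agent.J4.H26.Known

/-!
The class of odd parity for a pair of primes.
-/

set_option autoImplicit false

namespace Pool.Agent.J4.H26

open Finset Function Pool.Agent.H916R2 Pool.Agent.Y2.Cv

set_option linter.unusedSectionVars false

section half

open scoped Classical in
/-- the half system of the units with small representatives -/
noncomputable def Hf (N : ℕ) [NeZero N] : Finset (ZMod N) := (Uf N).filter fun z => 2 * z.val < N

lemma mem_Hf {N : ℕ} [NeZero N] {z : ZMod N} : z ∈ Hf N ↔ IsUnit z ∧ 2 * z.val < N := by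
  simp [Hf, Uf]

lemma Hf_neg {N : ℕ} [NeZero N] (hN : N = 4 ∨ (N.Prime ∧ N ≠ 2)) {z : ZMod N} (hz : IsUnit z) :
    (z ∈ Hf N ↔ -z ∉ Hf N) := by
  have h1 : z ≠ -z := ne_neg_of_unit hN hz
  have hz0 : z ≠ 0 := by
    rintro rfl
    exact h1 (by simp)
  have h2 : (-z).val = N - z.val := by
    rw [ZMod.neg_val, if_neg hz0]
  have h3 : z.val < N := ZMod.val_lt z
  have h4 : 2 * z.val ≠ N := by
    intro h
    apply h1
    apply ZMod.val_injective
    rw [h2]; omega
  rw [mem_Hf, mem_Hf, h2]
  constructor
  · rintro ⟨_, h⟩ ⟨_, h'⟩; omega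
  · intro h
    refine ⟨hz, ?_⟩
    by_contra h'
    exact h ⟨hz.neg, by omega⟩

lemma sum_Uf {N : ℕ} [NeZero N] (hN : N = 4 ∨ (N.Prime ∧ N ≠ 2)) {Q : Type*} [AddCommGroup Q]
    (f : ZMod N → Q) : ∑ z ∈ Uf N, f z = ∑ z ∈ Hf N, (f z + f (-z)) := by
  classical
  rw [sum_add_distrib, ← sum_filter_add_sum_filter_not (Uf N) (fun z => z ∈ Hf N)]
  congr 1
  · apply sum_congr _ fun _ _ => rfl
    ext z
    rw [mem_filter]
    constructor
    · exact fun h => h.2
    · intro h
      exact ⟨(mem_filter.mp (show z ∈ (Uf N).filter fun z => 2 * z.val < N from h)).1, h⟩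
  · refine sum_bij' (fun z _ => -z) (fun z _ => -z) ?_ ?_ ?_ ?_ ?_
    · intro z hz
      have h := mem_filter.mp hz
      have hu : IsUnit z := by simpa [Uf] using h.1
      rw [Hf_neg hN hu.neg, neg_neg]; exact h.2
    · intro z hz
      have hu := (mem_Hf.mp hz).1
      rw [mem_filter]
      refine ⟨by simp [Uf, hu.neg], ?_⟩
      exact (Hf_neg hN hu).mp hz
    · intro z _; exact neg_neg z
    · intro z _; exact neg_neg z
    · intro z _; rw [neg_neg]

open scoped Classical in
/-- multiplication of the half system by a unit -/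
lemma sum_mul_unit {N : ℕ} [NeZero N] (hN : N = 4 ∨ (N.Prime ∧ N ≠ 2)) {Q : Type*} [AddCommGroup Q]
    (f : ZMod N → Q) (hf : ∀ z, f (-z) = - f z) (u : (ZMod N)ˣ) :
    ∑ z ∈ Hf N, f ((u : ZMod N) * z) =
      ∑ z ∈ Hf N, (if ((u⁻¹ : (ZMod N)ˣ) : ZMod N) * z ∈ Hf N then (1 : ℤ) else -1) • f z := by
  -- `w = u z` or `w = - u z`
  have key : ∀ z ∈ Hf N, (u : ZMod N) * z ∈ Hf N ∨ -((u : ZMod N) * z) ∈ Hf N := by
    intro z hz
    have hu : IsUnit ((u : ZMod N) * z) := u.isUnit.mul (mem_Hf.mp hz).1
    by_cases h : (u : ZMod N) * z ∈ Hf N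
    · exact Or.inl h
    · right
      by_contra h'
      exact h ((Hf_neg hN hu).mpr h')
  refine sum_bij' (fun z _ => if (u : ZMod N) * z ∈ Hf N then (u : ZMod N) * z else -((u : ZMod N) * z))
    (fun w _ => if ((u⁻¹ : (ZMod N)ˣ) : ZMod N) * w ∈ Hf N then ((u⁻¹ : (ZMod N)ˣ) : ZMod N) * w
      else -(((u⁻¹ : (ZMod N)ˣ) : ZMod N) * w)) ?_ ?_ ?_ ?_ ?_
  · intro z hz
    by_cases h : (u : ZMod N) * z ∈ Hf N
    · simp only [if_pos h]; exact h
    · simp only [if_neg h]; exact (key z hz).resolve_left h
  · intro w hw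
    have hu : IsUnit (((u⁻¹ : (ZMod N)ˣ) : ZMod N) * w) := (u⁻¹).isUnit.mul (mem_Hf.mp hw).1
    by_cases h : ((u⁻¹ : (ZMod N)ˣ) : ZMod N) * w ∈ Hf N
    · simp only [if_pos h]; exact h
    · simp only [if_neg h]
      by_contra h'
      exact h ((Hf_neg hN hu).mpr h')
  · intro z hz
    have hzz : z ∈ Hf N ↔ -z ∉ Hf N := Hf_neg hN (mem_Hf.mp hz).1
    by_cases h : (u : ZMod N) * z ∈ Hf N
    · simp only [if_pos h, Units.inv_mul_cancel_left, if_pos hz]
    · simp only [if_neg h, mul_neg, Units.inv_mul_cancel_left, neg_neg]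
      rw [if_neg (hzz.mp hz)]
  · intro w hw
    have hww : w ∈ Hf N ↔ -w ∉ Hf N := Hf_neg hN (mem_Hf.mp hw).1
    by_cases h : ((u⁻¹ : (ZMod N)ˣ) : ZMod N) * w ∈ Hf N
    · simp only [if_pos h, Units.mul_inv_cancel_left, if_pos hw]
    · simp only [if_neg h, mul_neg, Units.mul_inv_cancel_left, neg_neg]
      rw [if_neg (hww.mp hw)]
  · intro z hz
    have hzz : z ∈ Hf N ↔ -z ∉ Hf N := Hf_neg hN (mem_Hf.mp hz).1
    by_cases h : (u : ZMod N) * z ∈ Hf N
    · simp only [if_pos h, Units.inv_mul_cancel_left, if_pos hz, one_smul]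
    · simp only [if_neg h, mul_neg, Units.inv_mul_cancel_left]
      rw [if_neg (hzz.mp hz), hf]; simp

end half

variable {ι : Type} [Fintype ι] [DecidableEq ι] {n : ι → ℕ} [∀ i, NeZero (n i)]
  {Q : Type*} [AddCommGroup Q] {c : (∀ i, ZMod (n i)) → Q}

/-- the second multiplier -/
def sg (N : ℕ) : ℕ := if N = 4 then 2 else 1

lemma sum_units_eq (hn : Moduli n) (hc : CDist c) (a : ∀ i, ZMod (n i)) (i : ι)
    (ha : IsUnit (a i)) : ∑ z ∈ Uf (n i), c (update a i z) =
      c (((n i : ℕ) : ∀ i, ZMod (n i)) * update a i 0) -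
        c (((sg (n i) : ℕ) : ∀ i, ZMod (n i)) * update a i 0) := by
  rcases hn.mod i with h4 | ⟨hp, h2⟩
  · have hs : sg (n i) = 2 := by simp [sg, h4]
    have e1 := hc.four i h4 (update a i 1)
    have e2 := hc.four i h4 (2 * update a i 0)
    have e3 : update (update a i 1) i ((update a i 1) i + 2) = update a i 3 := by
      rw [update_idem, update_self]
      congr 1
      norm_num
    have e4 : update ((2 : ∀ i, ZMod (n i)) * update a i 0) i
        (((2 : ∀ i, ZMod (n i)) * update a i 0) i + 2) = 2 * update a i 1 := by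
      funext j
      by_cases h : j = i
      · subst h
        rw [update_self, Pi.mul_apply, Pi.mul_apply, update_self, update_self]
        simp
      · rw [update_of_ne h, Pi.mul_apply, Pi.mul_apply, update_of_ne h, update_of_ne h]
    rw [e3] at e1
    rw [e4] at e2
    have hsum : ∑ z ∈ Uf (n i), c (update a i z) = c (update a i 1) + c (update a i 3) := by
      rw [four_cases h4, sum_pair (four_one_ne_three h4)]
    have hcast : ((n i : ℕ) : ∀ i, ZMod (n i)) = 2 * 2 := by
      have := congrArg (fun k : ℕ => (k : ∀ i, ZMod (n i))) h4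
      rw [this]; push_cast; norm_num
    rw [hsum, e1, eq_sub_of_add_eq' e2, hs, hcast, mul_assoc]
    push_cast
    rfl
  · have : Fact (n i).Prime := ⟨hp⟩
    have hs : sg (n i) = 1 := by
      unfold sg
      rw [if_neg]
      intro h4
      rw [h4] at hp
      exact absurd hp (by norm_num)
    have hsplit : ∑ z : ZMod (n i), c (update a i z) =
        c (update a i 0) + ∑ z ∈ Uf (n i), c (update a i z) := by
      have hU : Uf (n i) = univ.erase (0 : ZMod (n i)) := by
        ext z
        simp only [Uf, mem_filter, mem_univ, true_and, mem_erase, and_true]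
        exact isUnit_iff_ne_zero
      rw [hU, add_sum_erase univ (fun z => c (update a i z)) (mem_univ _)]
    have h1 := hc.odd i hp a
    rw [hsplit] at h1
    rw [eq_sub_of_add_eq' h1, hs, Nat.cast_one, one_mul]
    congr 2
    funext j
    rw [Pi.mul_apply, Pi.mul_apply, Pi.natCast_apply]
    by_cases h : j = i
    · subst h; simp
    · rw [update_of_ne h]

/-- the element with coordinates `z` at `i` and `y` at `j` -/
def el (i j : ι) (z : ZMod (n i)) (y : ZMod (n j)) : ∀ i, ZMod (n i) :=
  update (update (0 : ∀ i, ZMod (n i)) i z) j y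

lemma el_j {i j : ι} (z : ZMod (n i)) (y : ZMod (n j)) :
    el i j z y = update (el i j z 1) j y := by
  unfold el; rw [update_idem]

lemma el_i {i j : ι} (hij : i ≠ j) (z : ZMod (n i)) (y : ZMod (n j)) :
    el i j z y = update (el i j 1 y) i z := by
  unfold el
  rw [update_comm hij, update_comm hij, update_idem]

lemma el_neg {i j : ι} (hij : i ≠ j) (z : ZMod (n i)) (y : ZMod (n j)) :
    el i j (-z) (-y) = -el i j z y := by
  funext k
  unfold el
  by_cases h : k = j
  · subst h; simp
  · by_cases h' : k = i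
    · subst h'
      rw [update_of_ne h, update_self, Pi.neg_apply, update_of_ne h, update_self]
    · rw [update_of_ne h, update_of_ne h', Pi.neg_apply, update_of_ne h, update_of_ne h']
      simp

lemma mul_update_zero (u : ℕ) (i j : ι) (hij : i ≠ j) (z : ZMod (n i)) :
    (((u : ℕ) : ∀ i, ZMod (n i)) * update (el i j z (1 : ZMod (n j))) j 0) =
      update (0 : ∀ i, ZMod (n i)) i ((u : ZMod (n i)) * z) := by
  funext k
  unfold el
  rw [update_idem, Pi.mul_apply, Pi.natCast_apply]
  by_cases h : k = j
  · subst h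
    rw [update_self, update_of_ne (Ne.symm hij)]; simp
  · rw [update_of_ne h]
    by_cases h' : k = i
    · subst h'; rw [update_self, update_self]
    · rw [update_of_ne h', update_of_ne h']; simp

lemma mul_update_zero' (u : ℕ) (i j : ι) (hij : i ≠ j) (y : ZMod (n j)) :
    (((u : ℕ) : ∀ i, ZMod (n i)) * update (el i j (1 : ZMod (n i)) y) i 0) =
      update (0 : ∀ i, ZMod (n i)) j ((u : ZMod (n j)) * y) := by
  funext k
  unfold el
  rw [update_comm hij, update_idem, Pi.mul_apply, Pi.natCast_apply]
  by_cases h : k = j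
  · subst h
    rw [update_of_ne (Ne.symm hij), update_self, update_self]
  · by_cases h' : k = i
    · subst h'; rw [update_self, update_of_ne h]; simp
    · rw [update_of_ne h', update_of_ne h, update_of_ne h]; simp

/-- **The relation of a pair of primes.** -/
theorem pair_rel (hn : Moduli n) (hc : CDist c) {i j : ι} (hij : i ≠ j) :
    (2 : ℤ) • ∑ z ∈ Hf (n i), ∑ y ∈ Hf (n j), c (el i j z y) =
      (∑ z ∈ Hf (n i), (c (update 0 i ((n j : ZMod (n i)) * z)) -
        c (update 0 i ((sg (n j) : ZMod (n i)) * z)))) +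
      ∑ y ∈ Hf (n j), (c (update 0 j ((n i : ZMod (n j)) * y)) -
        c (update 0 j ((sg (n i) : ZMod (n j)) * y))) := by
  have hu1 : ∀ (z : ZMod (n i)) (y : ZMod (n j)), el i j z y j = y := fun z y => by
    unfold el; rw [update_self]
  have hu2 : ∀ (z : ZMod (n i)) (y : ZMod (n j)), el i j z y i = z := fun z y => by
    unfold el; rw [update_of_ne hij, update_self]
  have h1 : ∑ z ∈ Hf (n i), ∑ y ∈ Hf (n j), (c (el i j z y) + c (el i j z (-y))) =
      ∑ z ∈ Hf (n i), (c (update 0 i ((n j : ZMod (n i)) * z)) -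
        c (update 0 i ((sg (n j) : ZMod (n i)) * z))) := by
    refine sum_congr rfl fun z _ => ?_
    rw [← sum_Uf (hn.mod j) (fun y => c (el i j z y))]
    have h2 := sum_units_eq hn hc (el i j z (1 : ZMod (n j))) j (by rw [hu1]; exact isUnit_one)
    rw [mul_update_zero _ i j hij, mul_update_zero _ i j hij] at h2
    rw [← h2]
    exact sum_congr rfl fun y _ => by rw [el_j]
  have h2 : ∑ y ∈ Hf (n j), ∑ z ∈ Hf (n i), (c (el i j z (-y)) + c (el i j (-z) (-y))) =
      -∑ y ∈ Hf (n j), (c (update 0 j ((n i : ZMod (n j)) * y)) -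
        c (update 0 j ((sg (n i) : ZMod (n j)) * y))) := by
    rw [← sum_neg_distrib]
    refine sum_congr rfl fun y _ => ?_
    rw [← sum_Uf (hn.mod i) (fun z => c (el i j z (-y)))]
    have h3 := sum_units_eq hn hc (el i j (1 : ZMod (n i)) (-y)) i (by rw [hu2]; exact isUnit_one)
    rw [mul_update_zero' _ i j hij, mul_update_zero' _ i j hij] at h3
    have hneg : ∀ w : ZMod (n j), c (update 0 j (-w)) = - c (update 0 j w) := by
      intro w
      rw [← hc.neg]
      congr 1
      funext k
      by_cases h : k = j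
      · subst h; simp
      · rw [update_of_ne h, Pi.neg_apply, update_of_ne h]; simp
    rw [mul_neg, mul_neg, hneg, hneg] at h3
    have h4 : ∑ z ∈ Uf (n i), c (el i j z (-y)) = ∑ z ∈ Uf (n i), c (update (el i j 1 (-y)) i z) :=
      sum_congr rfl fun z _ => by rw [el_i hij]
    rw [h4, h3]; abel
  have h3 : ∑ y ∈ Hf (n j), ∑ z ∈ Hf (n i), (c (el i j z (-y)) + c (el i j (-z) (-y))) =
      ∑ z ∈ Hf (n i), ∑ y ∈ Hf (n j), (c (el i j z (-y)) - c (el i j z y)) := by
    rw [sum_comm]
    refine sum_congr rfl fun z _ => sum_congr rfl fun y _ => ?_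
    rw [el_neg hij, hc.neg, sub_eq_add_neg]
  rw [h3] at h2
  have h4 := congrArg₂ (fun x y : Q => x - y) h1 h2
  rw [sub_neg_eq_add] at h4
  rw [← h4, ← sum_sub_distrib, smul_sum]
  refine sum_congr rfl fun z _ => ?_
  rw [← sum_sub_distrib, smul_sum]
  refine sum_congr rfl fun y _ => ?_
  rw [two_smul]; abel

lemma sg_unit (hn : Moduli n) {i j : ι} (hij : i ≠ j) : IsUnit (sg (n j) : ZMod (n i)) := by
  unfold sg
  split_ifs with h4
  · exact two_unit hn h4 hij
  · simp

open scoped Classical in
/-- half the difference of two signs -/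
noncomputable def eta {N : ℕ} [NeZero N] (u v : (ZMod N)ˣ) (z : ZMod N) : ℤ :=
  if ((u⁻¹ : (ZMod N)ˣ) : ZMod N) * z ∈ Hf N then
    (if ((v⁻¹ : (ZMod N)ˣ) : ZMod N) * z ∈ Hf N then 0 else 1)
  else (if ((v⁻¹ : (ZMod N)ˣ) : ZMod N) * z ∈ Hf N then -1 else 0)

lemma sum_eta {N : ℕ} [NeZero N] (hN : N = 4 ∨ (N.Prime ∧ N ≠ 2)) {Q : Type*} [AddCommGroup Q]
    (f : ZMod N → Q) (hf : ∀ z, f (-z) = - f z) (u v : (ZMod N)ˣ) :
    ∑ z ∈ Hf N, (f ((u : ZMod N) * z) - f ((v : ZMod N) * z)) =
      (2 : ℤ) • ∑ z ∈ Hf N, eta u v z • f z := by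
  classical
  rw [sum_sub_distrib, sum_mul_unit hN f hf u, sum_mul_unit hN f hf v, ← sum_sub_distrib, smul_sum]
  refine sum_congr rfl fun z _ => ?_
  rw [← sub_smul, ← mul_smul]
  congr 1
  unfold eta
  split_ifs <;> norm_num

/-- the coefficients of the relation of a pair -/
noncomputable def xx (hn : Moduli n) {i j : ι} (hij : i ≠ j) (a : ∀ i, ZMod (n i)) : ℤ :=
  (∑ z ∈ Hf (n i), ∑ y ∈ Hf (n j), if a = el i j z y then 1 else 0) -
    (∑ z ∈ Hf (n i), if a = update (0 : ∀ i, ZMod (n i)) i z then
      eta (prime_unit hn hij).unit (sg_unit hn hij).unit z else 0) -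
    ∑ y ∈ Hf (n j), if a = update (0 : ∀ i, ZMod (n i)) j y then
      eta (prime_unit hn hij.symm).unit (sg_unit hn hij.symm).unit y else 0

lemma sum_xx (hn : Moduli n) {i j : ι} (hij : i ≠ j) (c : (∀ i, ZMod (n i)) → Q) :
    ∑ a, xx hn hij a • c a = (∑ z ∈ Hf (n i), ∑ y ∈ Hf (n j), c (el i j z y)) -
      (∑ z ∈ Hf (n i), eta (prime_unit hn hij).unit (sg_unit hn hij).unit z •
        c (update (0 : ∀ i, ZMod (n i)) i z)) -
      ∑ y ∈ Hf (n j), eta (prime_unit hn hij.symm).unit (sg_unit hn hij.symm).unit y •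
        c (update (0 : ∀ i, ZMod (n i)) j y) := by
  have h1 : ∀ a, xx hn hij a • c a =
      (∑ z ∈ Hf (n i), ∑ y ∈ Hf (n j), if a = el i j z y then c a else 0) -
      (∑ z ∈ Hf (n i), if a = update (0 : ∀ i, ZMod (n i)) i z then
        eta (prime_unit hn hij).unit (sg_unit hn hij).unit z • c a else 0) -
      ∑ y ∈ Hf (n j), if a = update (0 : ∀ i, ZMod (n i)) j y then
        eta (prime_unit hn hij.symm).unit (sg_unit hn hij.symm).unit y • c a else 0 := by
    intro a
    unfold xx
    rw [sub_smul, sub_smul, sum_smul, sum_smul, sum_smul]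
    congr 1
    · congr 1
      · refine sum_congr rfl fun z _ => ?_
        rw [sum_smul]
        refine sum_congr rfl fun y _ => ?_
        split_ifs <;> simp
      · refine sum_congr rfl fun z _ => ?_
        split_ifs <;> simp
    · refine sum_congr rfl fun y _ => ?_
      split_ifs <;> simp
  rw [sum_congr rfl fun a _ => h1 a, sum_sub_distrib, sum_sub_distrib]
  congr 1
  · congr 1
    · rw [sum_comm]
      refine sum_congr rfl fun z _ => ?_
      rw [sum_comm]
      refine sum_congr rfl fun y _ => ?_
      rw [Finset.sum_ite_eq' univ (el i j z y), if_pos (mem_univ _)]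
    · rw [sum_comm]
      refine sum_congr rfl fun z _ => ?_
      rw [Finset.sum_ite_eq' univ (update (0 : ∀ i, ZMod (n i)) i z), if_pos (mem_univ _)]
  · rw [sum_comm]
    refine sum_congr rfl fun z _ => ?_
    rw [Finset.sum_ite_eq' univ (update (0 : ∀ i, ZMod (n i)) j z), if_pos (mem_univ _)]

lemma update_zero_neg (hc : CDist c) (i : ι) (z : ZMod (n i)) :
    c (update (0 : ∀ i, ZMod (n i)) i (-z)) = - c (update (0 : ∀ i, ZMod (n i)) i z) := by
  rw [← hc.neg]
  congr 1
  funext k
  by_cases h : k = i
  · subst h; simp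
  · rw [update_of_ne h, Pi.neg_apply, update_of_ne h]; simp

/-- twice the class of a pair is zero -/
theorem two_xx (hn : Moduli n) (hc : CDist c) {i j : ι} (hij : i ≠ j) :
    (2 : ℤ) • ∑ a, xx hn hij a • c a = 0 := by
  have h1 := pair_rel hn hc hij
  have h2 := sum_eta (hn.mod i) (fun z => c (update (0 : ∀ i, ZMod (n i)) i z))
    (fun z => update_zero_neg hc i z) (prime_unit hn hij).unit (sg_unit hn hij).unit
  have h3 := sum_eta (hn.mod j) (fun z => c (update (0 : ∀ i, ZMod (n i)) j z))
    (fun z => update_zero_neg hc j z) (prime_unit hn hij.symm).unit (sg_unit hn hij.symm).unit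
  simp only [IsUnit.unit_spec] at h2 h3
  rw [h2, h3] at h1
  rw [sum_xx, smul_sub, smul_sub, h1]
  abel

/-- from coordinates to residues -/
lemma odd_of_cdist (hn : Moduli n) (hc : CDist c) (hhalf : ∀ a, a + a = 0 → c a = 0) :
    OddDist (fun b : ZMod (∏ i, n i) => c (crt hn b)) where
  neg := fun a => by rw [map_neg, hc.neg]
  half := fun a ha => by
    apply hhalf
    rw [← map_add, ha, map_zero]
  dist := fun p d hp hpd a => by
    have hpn : p ∣ ∏ i, n i := Dvd.intro d hpd
    obtain ⟨i, -, hi⟩ := (Prime.dvd_finsetProd_iff hp.prime n).mp hpn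
    rcases hn.mod i with h4 | ⟨hpi, h2⟩
    · have hp2 : p = 2 := by
        rw [h4] at hi
        have : p ∣ 2 ^ 2 := by norm_num; exact hi
        exact (Nat.prime_dvd_prime_iff_eq hp Nat.prime_two).mp (hp.dvd_of_dvd_pow this)
      subst hp2
      have hpd1 : n i * ∏ j ∈ univ.erase i, n j = ∏ i, n i := mul_prod_erase univ n (mem_univ i)
      have hd : d = 2 * ∏ j ∈ univ.erase i, n j := by
        rw [← hpd1, h4] at hpd; omega
      rw [sum_range_succ, sum_range_one, Nat.cast_zero, zero_mul, add_zero, Nat.cast_one, one_mul]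
      have h1 : crt hn (a + (d : ZMod (∏ i, n i))) = update (crt hn a) i (crt hn a i + 2) := by
        rw [map_add]
        funext k
        rw [Pi.add_apply, crt_natCast]
        by_cases h : k = i
        · subst h
          rw [update_self]
          congr 1
          have hcop : Nat.Coprime (∏ j ∈ univ.erase k, n j) (n k) := by
            apply Nat.Coprime.prod_left
            intro j hj
            exact hn.cop j k (mem_erase.mp hj).1
          have hdu : IsUnit ((∏ j ∈ univ.erase k, n j : ℕ) : ZMod (n k)) := by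
            rw [ZMod.isUnit_iff_coprime]; exact hcop
          rw [hd]
          push_cast at hdu ⊢
          exact four_two_mul h4 hdu
        · rw [update_of_ne h]
          have : (d : ZMod (n k)) = 0 := by
            rw [ZMod.natCast_eq_zero_iff, hd]
            exact (dvd_prod_of_mem n (mem_erase.mpr ⟨h, mem_univ k⟩)).mul_left 2
          rw [this, add_zero]
      have h3 : crt hn (((2 : ℕ) : ZMod (∏ i, n i)) * a) = 2 * crt hn a := by
        rw [map_mul, map_natCast]; rfl
      rw [h1, h3]
      exact hc.four i h4 _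
    · have hpi' : p = n i := (Nat.prime_dvd_prime_iff_eq hp hpi).mp hi
      subst hpi'
      have hpd1 : n i * ∏ j ∈ univ.erase i, n j = ∏ i, n i := mul_prod_erase univ n (mem_univ i)
      have hd : d = ∏ j ∈ univ.erase i, n j :=
        Nat.eq_of_mul_eq_mul_left hp.pos (hpd.trans hpd1.symm)
      have hdu : IsUnit (d : ZMod (n i)) := by
        rw [ZMod.isUnit_iff_coprime, hd]
        apply Nat.Coprime.prod_left
        intro j hj
        exact hn.cop j i (mem_erase.mp hj).1
      have h1 : ∀ l : ℕ, crt hn (a + (l : ZMod (∏ i, n i)) * (d : ZMod (∏ i, n i))) =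
          update (crt hn a) i (crt hn a i + (l : ZMod (n i)) * (d : ZMod (n i))) := by
        intro l
        rw [map_add, map_mul]
        funext k
        rw [Pi.add_apply, Pi.mul_apply, crt_natCast, crt_natCast]
        by_cases h : k = i
        · subst h; rw [update_self]
        · rw [update_of_ne h]
          have : (d : ZMod (n k)) = 0 := by
            rw [ZMod.natCast_eq_zero_iff, hd]
            exact dvd_prod_of_mem n (mem_erase.mpr ⟨h, mem_univ k⟩)
          rw [this, mul_zero, add_zero]
      have h3 : crt hn ((n i : ZMod (∏ i, n i)) * a) = ((n i : ℕ) : ∀ i, ZMod (n i)) * crt hn a := by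
        rw [map_mul, map_natCast]
      rw [h3, ← hc.odd i hp, sum_congr rfl fun l _ => by rw [h1 l]]
      exact sum_affine (fun z => c (update (crt hn a) i z)) (crt hn a i) (d : ZMod (n i)) hdu

open scoped Classical in
/-- the parity -/
noncomputable def dl (n : ι → ℕ) (a : ∀ i, ZMod (n i)) : ZMod 2 :=
  if ∀ k, a k = 1 ∨ a k = -1 then 1 else 0

lemma z2_neg (x : ZMod 2) : -x = x := by revert x; decide

lemma z2_add (x : ZMod 2) : x + x = 0 := by revert x; decide

lemma not_pm {N : ℕ} (_ : N = 4 ∨ (N.Prime ∧ N ≠ 2)) {z : ZMod N} (h : z = 1 ∨ z = -1) :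
    IsUnit z := by
  rcases h with rfl | rfl
  · exact isUnit_one
  · exact isUnit_one.neg

lemma dl_cdist [Nonempty ι] (hn : Moduli n) : CDist (dl n) where
  neg := fun a => by
    rw [z2_neg]
    unfold dl
    congr 1
    rw [eq_iff_iff]
    refine forall_congr' fun k => ?_
    rw [Pi.neg_apply, neg_eq_iff_eq_neg, neg_inj]
    exact or_comm
  zero := by
    unfold dl
    rw [if_neg]
    intro h
    have i := Classical.arbitrary ι
    have := nontriv hn i
    exact not_isUnit_zero (not_pm (hn.mod i) (h i))
  odd := fun i hp a => by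
    have hF : Fact (n i).Prime := ⟨hp⟩
    have h4 : n i ≠ 4 := by
      intro h4; rw [h4] at hp; exact absurd hp (by norm_num)
    have hne : (1 : ZMod (n i)) ≠ -1 := ne_neg_of_unit (hn.mod i) isUnit_one
    have hr : dl n (((n i : ℕ) : ∀ i, ZMod (n i)) * a) = 0 := by
      unfold dl
      rw [if_neg]
      intro h
      have h1 := h i
      rw [Pi.mul_apply, Pi.natCast_apply] at h1
      have h2 := not_pm (hn.mod i) h1
      simp at h2
    rw [hr]
    by_cases hoth : ∀ k, k ≠ i → (a k = 1 ∨ a k = -1)
    · have h1 : ∀ z : ZMod (n i), dl n (update a i z) = if z = 1 ∨ z = -1 then 1 else 0 := by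
        intro z
        unfold dl
        congr 1
        rw [eq_iff_iff]
        constructor
        · intro h
          have := h i
          rwa [update_self] at this
        · intro h k
          by_cases hk : k = i
          · subst hk; rw [update_self]; exact h
          · rw [update_of_ne hk]; exact hoth k hk
      rw [sum_congr rfl fun z _ => h1 z, ← sum_filter]
      have h2 : (univ.filter fun z : ZMod (n i) => z = 1 ∨ z = -1) = {1, -1} := by
        ext z; simp
      rw [h2, sum_pair hne]
      decide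
    · apply sum_eq_zero
      intro z _
      unfold dl
      rw [if_neg]
      intro h
      apply hoth
      intro k hk
      have := h k
      rwa [update_of_ne hk] at this
  four := fun i h4 a => by
    have hr : dl n (2 * a) = 0 := by
      unfold dl
      rw [if_neg]
      intro h
      have h1 := h i
      rw [Pi.mul_apply] at h1
      have h2 := not_pm (hn.mod i) h1
      have h3 : ∀ {N : ℕ} (_ : N = 4) (z : ZMod N), ¬ IsUnit (2 * z) := by
        intro N hN z
        subst hN
        revert z; decide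
      exact h3 h4 (a i) h2
    rw [hr]
    have h1 : dl n (update a i (a i + 2)) = dl n a := by
      unfold dl
      congr 1
      rw [eq_iff_iff]
      have h5 : ∀ {N : ℕ} (_ : N = 4) (z : ZMod N), (z + 2 = 1 ∨ z + 2 = -1) ↔ (z = 1 ∨ z = -1) := by
        intro N hN z
        subst hN
        revert z; decide
      constructor
      · intro h k
        by_cases hk : k = i
        · subst hk
          have := h k
          rw [update_self] at this
          exact (h5 h4 (a k)).mp this
        · have := h k
          rwa [update_of_ne hk] at this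
      · intro h k
        by_cases hk : k = i
        · subst hk
          rw [update_self]
          exact (h5 h4 (a k)).mpr (h k)
        · rw [update_of_ne hk]; exact h k
    rw [h1, z2_add]

lemma one_mem_Hf {N : ℕ} [NeZero N] (hN : 3 ≤ N) : (1 : ZMod N) ∈ Hf N := by
  rw [mem_Hf]
  refine ⟨isUnit_one, ?_⟩
  have : Fact (1 < N) := ⟨by omega⟩
  rw [ZMod.val_one]
  omega

/-- **Existence of the class of odd parity for a pair of primes.** -/
theorem pair_exists (hn : Moduli n) {i j : ι} (hij : i ≠ j) (huniv : ∀ k, k = i ∨ k = j) :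
    ∃ s0 : Multiset (ZMod (∏ i, n i)), IsHodge (∏ i, n i) s0 ∧
      Odd (Multiset.card (s0.filter fun b => ∀ k, b.val % n k = 1 ∨ b.val % n k = n k - 1)) := by
  classical
  have hι : Nonempty ι := ⟨i⟩
  have htr : ∀ (R : Type) [AddCommGroup R] (c : ZMod (∏ i, n i) → R),
      ∑ b, xx hn hij (crt hn b) • c b = ∑ a, xx hn hij a • tc hn c a := by
    intro R _ c
    have := Equiv.sum_comp (crt hn).toEquiv (fun a => xx hn hij a • tc hn c a)
    rw [← this]
    refine sum_congr rfl fun b _ => ?_
    unfold tc
    change _ = xx hn hij (crt hn b) • c ((crt hn).symm (crt hn b))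
    rw [RingEquiv.symm_apply_apply]
  have hrel : Rel (fun b => xx hn hij (crt hn b)) := by
    intro t
    have hs : OddDist (fun a : ZMod (∏ i, n i) => saw ((t : ZMod (∏ i, n i)) * a)) := by
      constructor
      · intro a; simp only [mul_neg, saw_neg]
      · intro a ha
        apply saw_half
        rw [← mul_add, ha, mul_zero]
      · intro p d' _ hpd a
        exact saw_dist_unit hpd t a
    have h1 := two_xx hn (tc_cdist hn hs) hij
    rw [← htr] at h1
    simp only [smul_eq_mul] at h1
    change ∑ a, xx hn hij (crt hn a) * saw ((t : ZMod (∏ i, n i)) * a) = 0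
    omega
  obtain ⟨s0, hs0, hval⟩ := exists_hodge _ hrel
  refine ⟨s0, hs0, ?_⟩
  have hdl : OddDist (fun b : ZMod (∏ i, n i) => dl n (crt hn b)) := by
    apply odd_of_cdist hn (dl_cdist hn)
    intro a ha
    unfold dl
    rw [if_neg]
    intro h
    have h1 := congrFun ha i
    rw [Pi.add_apply, Pi.zero_apply] at h1
    exact ne_neg_of_unit (hn.mod i) (not_pm (hn.mod i) (h i)) (eq_neg_of_add_eq_zero_left h1)
  have h1 := hval (ZMod 2) _ hdl
  rw [htr, sum_xx] at h1
  have hdt : ∀ a, tc hn (fun b : ZMod (∏ i, n i) => dl n (crt hn b)) a = dl n a := by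
    intro a
    unfold tc
    change dl n (crt hn ((crt hn).symm a)) = dl n a
    rw [RingEquiv.apply_symm_apply]
  simp only [hdt] at h1
  have hz1 : ∀ z : ZMod (n i), dl n (update (0 : ∀ i, ZMod (n i)) i z) = 0 := by
    intro z
    unfold dl
    rw [if_neg]
    intro h
    have h2 := h j
    rw [update_of_ne (Ne.symm hij)] at h2
    have := nontriv hn j
    exact not_isUnit_zero (not_pm (hn.mod j) h2)
  have hz2 : ∀ z : ZMod (n j), dl n (update (0 : ∀ i, ZMod (n i)) j z) = 0 := by
    intro z
    unfold dl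
    rw [if_neg]
    intro h
    have h2 := h i
    rw [update_of_ne hij] at h2
    have := nontriv hn i
    exact not_isUnit_zero (not_pm (hn.mod i) h2)
  simp only [hz1, hz2, smul_zero, sum_const_zero, sub_zero] at h1
  have h2 : ∑ z ∈ Hf (n i), ∑ y ∈ Hf (n j), dl n (el i j z y) = 1 := by
    have hone : ∀ {k : ι} {z : ZMod (n k)}, z ∈ Hf (n k) → (z = 1 ∨ z = -1) → z = 1 := by
      intro k z hz h
      rcases h with h | h
      · exact h
      · exfalso
        have h3 := (Hf_neg (hn.mod k) (z := (1 : ZMod (n k))) isUnit_one).mp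
          (one_mem_Hf (three_le_n hn k))
        rw [h] at hz
        exact h3 hz
    have hval2 : ∀ z ∈ Hf (n i), ∀ y ∈ Hf (n j),
        dl n (el i j z y) = if z = 1 then (if y = 1 then 1 else 0) else 0 := by
      intro z hz y hy
      unfold dl
      have hiff : (∀ k, el i j z y k = 1 ∨ el i j z y k = -1) ↔ (z = 1 ∧ y = 1) := by
        constructor
        · intro h
          have h3 := h i
          have h4 := h j
          unfold el at h3 h4
          rw [update_of_ne hij, update_self] at h3
          rw [update_self] at h4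
          exact ⟨hone hz h3, hone hy h4⟩
        · rintro ⟨rfl, rfl⟩ k
          unfold el
          rcases huniv k with rfl | rfl
          · rw [update_of_ne hij, update_self]; exact Or.inl rfl
          · rw [update_self]; exact Or.inl rfl
      by_cases hz1 : z = 1
      · by_cases hy1 : y = 1
        · rw [if_pos (hiff.mpr ⟨hz1, hy1⟩), if_pos hz1, if_pos hy1]
        · rw [if_neg (fun h => hy1 (hiff.mp h).2), if_pos hz1, if_neg hy1]
      · rw [if_neg (fun h => hz1 (hiff.mp h).1), if_neg hz1]
    rw [sum_congr rfl fun z hz => sum_congr rfl fun y hy => hval2 z hz y hy,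
      sum_eq_single_of_mem 1 (one_mem_Hf (three_le_n hn i)) (fun z _ hz => by simp [hz])]
    simp only [if_true]
    rw [sum_eq_single_of_mem 1 (one_mem_Hf (three_le_n hn j)) (fun y _ hy => by simp [hy])]
    simp
  rw [h2] at h1
  have h3 : ∀ s : Multiset (ZMod (∏ i, n i)), (s.map fun b => dl n (crt hn b)).sum =
      ((Multiset.card (s.filter fun b => ∀ k, b.val % n k = 1 ∨ b.val % n k = n k - 1) : ℕ) :
        ZMod 2) := by
    intro s
    induction s using Multiset.induction_on with
    | empty => simp
    | cons b s ih =>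
      rw [Multiset.map_cons, Multiset.sum_cons, ih, Multiset.filter_cons, Multiset.card_add]
      push_cast
      congr 1
      have hb : (∀ k, crt hn b k = 1 ∨ crt hn b k = -1) ↔
          ∀ k, b.val % n k = 1 ∨ b.val % n k = n k - 1 := by
        refine forall_congr' fun k => ?_
        rw [← val_mod_iff (three_le_n hn k)]
        have : crt hn b k = (b.val : ZMod (n k)) := by
          conv_lhs => rw [← ZMod.natCast_zmod_val b]
          exact crt_natCast hn _ k
        rw [this]
      unfold dl
      by_cases h : ∀ k, crt hn b k = 1 ∨ crt hn b k = -1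
      · rw [if_pos h, if_pos (hb.mp h)]; simp
      · rw [if_neg h, if_neg (fun h' => h (hb.mpr h'))]; simp
  rw [h3] at h1
  rw [← Nat.not_even_iff_odd]
  intro he
  have h4 := (ZMod.natCast_eq_zero_iff_even).mpr he
  rw [h4] at h1
  exact absurd h1 (by decide)

end Pool.Agent.J4.H26
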