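import Pool.Agent.J4.H26.Coord

/-!
The values of relations: at most `2 ^ N` values.
-/

set_option autoImplicit false

namespace Pool.Agent.J4.H26

open Finset Function Pool.Agent.H916R2

set_option linter.unusedSectionVars false

variable {ι : Type} [Fintype ι] [DecidableEq ι] {n : ι → ℕ} [∀ i, NeZero (n i)]

lemma all_of_pure {Q : Type*} [AddCommGroup Q] {c : (∀ i, ZMod (n i)) → Q} (hn : Moduli n)
    (hc : CDist c) (W : AddSubgroup Q) (hW : ∀ S, ∀ a ∈ E n S, c a ∈ W) (a : ∀ i, ZMod (n i)) :
    c a ∈ W := by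
  classical
  exact mem_pure hn hc (univ.filter fun i => IsUnit (a i)) a (fun i => by simp) W (hW _)

/-- a distribution without two-torsion which vanishes on the basis is zero -/
lemma all_zero {Q : Type*} [AddCommGroup Q] {c : (∀ i, ZMod (n i)) → Q} (hn : Moduli n)
    (hc : CDist c) (β : Base n) (hQ : ∀ q : Q, q + q = 0 → q = 0)
    (hB : ∀ S, ∀ b ∈ β.B S, c b = 0) : ∀ a, c a = 0 := by
  have hB' : ∀ S, ∀ b ∈ β.B S, c b ∈ (⊥ : AddSubgroup Q) := fun S b hb => by
    rw [AddSubgroup.mem_bot]; exact hB S b hb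
  have key : ∀ S, ∀ a ∈ E n S, c a ∈ (⊥ : AddSubgroup Q) := by
    intro S
    induction S using Finset.strongInduction with
    | _ S ih =>
    refine all_mem hn hc ⊥ hB' {T | T ⊆ S} (fun T hT T' hT' => hT'.trans hT) ?_ S (Subset.refl _)
    intro T hT he hne
    rw [AddSubgroup.mem_bot]
    apply hQ
    rw [← AddSubgroup.mem_bot]
    apply level_even hn hc (β.hz T) ⊥ (erase_of_ssub ?_) (base_half hn (hB' T)) he
    intro T' hT'
    exact ih T' (lt_of_lt_of_le hT' hT)
  intro a
  exact (AddSubgroup.mem_bot).mp (all_of_pure hn hc ⊥ key a)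

/-- the distribution together with the saw tooth -/
def cs {m : ℕ} {Q : Type*} (c : ZMod m → Q) (a : ZMod m) : Q × ((ZMod m)ˣ → ℤ) :=
  (c a, fun t => saw ((t : ZMod m) * a))

lemma cs_odd {m : ℕ} [NeZero m] {Q : Type*} [AddCommGroup Q] {c : ZMod m → Q} (hc : OddDist c) :
    OddDist (cs c) := by
  constructor
  · intro a
    refine Prod.ext ?_ ?_
    · simp [cs, hc.neg]
    · funext t
      simp only [cs, Prod.snd_neg, Pi.neg_apply, mul_neg, saw_neg]
  · intro a ha
    refine Prod.ext ?_ ?_
    · exact hc.half a ha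
    · funext t
      simp only [cs, Prod.snd_zero, Pi.zero_apply]
      apply saw_half
      rw [← mul_add, ha, mul_zero]
  · intro p d hp hpd a
    refine Prod.ext ?_ ?_
    · rw [Prod.fst_sum]
      exact hc.dist p d hp hpd a
    · rw [Prod.snd_sum]
      funext t
      simp only [cs, Finset.sum_apply]
      exact saw_dist_unit hpd t a

lemma cs_sum {m : ℕ} [NeZero m] {Q : Type*} [AddCommGroup Q] {c : ZMod m → Q} (x : ZMod m → ℤ) :
    ∑ a, x a • cs c a = (∑ a, x a • c a, fun t : (ZMod m)ˣ => ∑ a, x a * saw ((t : ZMod m) * a)) := by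
  refine Prod.ext ?_ ?_
  · rw [Prod.fst_sum]; simp [cs]
  · rw [Prod.snd_sum]
    funext t
    rw [Finset.sum_apply]
    simp [cs]

/-- the basis as a set of residues -/
noncomputable def BZ (hn : Moduli n) (β : Base n) : Finset (ZMod (∏ i, n i)) := by
  classical
  exact β.BF.image (crt hn).symm

lemma mem_BZ (hn : Moduli n) {β : Base n} {a : ZMod (∏ i, n i)} :
    a ∈ BZ hn β ↔ ∃ S, crt hn a ∈ β.B S := by
  classical
  unfold BZ
  rw [mem_image]
  simp only [Base.BF, mem_filter, mem_univ, true_and]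
  constructor
  · rintro ⟨b, ⟨S, hb⟩, rfl⟩
    exact ⟨S, by rw [RingEquiv.apply_symm_apply]; exact hb⟩
  · rintro ⟨S, hS⟩
    exact ⟨crt hn a, ⟨S, hS⟩, by rw [RingEquiv.symm_apply_apply]⟩

lemma card_BZ [Nonempty ι] (hn : Moduli n) (β : Base n) :
    2 * (BZ hn β).card ≤ Nat.totient (∏ i, n i) := by
  classical
  refine le_trans ?_ (card_BF hn β (Classical.arbitrary ι))
  exact Nat.mul_le_mul_left _ card_image_le

lemma three_le [Nonempty ι] (hn : Moduli n) : 3 ≤ ∏ i, n i := by
  have i := Classical.arbitrary ι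
  have h1 : n i ∣ ∏ i, n i := dvd_prod_of_mem n (mem_univ i)
  have h2 := Nat.le_of_dvd (NeZero.pos _) h1
  have h3 : 3 ≤ n i := by
    rcases hn.mod i with h | ⟨h, h'⟩
    · omega
    · have := h.two_le
      omega
  omega

/-- the basis is independent -/
theorem indep_BZ [Nonempty ι] (hn : Moduli n) (β : Base n) (y : ZMod (∏ i, n i) → ℤ)
    (hy : ∀ a, y a ≠ 0 → a ∈ BZ hn β) (hrel : Rel y) : ∀ a, y a = 0 := by
  have hB0 : ∀ b ∈ BZ hn β, (fun a : ZMod (∏ i, n i) => (y a : ℂ)) b = 0 := by
    apply indep (XO (∏ i, n i)) _ (BZ hn β) _ _ (fun a : ZMod (∏ i, n i) => (y a : ℂ)) _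
    · intro χ hχ
      unfold XO at hχ
      simp only [mem_filter, mem_univ, true_and] at hχ
      exact hχ
    · have h1 := card_XO (three_le hn)
      have h2 := card_BZ hn β
      omega
    · intro α hα a
      have hF : OddDist (fun a : ZMod (∏ i, n i) => ∑ χ ∈ XO (∏ i, n i), α χ * SS χ a) := by
        constructor
        · intro a
          simp only [SS_neg, mul_neg, sum_neg_distrib]
        · intro a ha
          apply sum_eq_zero
          intro χ _
          have h1 : -a = a := neg_eq_of_add_eq_zero_right ha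
          have h2 := SS_neg χ a
          rw [h1] at h2
          have h3 : SS χ a = 0 := by
            have : 2 * SS χ a = 0 := by linear_combination h2
            simpa using this
          rw [h3, mul_zero]
        · intro p d hp hpd a
          rw [sum_comm]
          refine sum_congr rfl fun χ _ => ?_
          rw [← mul_sum]
          congr 1
          exact SS_dist χ hpd a
      have h := all_zero hn (tc_cdist hn hF) β (fun q hq => by
        have : 2 * q = 0 := by linear_combination hq
        simpa using this) (by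
          intro S b hb
          unfold tc
          apply hα
          rw [mem_BZ]
          exact ⟨S, by rw [RingEquiv.apply_symm_apply]; exact hb⟩) (crt hn a)
      unfold tc at h
      rwa [RingEquiv.symm_apply_apply] at h
    · intro χ hχ
      have h1 : ∑ b ∈ BZ hn β, (y b : ℂ) * SS χ b = ∑ a, (y a : ℂ) * SS χ a := by
        apply sum_subset (subset_univ _)
        intro a _ ha
        by_cases hya : y a = 0
        · rw [hya]; simp
        · exact absurd (hy a hya) ha
      rw [h1]
      unfold SS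
      have h2 : ∑ a, (y a : ℂ) * ∑ t : (ZMod (∏ i, n i))ˣ, χ t * (saw ((t : ZMod (∏ i, n i)) * a) : ℂ) =
          ∑ t : (ZMod (∏ i, n i))ˣ, χ t * ((∑ a, y a * saw ((t : ZMod (∏ i, n i)) * a) : ℤ) : ℂ) := by
        simp only [mul_sum, Int.cast_sum, Int.cast_mul]
        rw [sum_comm]
        refine sum_congr rfl fun t _ => sum_congr rfl fun a _ => ?_
        ring
      rw [h2]
      apply sum_eq_zero
      intro t _
      rw [hrel t]; simp
  intro a
  by_contra hya
  have := hB0 a (hy a hya)
  simp only [Int.cast_eq_zero] at this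
  exact hya this

/-- the elements of the group of the basis with trivial saw tooth part are zero -/
lemma VV_empty [Nonempty ι] (hn : Moduli n) (β : Base n) {Q : Type*} [AddCommGroup Q]
    (c : ZMod (∏ i, n i) → Q) {v : Q × ((ZMod (∏ i, n i))ˣ → ℤ)} (hv : v ∈ VV β (tc hn (cs c)) ∅)
    (h2 : v.2 = 0) : v = 0 := by
  have hrep : ∃ y : ZMod (∏ i, n i) → ℤ, (∀ a, y a ≠ 0 → a ∈ BZ hn β) ∧ v = ∑ a, y a • cs c a := by
    unfold VV at hv
    clear h2
    induction hv using AddSubgroup.closure_induction with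
    | mem q hq =>
      rcases hq with ⟨S, b, hb, rfl⟩ | ⟨S, hS, _⟩
      · refine ⟨Pi.single ((crt hn).symm b) 1, ?_, ?_⟩
        · intro a ha
          by_cases h : a = (crt hn).symm b
          · rw [h, mem_BZ]
            exact ⟨S, by rw [RingEquiv.apply_symm_apply]; exact hb⟩
          · rw [Pi.single_eq_of_ne h] at ha; exact absurd rfl ha
        · rw [Finset.sum_eq_single ((crt hn).symm b)]
          · simp [tc]
          · intro a _ ha; rw [Pi.single_eq_of_ne ha, zero_smul]
          · intro h; exact absurd (mem_univ _) h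
      · simp at hS
    | zero => exact ⟨0, by simp, by simp⟩
    | add p q _ _ hp hq =>
      obtain ⟨y, hy1, rfl⟩ := hp
      obtain ⟨z, hz1, rfl⟩ := hq
      refine ⟨y + z, ?_, ?_⟩
      · intro a ha
        by_cases h1 : y a = 0
        · by_cases h2 : z a = 0
          · exact absurd (by simp [h1, h2]) ha
          · exact hz1 a h2
        · exact hy1 a h1
      · rw [← sum_add_distrib]
        exact sum_congr rfl fun a _ => by rw [Pi.add_apply, add_smul]
    | neg p _ hp =>
      obtain ⟨y, hy1, rfl⟩ := hp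
      refine ⟨-y, ?_, ?_⟩
      · intro a ha
        apply hy1 a
        simpa using ha
      · rw [← sum_neg_distrib]
        exact sum_congr rfl fun a _ => by rw [Pi.neg_apply, neg_smul]
  obtain ⟨y, hy, rfl⟩ := hrep
  have hrel : Rel y := by
    intro t
    rw [cs_sum] at h2
    exact congrFun h2 t
  have h0 := indep_BZ hn β y hy hrel
  exact sum_eq_zero fun a _ => by rw [h0 a, zero_smul]

/-- the even nonempty sets -/
def evens (ι : Type) [Fintype ι] [DecidableEq ι] : Finset (Finset ι) :=
  univ.filter fun S => Even S.card ∧ S.Nonempty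

/-- **The values of the relations.** -/
theorem tors_bound (hn : Moduli n) (β : Base n) {Q : Type*} [AddCommGroup Q]
    {c : ZMod (∏ i, n i) → Q} (hc : OddDist c) (𝓢 : Finset (Finset ι))
    (h𝓢 : ∀ S ∈ 𝓢, Killed β (tc hn (cs c)) S) :
    ∃ R : Finset Q, R.card ≤ 2 ^ (evens ι \ 𝓢).card ∧
      ∀ x : ZMod (∏ i, n i) → ℤ, Rel x → ∑ a, x a • c a ∈ R := by
  classical
  rcases isEmpty_or_nonempty ι with hι | hι
  · refine ⟨{0}, ?_, ?_⟩
    · rw [card_singleton]; exact Nat.one_le_two_pow
    · intro x _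
      rw [mem_singleton]
      apply sum_eq_zero
      intro a _
      have h1 : ∏ i, n i = 1 := by simp
      have h2 : Subsingleton (ZMod (∏ i, n i)) := by
        rw [h1]; infer_instance
      rw [hc.half a (Subsingleton.elim _ _), smul_zero]
  have hC := tc_cdist hn (cs_odd hc)
  obtain ⟨R', hR', hcos⟩ := cosets hn hC 𝓢 h𝓢 _ (evens ι) rfl
    (fun S hS => (mem_filter.mp hS).2)
    (fun S _ T _ h1 h2 => mem_filter.mpr ⟨mem_univ _, h1, h2⟩)
  have hall : ∀ a : ZMod (∏ i, n i), cs c a ∈ VV β (tc hn (cs c)) (evens ι) := by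
    intro a
    have h1 := all_of_pure hn hC (VV β (tc hn (cs c)) (evens ι))
      (fun S => all_mem hn hC _ VV_B Set.univ (fun _ _ _ _ => Set.mem_univ _)
        (fun T _ h1 h2 => VV_zb T (mem_filter.mpr ⟨mem_univ _, h1, h2⟩)) S (Set.mem_univ _))
      (crt hn a)
    unfold tc at h1
    rw [RingEquiv.symm_apply_apply] at h1
    exact h1
  have hsum : ∀ x : ZMod (∏ i, n i) → ℤ,
      ∃ r ∈ R', ∑ a, x a • cs c a - r ∈ VV β (tc hn (cs c)) ∅ := fun x =>
    hcos _ (AddSubgroup.sum_mem _ fun a _ => AddSubgroup.zsmul_mem _ (hall a) _)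
  let good : Q × ((ZMod (∏ i, n i))ˣ → ℤ) → Prop := fun r => ∃ x : ZMod (∏ i, n i) → ℤ, Rel x ∧
    ∑ a, x a • cs c a - r ∈ VV β (tc hn (cs c)) ∅
  let f : Q × ((ZMod (∏ i, n i))ˣ → ℤ) → Q := fun r =>
    if h : good r then ∑ a, (Classical.choose h) a • c a else 0
  refine ⟨R'.image f, card_image_le.trans hR', ?_⟩
  intro x hx
  obtain ⟨r, hr, hxr⟩ := hsum x
  have hg : good r := ⟨x, hx, hxr⟩
  refine mem_image.mpr ⟨r, hr, ?_⟩
  simp only [f]
  rw [dif_pos hg]
  obtain ⟨h1, h2⟩ := Classical.choose_spec hg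
  set x' := Classical.choose hg
  have h3 := AddSubgroup.sub_mem _ h2 hxr
  rw [sub_sub_sub_cancel_right] at h3
  have h4 := VV_empty hn β c h3 (by
    rw [cs_sum, cs_sum]
    funext t
    change (∑ a, x' a * saw ((t : ZMod (∏ i, n i)) * a)) - (∑ a, x a * saw ((t : ZMod (∏ i, n i)) * a)) = 0
    rw [h1 t, hx t, sub_zero])
  rw [cs_sum, cs_sum] at h4
  have h5 := congrArg Prod.fst h4
  simp only [Prod.fst_sub, Prod.fst_zero] at h5
  exact sub_eq_zero.mp h5

end Pool.Agent.J4.H26
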