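import Pool.Agent.J4.H26.Tors

/-!
Closed walks are the most frequent ones.
-/

set_option autoImplicit false

namespace Pool.Agent.J4.H26

open Finset Function Pool.Agent.H916R2

section walk

open scoped Classical in
lemma walk_sum {α J G : Type} [Fintype α] [Fintype J] [DecidableEq J] [AddCommGroup G] (f : α → G) (ν : α → α)
    (hν : ∀ a, ν (ν a) = a) (hf : ∀ a, f (ν a) = - f a) (τ : G) :
    (univ.filter fun a : J ⊕ J → α => ∑ j, f (a j) = τ).card ≤
      (univ.filter fun a : J ⊕ J → α => ∑ j, f (a j) = 0).card := by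
  -- values on half of the steps
  let V : (J → α) → G := fun b => ∑ j, f (b j)
  let F : G → ℕ := fun x => (univ.filter fun b : J → α => V b = x).card
  let X : Finset G := univ.image V
  have hcount : ∀ σ : G, (univ.filter fun a : J ⊕ J → α => ∑ j, f (a j) = σ).card =
      ∑ x ∈ X, F x * F (σ + x) := by
    intro σ
    have h1 : (univ.filter fun a : J ⊕ J → α => ∑ j, f (a j) = σ).card =
        (univ.filter fun q : (J → α) × (J → α) => V q.1 = σ + V q.2).card := by
      refine Finset.card_bij' (fun a _ => (fun j => a (Sum.inl j), fun j => ν (a (Sum.inr j))))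
        (fun q _ => Sum.elim q.1 (fun j => ν (q.2 j))) ?_ ?_ ?_ ?_
      · intro a ha
        simp only [mem_filter, mem_univ, true_and, Fintype.sum_sum_type] at ha ⊢
        simp only [V, hf, sum_neg_distrib]
        rw [← ha]; abel
      · intro q hq
        simp only [mem_filter, mem_univ, true_and, Fintype.sum_sum_type, Sum.elim_inl,
          Sum.elim_inr] at hq ⊢
        simp only [V] at hq
        simp only [hf, sum_neg_distrib]
        rw [hq]; abel
      · intro a _
        funext j
        rcases j with j | j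
        · rfl
        · simp [hν]
      · intro q _
        refine Prod.ext ?_ ?_
        · funext j; rfl
        · funext j; simp [hν]
    rw [h1]
    have h2 : (univ.filter fun q : (J → α) × (J → α) => V q.1 = σ + V q.2) =
        univ.biUnion fun b : J → α => (univ.filter fun b' : J → α => V b' = σ + V b).map
          ⟨fun b' => (b', b), fun x y h => (Prod.mk.inj h).1⟩ := by
      ext q
      simp only [mem_filter, mem_univ, true_and, mem_biUnion, mem_map]
      constructor
      · intro h; exact ⟨q.2, q.1, h, rfl⟩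
      · rintro ⟨b, b', h, rfl⟩; exact h
    rw [h2, card_biUnion]
    · have h3 : ∀ b : J → α, ((univ.filter fun b' : J → α => V b' = σ + V b).map
          (⟨fun b' => (b', b), fun x y h => (Prod.mk.inj h).1⟩ : (J → α) ↪ _)).card =
          F (σ + V b) := fun b => card_map _
      rw [sum_congr rfl fun b _ => h3 b]
      rw [← sum_fiberwise_of_maps_to (s := univ) (t := X) (g := V)
        (fun b _ => mem_image_of_mem V (mem_univ b)) (fun b => F (σ + V b))]
      refine sum_congr rfl fun x _ => ?_
      rw [sum_congr rfl fun b hb => by rw [(mem_filter.mp hb).2], sum_const, smul_eq_mul]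
    · intro b _ b' _ hne
      rw [Function.onFun, Finset.disjoint_left]
      intro q hq hq'
      simp only [mem_map, mem_filter, mem_univ, true_and] at hq hq'
      obtain ⟨_, _, rfl⟩ := hq
      obtain ⟨_, _, h⟩ := hq'
      exact hne (Prod.mk.inj h).2.symm
  rw [hcount τ, hcount 0]
  have hFX : ∀ x, x ∉ X → F x = 0 := by
    intro x hx
    rw [card_eq_zero, filter_eq_empty_iff]
    intro b _ hb
    exact hx (hb ▸ mem_image_of_mem V (mem_univ b))
  have h1 : ∑ x ∈ X, F (τ + x) ^ 2 ≤ ∑ x ∈ X, F x ^ 2 := by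
    have h2 : ∑ x ∈ X, F (τ + x) ^ 2 = ∑ y ∈ X.image (fun x => τ + x), F y ^ 2 := by
      exact (sum_image (f := fun y => F y ^ 2) (s := X) (g := fun x => τ + x)
        (fun x _ y _ h => add_left_cancel h)).symm
    rw [h2]
    have h3 : ∑ y ∈ X.image (fun x => τ + x), F y ^ 2 =
        ∑ y ∈ (X.image (fun x => τ + x)).filter (fun y => y ∈ X), F y ^ 2 := by
      rw [sum_filter]
      refine sum_congr rfl fun y _ => ?_
      split_ifs with h
      · rfl
      · rw [hFX y h]; rfl
    rw [h3]
    apply sum_le_sum_of_subset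
    intro y hy
    exact (mem_filter.mp hy).2
  have h4 : ∑ x ∈ X, 2 * (F x * F (τ + x)) ≤ ∑ x ∈ X, (F x ^ 2 + F (τ + x) ^ 2) := by
    apply sum_le_sum
    intro x _
    nlinarith [sq_nonneg ((F x : ℤ) - F (τ + x)), two_mul_le_add_sq (F x) (F (τ + x))]
  rw [← mul_sum, sum_add_distrib] at h4
  have h5 : ∑ x ∈ X, F x * F (0 + x) = ∑ x ∈ X, F x ^ 2 :=
    sum_congr rfl fun x _ => by rw [zero_add, sq]
  rw [h5]
  omega

open scoped Classical in
lemma walk {α G : Type} [Fintype α] [AddCommGroup G] (f : α → G) (ν : α → α)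
    (hν : ∀ a, ν (ν a) = a) (hf : ∀ a, f (ν a) = - f a) (N : ℕ) (τ : G) :
    (univ.filter fun a : Fin (2 * N) → α => ∑ j, f (a j) = τ).card ≤
      (univ.filter fun a : Fin (2 * N) → α => ∑ j, f (a j) = 0).card := by
  have e : Fin N ⊕ Fin N ≃ Fin (2 * N) := finSumFinEquiv.trans (finCongr (two_mul N).symm)
  have h : ∀ σ : G, (univ.filter fun a : Fin (2 * N) → α => ∑ j, f (a j) = σ).card =
      (univ.filter fun a : Fin N ⊕ Fin N → α => ∑ j, f (a j) = σ).card := by
    intro σ
    refine Finset.card_bij' (fun a _ => a ∘ e) (fun a _ => a ∘ e.symm) ?_ ?_ ?_ ?_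
    · intro a ha
      simp only [mem_filter, mem_univ, true_and, Function.comp_apply] at ha ⊢
      rw [← ha]
      exact Equiv.sum_comp e fun j => f (a j)
    · intro a ha
      simp only [mem_filter, mem_univ, true_and, Function.comp_apply] at ha ⊢
      rw [← ha]
      exact Equiv.sum_comp e.symm fun j => f (a j)
    · intro a _; funext j; simp
    · intro a _; funext j; simp
  rw [h τ, h 0]
  exact walk_sum (J := Fin N) f ν hν hf τ

end walk

/-- `2 d` reduces to `d` for odd `d` -/
theorem red_two {d : ℕ} [NeZero d] [NeZero (2 * d)] (hd : Odd d) : Red (2 * d) d 2 := by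
  classical
  -- coefficients
  let w : ZMod (2 * d) → ZMod d → ℤ := fun a =>
    if a.val % 2 = 0 then Pi.single ((a.val / 2 : ℕ) : ZMod d) 1 else
      Pi.single ((a.val : ℕ) : ZMod d) 1 - Pi.single (((a.val + d) / 2 : ℕ) : ZMod d) 1
  have hsingle : ∀ (Q : Type) [AddCommGroup Q] (g : ZMod d → Q) (b : ZMod d),
      ∑ y : ZMod d, (Pi.single b (1 : ℤ) : ZMod d → ℤ) y • g y = g b := by
    intro Q _ g b
    simp only [Pi.single_apply, ite_smul, one_smul, zero_smul, Finset.sum_ite_eq', mem_univ,
      if_true]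
  have hw : ∀ (Q : Type) [AddCommGroup Q] (c : ZMod (2 * d) → Q), OddDist c → ∀ a,
      c a = ∑ b : ZMod d, w a b • c (iota 2 b) := by
    intro Q _ c hc a
    have hav : ((a.val : ℕ) : ZMod (2 * d)) = a := ZMod.natCast_zmod_val a
    by_cases h : a.val % 2 = 0
    · simp only [w, if_pos h]
      rw [hsingle, iota_natCast rfl, Nat.mul_div_cancel' (Nat.dvd_of_mod_eq_zero h), hav]
    · simp only [w, if_neg h]
      have h1 := hc.dist 2 d Nat.prime_two rfl a
      rw [sum_range_succ, sum_range_one, Nat.cast_zero, zero_mul, add_zero, Nat.cast_one,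
        one_mul] at h1
      have h2 : ∀ b, (Pi.single ((a.val : ℕ) : ZMod d) (1 : ℤ) -
          Pi.single (((a.val + d) / 2 : ℕ) : ZMod d) 1 : ZMod d → ℤ) b • c (iota 2 b) =
          (Pi.single ((a.val : ℕ) : ZMod d) (1 : ℤ) : ZMod d → ℤ) b • c (iota 2 b) -
          (Pi.single (((a.val + d) / 2 : ℕ) : ZMod d) (1 : ℤ) : ZMod d → ℤ) b • c (iota 2 b) := by
        intro b; rw [Pi.sub_apply, sub_smul]
      rw [sum_congr rfl fun b _ => h2 b, sum_sub_distrib, hsingle, hsingle, iota_natCast rfl,
        iota_natCast rfl]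
      have h3 : 2 ∣ a.val + d := by
        obtain ⟨k, hk⟩ := hd
        omega
      rw [Nat.mul_div_cancel' h3, eq_sub_iff_add_eq]
      push_cast
      push_cast at h1
      rw [ZMod.natCast_zmod_val]
      exact h1
  intro Q _ c hc x hx
  refine ⟨fun b => ∑ a, x a * w a b, ?_, ?_⟩
  · intro t
    obtain ⟨T, hT⟩ := ZMod.unitsMap_surjective (Dvd.intro_left 2 rfl : d ∣ 2 * d) t
    have hs : OddDist (fun a : ZMod (2 * d) => saw ((T : ZMod (2 * d)) * a)) := by
      constructor
      · intro a; simp only [mul_neg, saw_neg]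
      · intro a ha
        apply saw_half
        rw [← mul_add, ha, mul_zero]
      · intro p d' _ hpd a
        exact saw_dist_unit hpd T a
    have h1 : ∑ a, x a * saw ((T : ZMod (2 * d)) * a) =
        ∑ b : ZMod d, (∑ a, x a * w a b) * saw ((T : ZMod (2 * d)) * iota 2 b) := by
      have h2 : ∀ a, x a * saw ((T : ZMod (2 * d)) * a) =
          ∑ b : ZMod d, x a * w a b * saw ((T : ZMod (2 * d)) * iota 2 b) := by
        intro a
        have h3 := hw ℤ _ hs a
        simp only [smul_eq_mul] at h3
        rw [h3, mul_sum]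
        exact sum_congr rfl fun b _ => by ring
      rw [sum_congr rfl fun a _ => h2 a, sum_comm]
      exact sum_congr rfl fun b _ => by rw [sum_mul]
    rw [hx T] at h1
    have h4 : ∑ b : ZMod d, (∑ a, x a * w a b) * saw ((T : ZMod (2 * d)) * iota 2 b) =
        2 * ∑ b : ZMod d, (∑ a, x a * w a b) * saw ((t : ZMod d) * b) := by
      rw [mul_sum]
      refine sum_congr rfl fun b _ => ?_
      rw [unit_iota rfl, saw_iota rfl, ← hT]
      push_cast; ring
    rw [h4] at h1
    change ∑ b : ZMod d, (∑ a, x a * w a b) * saw ((t : ZMod d) * b) = 0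
    omega
  · have h2 : ∀ a, x a • c a = ∑ b : ZMod d, (x a * w a b) • c (iota 2 b) := by
      intro a
      conv_lhs => rw [hw Q c hc a]
      rw [smul_sum]
      exact sum_congr rfl fun b _ => by rw [mul_smul]
    rw [sum_congr rfl fun a _ => h2 a, sum_comm]
    exact sum_congr rfl fun b _ => by rw [sum_smul]

end Pool.Agent.J4.H26
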